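import Mathlib

set_option autoImplicit false

open Finset
open scoped Classical

namespace MP4d84d8

variable {V : Type*}

/-- neighbours of `v` in `X` -/
noncomputable def nb (G : SimpleGraph V) (v : V) (X : Finset V) : Finset V :=
  X.filter (fun u => G.Adj v u)

/-- number of pairs `(a,b)`, `a ∈ A`, `b ∈ B`, adjacent -/
noncomputable def ee (G : SimpleGraph V) (A B : Finset V) : ℕ := ∑ a ∈ A, (nb G a B).card

/-- no `K_{s,s}` -/
def NoBic (G : SimpleGraph V) (s : ℕ) : Prop :=
  ¬ ∃ A B : Finset V, A.card = s ∧ B.card = s ∧ ∀ a ∈ A, ∀ b ∈ B, G.Adj a b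

lemma mem_nb {G : SimpleGraph V} {v u : V} {X : Finset V} :
    u ∈ nb G v X ↔ u ∈ X ∧ G.Adj v u := by
  simp [nb]

lemma nb_subset (G : SimpleGraph V) (v : V) (X : Finset V) : nb G v X ⊆ X :=
  Finset.filter_subset _ _

lemma nb_mono (G : SimpleGraph V) (v : V) {X Y : Finset V} (h : X ⊆ Y) : nb G v X ⊆ nb G v Y :=
  Finset.filter_subset_filter _ h

lemma ee_comm (G : SimpleGraph V) (A B : Finset V) : ee G A B = ee G B A := by
  unfold ee nb
  simp_rw [Finset.card_filter]
  rw [Finset.sum_comm]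
  refine Finset.sum_congr rfl fun b _ => Finset.sum_congr rfl fun a _ => ?_
  simp [G.adj_comm]

lemma star [Fintype V] (G : SimpleGraph V) (s : ℕ) (hs : 1 ≤ s) (hG : NoBic G s) (Z : Finset V)
    (hZ : 2 * s ≤ Z.card) :
    (univ.filter (fun v => 2 * s * (Z \ nb G v Z).card < Z.card)).card < s := by
  by_contra hcon
  push Not at hcon
  obtain ⟨A, hA, hAc⟩ := Finset.exists_subset_card_eq hcon
  apply hG
  set C := Z.filter (fun z => ∀ a ∈ A, G.Adj a z) with hC
  have h1 : Z \ C ⊆ A.biUnion (fun a => Z \ nb G a Z) := by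
    intro z hz
    rw [mem_sdiff, hC, mem_filter] at hz
    obtain ⟨hz1, hz2⟩ := hz
    have : ∃ a ∈ A, ¬ G.Adj a z := by
      by_contra h
      push Not at h
      exact hz2 ⟨hz1, h⟩
    obtain ⟨a, ha, haz⟩ := this
    rw [mem_biUnion]
    exact ⟨a, ha, by rw [mem_sdiff, mem_nb]; exact ⟨hz1, fun h => haz h.2⟩⟩
  have h2 : (Z \ C).card ≤ ∑ a ∈ A, (Z \ nb G a Z).card :=
    (card_le_card h1).trans card_biUnion_le
  have h3 : 2 * s * (Z \ C).card ≤ s * Z.card := by
    calc 2 * s * (Z \ C).card ≤ 2 * s * ∑ a ∈ A, (Z \ nb G a Z).card := Nat.mul_le_mul_left _ h2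
      _ = ∑ a ∈ A, 2 * s * (Z \ nb G a Z).card := by rw [Finset.mul_sum]
      _ ≤ ∑ a ∈ A, Z.card := by
          refine Finset.sum_le_sum fun a ha => ?_
          have := hA ha
          rw [mem_filter] at this
          exact this.2.le
      _ = s * Z.card := by rw [Finset.sum_const, hAc, smul_eq_mul]
  have h4 : 2 * (Z \ C).card ≤ Z.card := by
    have : s * (2 * (Z \ C).card) ≤ s * Z.card := by
      calc s * (2 * (Z \ C).card) = 2 * s * (Z \ C).card := by ring
        _ ≤ _ := h3
    exact Nat.le_of_mul_le_mul_left this (by omega)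
  have hCZ : C ⊆ Z := Finset.filter_subset _ _
  have h5 : (Z \ C).card + C.card = Z.card := Finset.card_sdiff_add_card_eq_card hCZ
  have h6 : s ≤ C.card := by omega
  obtain ⟨B, hB, hBc⟩ := Finset.exists_subset_card_eq h6
  refine ⟨A, B, hAc, hBc, fun a ha b hb => ?_⟩
  have := hB hb
  rw [hC, mem_filter] at this
  exact this.2 a ha

lemma greedy [Fintype V] [Nonempty V] (G : SimpleGraph V) (s : ℕ) (hs : 1 ≤ s) (hG : NoBic G s)
    {Q : Type*} (J : Finset Q) :
    ∀ Z : Q → Finset V, (∀ j ∈ J, (J.card + 1) * (4 * s) ^ (J.card + 1) ≤ (Z j).card) →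
      ∃ q : Q → V, (∀ j ∈ J, q j ∈ Z j) ∧
        ∀ i ∈ J, ∀ j ∈ J, i ≠ j → q i ≠ q j ∧ ¬ G.Adj (q i) (q j) := by
  induction J using Finset.induction_on with
  | empty =>
    intro Z _
    exact ⟨fun _ => Classical.arbitrary V, by simp, by simp⟩
  | insert j0 J hj0 ih =>
    intro Z hZ
    rw [card_insert_of_notMem hj0] at hZ
    set n := J.card with hn
    have hpow : 1 ≤ (4 * s) ^ (n + 1) := Nat.one_le_pow _ _ (by omega)
    have hbig : ∀ j ∈ insert j0 J, 2 * s ≤ (Z j).card := by
      intro j hj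
      refine le_trans ?_ (hZ j hj)
      calc 2 * s ≤ 1 * (4 * s) := by omega
        _ ≤ (n + 1 + 1) * (4 * s) ^ (n + 1 + 1) := by
            apply Nat.mul_le_mul (by omega)
            calc 4 * s = (4 * s) ^ 1 := by ring
              _ ≤ _ := Nat.pow_le_pow_right (by omega) (by omega)
    set Bad : Q → Finset V := fun j =>
      univ.filter (fun v => 2 * s * (Z j \ nb G v (Z j)).card < (Z j).card) with hBad
    have hBadc : ∀ j ∈ J, (Bad j).card ≤ s := fun j hj =>
      (star G s hs hG (Z j) (hbig j (mem_insert_of_mem hj))).le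
    have h1 : (J.biUnion Bad).card < (Z j0).card := by
      calc (J.biUnion Bad).card ≤ ∑ j ∈ J, (Bad j).card := card_biUnion_le
        _ ≤ ∑ j ∈ J, s := Finset.sum_le_sum hBadc
        _ = n * s := by rw [Finset.sum_const, smul_eq_mul]
        _ < (n + 1 + 1) * (4 * s) ^ (n + 1 + 1) := by
            have : n * s < (n + 1 + 1) * (4 * s) := by nlinarith
            refine this.trans_le (Nat.mul_le_mul_left _ ?_)
            calc 4 * s = (4 * s) ^ 1 := by ring
              _ ≤ _ := Nat.pow_le_pow_right (by omega) (by omega)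
        _ ≤ (Z j0).card := hZ j0 (mem_insert_self _ _)
    obtain ⟨q0, hq0, hq0'⟩ := Finset.exists_mem_notMem_of_card_lt_card h1
    set Z' : Q → Finset V := fun j => (Z j \ nb G q0 (Z j)).erase q0 with hZ'
    have h2 : ∀ j ∈ J, (n + 1) * (4 * s) ^ (n + 1) ≤ (Z' j).card := by
      intro j hj
      have h3 : ¬ (2 * s * (Z j \ nb G q0 (Z j)).card < (Z j).card) := by
        intro h
        apply hq0'
        rw [mem_biUnion]
        exact ⟨j, hj, by simp only [hBad, mem_filter, mem_univ, true_and]; exact h⟩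
      push Not at h3
      have h4 : (Z j \ nb G q0 (Z j)).card ≤ (Z' j).card + 1 := by
        simp only [hZ']
        have := Finset.pred_card_le_card_erase (s := Z j \ nb G q0 (Z j)) (a := q0)
        omega
      have h5 : (n + 1 + 1) * (4 * s) ^ (n + 1 + 1) ≤ 2 * s * ((Z' j).card + 1) :=
        (hZ j (mem_insert_of_mem hj)).trans (h3.trans (Nat.mul_le_mul_left _ h4))
      have h6 : 2 * s * ((n + 1 + 1) * (2 * (4 * s) ^ (n + 1))) ≤ 2 * s * ((Z' j).card + 1) := by
        refine le_trans (le_of_eq ?_) h5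
        ring
      have h7 := Nat.le_of_mul_le_mul_left h6 (by omega)
      nlinarith
    obtain ⟨q', hq1, hq2⟩ := ih Z' h2
    have hmem : ∀ j ∈ J, q' j ∈ Z j ∧ ¬ G.Adj q0 (q' j) ∧ q' j ≠ q0 := by
      intro j hj
      have := hq1 j hj
      simp only [hZ', mem_erase, mem_sdiff, mem_nb, not_and] at this
      exact ⟨this.2.1, this.2.2 this.2.1, this.1⟩
    refine ⟨fun j => if j = j0 then q0 else q' j, ?_, ?_⟩
    · intro j hj
      by_cases h : j = j0
      · simp only [h, if_true]; exact hq0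
      · simp only [h, if_false]
        exact (hmem j (mem_of_mem_insert_of_ne hj h)).1
    · intro i hi j hj hij
      by_cases h : i = j0
      · have hjj : j ≠ j0 := fun h' => hij (h.trans h'.symm)
        have hjJ := mem_of_mem_insert_of_ne hj hjj
        simp only [h, if_true, hjj, if_false]
        exact ⟨(hmem j hjJ).2.2.symm, (hmem j hjJ).2.1⟩
      · have hiJ := mem_of_mem_insert_of_ne hi h
        by_cases h' : j = j0
        · simp only [h, if_false, h', if_true]
          exact ⟨(hmem i hiJ).2.2, fun hh => (hmem i hiJ).2.1 hh.symm⟩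
        · simp only [h, if_false, h']
          exact hq2 i hiJ j (mem_of_mem_insert_of_ne hj h') hij

end MP4d84d8
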