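import Mathlib
import Pool.Agent.Lib.MP_4d84d8_co.Basic

set_option autoImplicit false

open Finset
open scoped Classical

namespace MP4d84d8

variable {V : Type*}

/-- all `t`-tuples from `X` -/
noncomputable def tup (t : ℕ) (X : Finset V) : Finset (Fin t → V) := Fintype.piFinset (fun _ => X)

lemma mem_tup {t : ℕ} {X : Finset V} {x : Fin t → V} : x ∈ tup t X ↔ ∀ i, x i ∈ X := by
  simp [tup]

lemma card_tup (t : ℕ) (X : Finset V) : (tup t X).card = X.card ^ t := by
  simp [tup]

lemma avg_update {M : Type*} [CommSemiring M] {t : ℕ} (X : Finset V) (i : Fin t)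
    (f : (Fin t → V) → M) :
    ∑ x ∈ tup t X, ∑ y ∈ X, f (Function.update x i y) = (X.card : M) * ∑ x ∈ tup t X, f x := by
  have h1 : ∑ p ∈ tup t X ×ˢ X, f (Function.update p.1 i p.2) = ∑ p ∈ tup t X ×ˢ X, f p.1 := by
    refine Finset.sum_nbij' (fun p => (Function.update p.1 i p.2, p.1 i))
      (fun p => (Function.update p.1 i p.2, p.1 i)) ?_ ?_ ?_ ?_ ?_
    · intro p hp
      rw [mem_product] at hp ⊢
      rw [mem_tup] at hp ⊢
      refine ⟨fun j => ?_, hp.1 i⟩
      by_cases h : j = i
      · subst h; simpa using hp.2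
      · simpa [Function.update_of_ne h] using hp.1 j
    · intro p hp
      rw [mem_product] at hp ⊢
      rw [mem_tup] at hp ⊢
      refine ⟨fun j => ?_, hp.1 i⟩
      by_cases h : j = i
      · subst h; simpa using hp.2
      · simpa [Function.update_of_ne h] using hp.1 j
    · intro p hp
      simp
    · intro p hp
      simp
    · intro p hp
      simp
  rw [Finset.sum_product, Finset.sum_product] at h1
  simp only at h1
  rw [h1, Finset.mul_sum]
  refine Finset.sum_congr rfl fun x _ => ?_
  rw [Finset.sum_const, nsmul_eq_mul]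

lemma card_coord_le {t : ℕ} (X : Finset V) (i : Fin t) (Q : (Fin t → V) → Prop) (c : ℕ)
    (h : ∀ x ∈ tup t X, (X.filter (fun y => Q (Function.update x i y))).card ≤ c) :
    X.card * ((tup t X).filter Q).card ≤ c * X.card ^ t := by
  have h1 := avg_update (M := ℕ) X i (fun x => if Q x then 1 else 0)
  rw [← Finset.card_filter] at h1
  calc X.card * ((tup t X).filter Q).card = ∑ x ∈ tup t X, ∑ y ∈ X,
        (if Q (Function.update x i y) then 1 else 0) := h1.symm
    _ ≤ ∑ x ∈ tup t X, c := by
        refine Finset.sum_le_sum fun x hx => ?_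
        rw [← Finset.card_filter]
        exact h x hx
    _ = c * X.card ^ t := by
        rw [Finset.sum_const, smul_eq_mul, card_tup, mul_comm]

lemma card_pair_eq {t : ℕ} (X : Finset V) (i j : Fin t) (hij : i ≠ j) (R : V → V → Prop) :
    X.card ^ 2 * ((tup t X).filter (fun x => R (x i) (x j))).card =
      X.card ^ t * ((X ×ˢ X).filter (fun p => R p.1 p.2)).card := by
  have h1 := avg_update (M := ℕ) X i (fun x => if R (x i) (x j) then 1 else 0)
  rw [← Finset.card_filter] at h1
  have h2 := avg_update (M := ℕ) X j (fun x => ∑ y ∈ X, if R y (x j) then 1 else 0)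
  have h3 : ∀ x ∈ tup t X, ∑ y ∈ X, (if R (Function.update x i y i) (Function.update x i y j)
      then 1 else 0) = ∑ y ∈ X, if R y (x j) then 1 else 0 := by
    intro x _
    refine Finset.sum_congr rfl fun y _ => ?_
    rw [Function.update_self, Function.update_of_ne hij.symm]
  rw [Finset.sum_congr rfl h3] at h1
  have h4 : ∀ x ∈ tup t X, ∑ z ∈ X, ∑ y ∈ X, (if R y (Function.update x j z j) then 1 else 0) =
      ((X ×ˢ X).filter (fun p => R p.1 p.2)).card := by
    intro x _
    rw [Finset.card_filter, Finset.sum_product_right]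
    refine Finset.sum_congr rfl fun z _ => Finset.sum_congr rfl fun y _ => ?_
    rw [Function.update_self]
  rw [Finset.sum_congr rfl h4, Finset.sum_const, card_tup, smul_eq_mul, h1] at h2
  rw [h2]
  push_cast
  ring

/-- partial traces -/
noncomputable def Fs [Fintype V] (G : SimpleGraph V) {t : ℕ} (x : Fin t → V) (S : Finset (Fin t))
    (i : ℕ) : Finset V :=
  univ.filter (fun q => (∀ j ∈ S, G.Adj (x j) q) ∧ ∀ j ∉ S, (j : ℕ) < i → ¬ G.Adj (x j) q)

/-- the tuple is bad at `(S,i)` -/
def BadAt [Fintype V] (G : SimpleGraph V) (s : ℕ) {t : ℕ} (S : Finset (Fin t)) (i : Fin t)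
    (x : Fin t → V) : Prop :=
  2 * s ≤ (Fs G x S i).card ∧ 2 * s * (Fs G x S i \ nb G (x i) (Fs G x S i)).card < (Fs G x S i).card

lemma Fs_update [Fintype V] (G : SimpleGraph V) {t : ℕ} (x : Fin t → V) (S : Finset (Fin t))
    (i : Fin t) (hi : i ∉ S) (y : V) : Fs G (Function.update x i y) S i = Fs G x S i := by
  unfold Fs
  refine Finset.filter_congr fun q _ => ?_
  constructor
  · rintro ⟨h1, h2⟩
    refine ⟨fun j hj => ?_, fun j hj hji => ?_⟩
    · have := h1 j hj
      rwa [Function.update_of_ne (by rintro rfl; exact hi hj)] at this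
    · have := h2 j hj hji
      rwa [Function.update_of_ne (by rintro rfl; exact lt_irrefl _ hji)] at this
  · rintro ⟨h1, h2⟩
    refine ⟨fun j hj => ?_, fun j hj hji => ?_⟩
    · have := h1 j hj
      rwa [Function.update_of_ne (by rintro rfl; exact hi hj)]
    · have := h2 j hj hji
      rwa [Function.update_of_ne (by rintro rfl; exact lt_irrefl _ hji)]

lemma card_badAt [Fintype V] (G : SimpleGraph V) (s : ℕ) (hs : 1 ≤ s) (hG : NoBic G s) {t : ℕ}
    (S : Finset (Fin t)) (i : Fin t) (hi : i ∉ S) (X : Finset V) :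
    X.card * ((tup t X).filter (BadAt G s S i)).card ≤ s * X.card ^ t := by
  refine card_coord_le X i (BadAt G s S i) s fun x _ => ?_
  by_cases hF : 2 * s ≤ (Fs G x S i).card
  · refine le_trans (Finset.card_le_card ?_) (star G s hs hG (Fs G x S i) hF).le
    intro y hy
    rw [mem_filter] at hy
    have h := hy.2.2
    rw [Fs_update G x S i hi, Function.update_self] at h
    rw [mem_filter]
    exact ⟨mem_univ _, h⟩
  · have : X.filter (fun y => BadAt G s S i (Function.update x i y)) = ∅ := by
      rw [Finset.filter_eq_empty_iff]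
      intro y _ h
      have h := h.1
      rw [Fs_update G x S i hi] at h
      exact hF h
    rw [this]
    simp

/-- bad tuples -/
def Bad [Fintype V] (G : SimpleGraph V) (s : ℕ) {t : ℕ} (x : Fin t → V) : Prop :=
  ∃ S : Finset (Fin t), ∃ i : Fin t, i ∉ S ∧ BadAt G s S i x

lemma card_bad [Fintype V] (G : SimpleGraph V) (s : ℕ) (hs : 1 ≤ s) (hG : NoBic G s) {t : ℕ}
    (X : Finset V) :
    X.card * ((tup t X).filter (Bad G s)).card ≤ 2 ^ t * t * s * X.card ^ t := by
  have h1 : (tup t X).filter (Bad G s) ⊆
      (univ : Finset (Finset (Fin t))).biUnion (fun S => (univ.filter (fun i => i ∉ S)).biUnion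
        (fun i => (tup t X).filter (BadAt G s S i))) := by
    intro x hx
    rw [mem_filter] at hx
    obtain ⟨hx1, S, i, hi, hb⟩ := hx
    rw [mem_biUnion]
    refine ⟨S, mem_univ _, ?_⟩
    rw [mem_biUnion]
    refine ⟨i, by simp [hi], ?_⟩
    rw [mem_filter]
    exact ⟨hx1, hb⟩
  calc X.card * ((tup t X).filter (Bad G s)).card
      ≤ X.card * ∑ S : Finset (Fin t), ∑ i ∈ univ.filter (fun i => i ∉ S),
          ((tup t X).filter (BadAt G s S i)).card := by
        refine Nat.mul_le_mul_left _ ?_
        refine (Finset.card_le_card h1).trans (card_biUnion_le.trans ?_)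
        exact Finset.sum_le_sum fun S _ => card_biUnion_le
    _ = ∑ S : Finset (Fin t), ∑ i ∈ univ.filter (fun i => i ∉ S),
          X.card * ((tup t X).filter (BadAt G s S i)).card := by
        simp_rw [Finset.mul_sum]
    _ ≤ ∑ S : Finset (Fin t), ∑ i ∈ univ.filter (fun i => i ∉ S), s * X.card ^ t := by
        refine Finset.sum_le_sum fun S _ => Finset.sum_le_sum fun i hi => ?_
        rw [mem_filter] at hi
        exact card_badAt G s hs hG S i hi.2 X
    _ ≤ ∑ S : Finset (Fin t), t * (s * X.card ^ t) := by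
        refine Finset.sum_le_sum fun S _ => ?_
        rw [Finset.sum_const, smul_eq_mul]
        refine Nat.mul_le_mul_right _ ?_
        exact (Finset.card_le_univ _).trans (by simp)
    _ = 2 ^ t * t * s * X.card ^ t := by
        rw [Finset.sum_const, smul_eq_mul, Finset.card_univ, Fintype.card_finset, Fintype.card_fin]
        ring

/-- common neighbourhood -/
noncomputable def cn [Fintype V] (G : SimpleGraph V) {t : ℕ} (x : Fin t → V) : Finset V :=
  univ.filter (fun q => ∀ j, G.Adj (x j) q)

lemma not_bad_card [Fintype V] (G : SimpleGraph V) (s : ℕ) (hs : 1 ≤ s) {t : ℕ}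
    (x : Fin t → V) (hx : ¬ Bad G s x) (hc : (2 * s) ^ (t + 1) ≤ (cn G x).card)
    (S : Finset (Fin t)) : (cn G x).card ≤ (2 * s) ^ t * (Fs G x S t).card := by
  have key : ∀ i ≤ t, (cn G x).card ≤ (2 * s) ^ i * (Fs G x S i).card := by
    intro i
    induction i with
    | zero =>
      intro _
      rw [pow_zero, one_mul]
      refine Finset.card_le_card fun q hq => ?_
      simp only [cn, mem_filter, mem_univ, true_and] at hq
      simp only [Fs, mem_filter, mem_univ, true_and, Nat.not_lt_zero, false_imp_iff, implies_true,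
        and_true]
      exact fun j _ => hq j
    | succ i ih =>
      intro hi
      have ih := ih (by omega)
      by_cases hiS : (⟨i, hi⟩ : Fin t) ∈ S
      · have h1 : Fs G x S (i + 1) = Fs G x S i := by
          unfold Fs
          refine Finset.filter_congr fun q _ => and_congr_right fun _ => ?_
          refine forall_congr' fun j => ?_
          refine imp_congr_right fun hj => ?_
          constructor
          · intro h hji
            exact h (by omega)
          · intro h hji
            refine h (lt_of_le_of_ne (by omega) fun hh => hj ?_)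
            have : j = ⟨i, hi⟩ := Fin.ext hh
            rwa [this]
        rw [h1]
        refine ih.trans (Nat.mul_le_mul_right _ ?_)
        exact Nat.pow_le_pow_right (by omega) (by omega)
      · have h1 : Fs G x S (i + 1) = Fs G x S i \ nb G (x ⟨i, hi⟩) (Fs G x S i) := by
          ext q
          simp only [Fs, mem_filter, mem_univ, true_and, mem_sdiff, mem_nb]
          constructor
          · rintro ⟨h1, h2⟩
            refine ⟨⟨h1, fun j hj hji => h2 j hj (by omega)⟩, ?_⟩
            rintro ⟨_, h3⟩
            exact h2 ⟨i, hi⟩ hiS (by simp) h3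
          · rintro ⟨⟨h1, h2⟩, h3⟩
            refine ⟨h1, fun j hj hji => ?_⟩
            by_cases hjj : (j : ℕ) < i
            · exact h2 j hj hjj
            · have : j = ⟨i, hi⟩ := Fin.ext (by simp; omega)
              rw [this]
              exact fun h => h3 ⟨⟨h1, h2⟩, h⟩
        have h2 : 2 * s ≤ (Fs G x S i).card := by
          have h3 : (2 * s) ^ i * (2 * s) ≤ (2 * s) ^ i * (Fs G x S i).card := by
            calc (2 * s) ^ i * (2 * s) = (2 * s) ^ (i + 1) := by ring
              _ ≤ (2 * s) ^ (t + 1) := Nat.pow_le_pow_right (by omega) (by omega)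
              _ ≤ _ := hc
              _ ≤ _ := ih
          exact Nat.le_of_mul_le_mul_left h3 (by positivity)
        have h3 : (Fs G x S i).card ≤ 2 * s * (Fs G x S (i + 1)).card := by
          by_contra hcon
          push Not at hcon
          refine hx ⟨S, ⟨i, hi⟩, hiS, h2, ?_⟩
          rw [← h1]
          exact hcon
        calc (cn G x).card ≤ (2 * s) ^ i * (Fs G x S i).card := ih
          _ ≤ (2 * s) ^ i * (2 * s * (Fs G x S (i + 1)).card) := Nat.mul_le_mul_left _ h3
          _ = _ := by ring
  exact key t le_rfl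

/-- independence of a tuple -/
def Ind (G : SimpleGraph V) {t : ℕ} (x : Fin t → V) : Prop :=
  ∀ i j, i ≠ j → x i ≠ x j ∧ ¬ G.Adj (x i) (x j)

/-- the threshold -/
def Rth (s t h : ℕ) : ℕ := (2 * s) ^ t * ((h + 1) * (4 * s) ^ (h + 1) + t + 2 * s)

lemma emb [Fintype V] (G : SimpleGraph V) (s : ℕ) (hs : 1 ≤ s) (hG : NoBic G s)
    {W : Type*} [Fintype W] (H : SimpleGraph W) (c : W → Bool) (hc : ∀ u v, H.Adj u v → c u ≠ c v)
    {t h : ℕ} (e : {w // c w = true} ≃ Fin t) (hh : Fintype.card {w // c w = false} = h)
    (x : Fin t → V) (hx : ¬ Bad G s x) (hI : Ind G x)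
    (hR : Rth s t h ≤ (cn G x).card) : Nonempty (H ↪g G) := by
  have hR1 : (2 * s) ^ (t + 1) ≤ (cn G x).card := by
    refine le_trans ?_ hR
    unfold Rth
    rw [pow_succ]
    exact Nat.mul_le_mul_left _ (by omega)
  have hFs : ∀ S : Finset (Fin t), (h + 1) * (4 * s) ^ (h + 1) + t ≤ (Fs G x S t).card := by
    intro S
    have h1 := not_bad_card G s hs x hx hR1 S
    have h2 : (2 * s) ^ t * ((h + 1) * (4 * s) ^ (h + 1) + t + 2 * s) ≤
      (2 * s) ^ t * (Fs G x S t).card := hR.trans h1
    have h3 := Nat.le_of_mul_le_mul_left h2 (by positivity)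
    omega
  have hcn : (cn G x).Nonempty := by
    rw [← Finset.card_pos]
    exact lt_of_lt_of_le (by positivity) hR1
  have : Nonempty V := ⟨hcn.choose⟩
  set Z : {w // c w = false} → Finset V := fun w =>
    Fs G x (univ.filter (fun i => H.Adj (e.symm i).1 w.1)) t \ (univ : Finset (Fin t)).image x
    with hZ
  have hZc : ∀ j ∈ (univ : Finset {w // c w = false}),
      ((univ : Finset {w // c w = false}).card + 1) * (4 * s) ^
        ((univ : Finset {w // c w = false}).card + 1) ≤ (Z j).card := by
    intro w _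
    rw [Finset.card_univ, hh]
    have h1 := hFs (univ.filter (fun i => H.Adj (e.symm i).1 w.1))
    have h2 : ((univ : Finset (Fin t)).image x).card ≤ t := by
      refine Finset.card_image_le.trans ?_
      simp
    have h3 := Finset.le_card_sdiff ((univ : Finset (Fin t)).image x)
      (Fs G x (univ.filter (fun i => H.Adj (e.symm i).1 w.1)) t)
    simp only [hZ]
    omega
  obtain ⟨q, hq1, hq2⟩ := greedy G s hs hG (univ : Finset {w // c w = false}) Z hZc
  have hq1' : ∀ w : {w // c w = false}, (∀ i, G.Adj (x i) (q w) ↔ H.Adj (e.symm i).1 w.1) ∧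
      ∀ i, x i ≠ q w := by
    intro w
    have h1 := hq1 w (mem_univ _)
    simp only [hZ, mem_sdiff, mem_image, mem_univ, true_and, not_exists, Fs, mem_filter] at h1
    refine ⟨fun i => ⟨fun h => ?_, fun h => h1.1.1 i h⟩, fun i => h1.2 i⟩
    by_contra hcon
    exact h1.1.2 i hcon i.2 h
  set φ : W → V := fun w => if h : c w = true then x (e ⟨w, h⟩) else
    q ⟨w, by simpa using h⟩ with hφ
  have hφt : ∀ w (h : c w = true), φ w = x (e ⟨w, h⟩) := by
    intro w h
    simp only [hφ, h, dif_pos]
  have hφf : ∀ w (h : c w = false), φ w = q ⟨w, h⟩ := by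
    intro w h
    have : ¬ (c w = true) := by simp [h]
    show (if h : c w = true then x (e ⟨w, h⟩) else q ⟨w, by simpa using h⟩) = q ⟨w, h⟩
    rw [dif_neg this]
  have hinj : Function.Injective φ := by
    intro u v huv
    rcases hu : c u with _ | _ <;> rcases hv : c v with _ | _
    · rw [hφf u hu, hφf v hv] at huv
      by_contra hne
      exact (hq2 ⟨u, hu⟩ (mem_univ _) ⟨v, hv⟩ (mem_univ _) (by simpa using hne)).1 huv
    · rw [hφf u hu, hφt v hv] at huv
      exact absurd huv.symm ((hq1' ⟨u, hu⟩).2 _)
    · rw [hφt u hu, hφf v hv] at huv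
      exact absurd huv ((hq1' ⟨v, hv⟩).2 _)
    · rw [hφt u hu, hφt v hv] at huv
      by_contra hne
      refine (hI (e ⟨u, hu⟩) (e ⟨v, hv⟩) ?_).1 huv
      intro h
      have := e.injective h
      simp at this
      exact hne this
  refine ⟨⟨⟨φ, hinj⟩, ?_⟩⟩
  intro u v
  simp only [Function.Embedding.coeFn_mk]
  rcases hu : c u with _ | _ <;> rcases hv : c v with _ | _
  · rw [hφf u hu, hφf v hv]
    constructor
    · intro h
      by_cases huv : u = v
      · subst huv; exact absurd h (G.loopless.irrefl _)
      · exact absurd h (hq2 ⟨u, hu⟩ (mem_univ _) ⟨v, hv⟩ (mem_univ _) (by simpa using huv)).2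
    · intro h
      exact absurd (hu.trans hv.symm) (hc u v h)
  · rw [hφf u hu, hφt v hv, G.adj_comm, (hq1' ⟨u, hu⟩).1, Equiv.symm_apply_apply, H.adj_comm]
  · rw [hφt u hu, hφf v hv, (hq1' ⟨v, hv⟩).1, Equiv.symm_apply_apply]
  · rw [hφt u hu, hφt v hv]
    constructor
    · intro h
      by_cases huv : u = v
      · subst huv; exact absurd h (G.loopless.irrefl _)
      · refine absurd h (hI (e ⟨u, hu⟩) (e ⟨v, hv⟩) ?_).2
        intro h
        have := e.injective h
        simp at this
        exact huv this
    · intro h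
      exact absurd (hu.trans hv.symm) (hc u v h)

/-- hypothesis bundle: there are few independent rich tuples -/
def Few [Fintype V] (G : SimpleGraph V) (s t R : ℕ) : Prop :=
  ∀ X : Finset V, X.card * ((tup t X).filter (fun x => Ind G x ∧ R ≤ (cn G x).card)).card ≤
    2 ^ t * t * s * X.card ^ t

lemma few_of_free [Fintype V] (G : SimpleGraph V) (s : ℕ) (hs : 1 ≤ s) (hG : NoBic G s)
    {W : Type*} [Fintype W] (H : SimpleGraph W) (c : W → Bool) (hc : ∀ u v, H.Adj u v → c u ≠ c v)
    {t h : ℕ} (ht : Fintype.card {w // c w = true} = t) (hh : Fintype.card {w // c w = false} = h)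
    (hfree : ¬ Nonempty (H ↪g G)) : Few G s t (Rth s t h) := by
  intro X
  refine le_trans (Nat.mul_le_mul_left _ (Finset.card_le_card ?_)) (card_bad G s hs hG X)
  intro x hx
  rw [mem_filter] at hx ⊢
  refine ⟨hx.1, ?_⟩
  by_contra hcon
  exact hfree (emb G s hs hG H c hc (Fintype.equivFinOfCardEq ht) hh x hcon hx.2.1 hx.2.2)

end MP4d84d8
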