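import Mathlib
import Pool.Agent.Lib.MP_4d84d8_co.Tuples

set_option autoImplicit false

open Finset
open scoped Classical

namespace MP4d84d8

variable {V : Type*}

lemma ind_cons (G : SimpleGraph V) {j : ℕ} (a : V) (y : Fin j → V) (hy : Ind G y)
    (h : ∀ i, y i ≠ a ∧ ¬ G.Adj a (y i)) : Ind G (Fin.cons a y : Fin (j + 1) → V) := by
  intro i
  refine Fin.cases ?_ ?_ i
  · intro i'
    refine Fin.cases ?_ ?_ i'
    · intro h; exact absurd rfl h
    · intro i' _
      simp only [Fin.cons_zero, Fin.cons_succ]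
      exact ⟨(h i').1.symm, (h i').2⟩
  · intro i i'
    refine Fin.cases ?_ ?_ i'
    · intro _
      simp only [Fin.cons_zero, Fin.cons_succ]
      exact ⟨(h i).1, fun hh => (h i).2 hh.symm⟩
    · intro i' hne
      simp only [Fin.cons_succ]
      exact hy i i' (fun hh => hne (by rw [hh]))

lemma ind_count [Fintype V] (G : SimpleGraph V) (s : ℕ) (hs : 1 ≤ s) (hG : NoBic G s) (j : ℕ) :
    ∀ Z : Finset V, (4 * s) ^ (j + 1) ≤ Z.card →
      Z.card ^ j ≤ (4 * s) ^ (j ^ 2) * ((tup j Z).filter (Ind G)).card := by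
  induction j with
  | zero =>
    intro Z _
    have : (tup 0 Z).filter (Ind G) = tup 0 Z := by
      rw [Finset.filter_eq_self]
      intro x _ i
      exact i.elim0
    rw [this, card_tup]
    simp
  | succ j ih =>
    intro Z hZ
    have h4s : 4 ≤ 4 * s := by omega
    have hZ1 : 4 * s ≤ Z.card := by
      refine le_trans ?_ hZ
      calc 4 * s = (4 * s) ^ 1 := by ring
        _ ≤ _ := Nat.pow_le_pow_right (by omega) (by omega)
    set Bd : Finset V := univ.filter (fun v => 2 * s * (Z \ nb G v Z).card < Z.card) with hBd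
    have hBdc : Bd.card ≤ s := (star G s hs hG Z (by omega)).le
    have hgood : Z.card ≤ 2 * (Z \ Bd).card := by
      have := Finset.le_card_sdiff Bd Z
      omega
    have hfib : ∀ a ∈ Z \ Bd, Z.card ^ j ≤ (4 * s) ^ (j ^ 2 + j) *
        (((tup (j + 1) Z).filter (Ind G)).filter (fun x => x 0 = a)).card := by
      intro a ha
      rw [mem_sdiff, hBd, mem_filter] at ha
      obtain ⟨haZ, ha2⟩ := ha
      have ha3 : Z.card ≤ 2 * s * (Z \ nb G a Z).card := by
        by_contra h
        exact ha2 ⟨mem_univ _, by omega⟩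
      set Z' := (Z \ nb G a Z).erase a with hZ'
      have h1 : (Z \ nb G a Z).card ≤ Z'.card + 1 := by
        have := Finset.pred_card_le_card_erase (s := Z \ nb G a Z) (a := a)
        simp only [hZ']
        omega
      have h2 : Z.card ≤ 4 * s * Z'.card := by
        have h3 : Z.card ≤ 2 * s * (Z'.card + 1) := ha3.trans (Nat.mul_le_mul_left _ h1)
        have h4 : 2 * s * (Z'.card + 1) = 2 * s * Z'.card + 2 * s := by ring
        have h5 : 4 * s * Z'.card = 2 * s * Z'.card + 2 * s * Z'.card := by ring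
        have h6 : 2 * s ≤ 2 * s * Z'.card := by
          by_contra hcon
          have : Z'.card = 0 := by
            by_contra h0
            have : 1 ≤ Z'.card := Nat.one_le_iff_ne_zero.mpr h0
            nlinarith
          rw [this] at h3
          omega
        omega
      have h3 : (4 * s) ^ (j + 1) ≤ Z'.card := by
        have : 4 * s * (4 * s) ^ (j + 1) ≤ 4 * s * Z'.card := by
          calc 4 * s * (4 * s) ^ (j + 1) = (4 * s) ^ (j + 1 + 1) := by ring
            _ ≤ Z.card := hZ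
            _ ≤ _ := h2
        exact Nat.le_of_mul_le_mul_left this (by omega)
      have h4 := ih Z' h3
      have h5 : ((tup j Z').filter (Ind G)).card ≤
          (((tup (j + 1) Z).filter (Ind G)).filter (fun x => x 0 = a)).card := by
        refine Finset.card_le_card_of_injOn (fun y => (Fin.cons a y : Fin (j + 1) → V)) ?_ ?_
        · intro y hy
          rw [Finset.mem_coe, mem_filter, mem_tup] at hy
          rw [Finset.mem_coe, mem_filter, mem_filter, mem_tup]
          have hy' : ∀ i, y i ≠ a ∧ y i ∈ Z ∧ ¬ G.Adj a (y i) := by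
            intro i
            have := hy.1 i
            simp only [hZ', mem_erase, mem_sdiff, mem_nb, not_and] at this
            exact ⟨this.1, this.2.1, this.2.2 this.2.1⟩
          refine ⟨⟨?_, ind_cons G a y hy.2 fun i => ⟨(hy' i).1, (hy' i).2.2⟩⟩, by simp⟩
          intro i
          refine Fin.cases ?_ ?_ i
          · simpa using haZ
          · intro i; simpa using (hy' i).2.1
        · intro y _ y' _ h
          exact (Fin.cons_right_injective (α := fun _ => V) a) h
      calc Z.card ^ j ≤ (4 * s * Z'.card) ^ j := Nat.pow_le_pow_left h2 j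
        _ = (4 * s) ^ j * Z'.card ^ j := by rw [mul_pow]
        _ ≤ (4 * s) ^ j * ((4 * s) ^ (j ^ 2) * ((tup j Z').filter (Ind G)).card) :=
            Nat.mul_le_mul_left _ h4
        _ ≤ (4 * s) ^ j * ((4 * s) ^ (j ^ 2) *
            (((tup (j + 1) Z).filter (Ind G)).filter (fun x => x 0 = a)).card) :=
            Nat.mul_le_mul_left _ (Nat.mul_le_mul_left _ h5)
        _ = _ := by rw [pow_add]; ring
    have hsum : ∑ a ∈ Z \ Bd, (((tup (j + 1) Z).filter (Ind G)).filter (fun x => x 0 = a)).card ≤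
        ((tup (j + 1) Z).filter (Ind G)).card := by
      rw [Finset.card_eq_sum_card_fiberwise (f := fun x : Fin (j + 1) → V => x 0) (t := Z)]
      · exact Finset.sum_le_sum_of_subset Finset.sdiff_subset
      · intro x hx
        rw [Finset.mem_coe, mem_filter, mem_tup] at hx
        exact hx.1 0
    calc Z.card ^ (j + 1) = Z.card * Z.card ^ j := by ring
      _ ≤ (2 * (Z \ Bd).card) * Z.card ^ j := Nat.mul_le_mul_right _ hgood
      _ = 2 * ∑ a ∈ Z \ Bd, Z.card ^ j := by rw [Finset.sum_const, smul_eq_mul]; ring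
      _ ≤ 2 * ∑ a ∈ Z \ Bd, (4 * s) ^ (j ^ 2 + j) *
        (((tup (j + 1) Z).filter (Ind G)).filter (fun x => x 0 = a)).card :=
          Nat.mul_le_mul_left _ (Finset.sum_le_sum hfib)
      _ = 2 * ((4 * s) ^ (j ^ 2 + j) * ∑ a ∈ Z \ Bd,
        (((tup (j + 1) Z).filter (Ind G)).filter (fun x => x 0 = a)).card) := by
          rw [← Finset.mul_sum]
      _ ≤ (4 * s) * ((4 * s) ^ (j ^ 2 + j) * ((tup (j + 1) Z).filter (Ind G)).card) :=
          Nat.mul_le_mul (by omega) (Nat.mul_le_mul_left _ hsum)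
      _ = (4 * s) ^ (j ^ 2 + j + 1) * ((tup (j + 1) Z).filter (Ind G)).card := by ring
      _ ≤ (4 * s) ^ ((j + 1) ^ 2) * ((tup (j + 1) Z).filter (Ind G)).card := by
          refine Nat.mul_le_mul_right _ (Nat.pow_le_pow_right (by omega) ?_)
          nlinarith

/-- threshold -/
def T0 (s t : ℕ) : ℕ := 2 ^ (t + 1) * t * s * (4 * s) ^ (t ^ 2 + t + 1)

/-- the constant in the induced KST theorem -/
def Lam (s t R : ℕ) : ℕ := (2 * T0 s t ^ t) * (4 * (4 * s) ^ (t ^ 2) * R)

/-- nonrich tuples, double counted -/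
lemma nonrich_sum [Fintype V] (G : SimpleGraph V) (t R : ℕ) (U : Finset V) :
    ∑ v ∈ U, ((tup t (nb G v U)).filter (fun x => (cn G x).card < R)).card ≤ R * U.card ^ t := by
  have h1 : ∀ v ∈ U, ((tup t (nb G v U)).filter (fun x => (cn G x).card < R)).card =
      ∑ x ∈ (tup t U).filter (fun x => (cn G x).card < R), if (v ∈ cn G x) then 1 else 0 := by
    intro v _
    rw [← Finset.card_filter]
    congr 1
    ext x
    simp only [mem_filter, mem_tup, mem_nb, cn, mem_univ, true_and]
    constructor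
    · rintro ⟨h1, h2⟩
      exact ⟨⟨fun i => (h1 i).1, h2⟩, fun i => (h1 i).2.symm⟩
    · rintro ⟨⟨h1, h2⟩, h3⟩
      exact ⟨fun i => ⟨h1 i, (h3 i).symm⟩, h2⟩
  rw [Finset.sum_congr rfl h1, Finset.sum_comm]
  calc ∑ x ∈ (tup t U).filter (fun x => (cn G x).card < R), ∑ v ∈ U, (if v ∈ cn G x then 1 else 0)
      ≤ ∑ x ∈ (tup t U).filter (fun x => (cn G x).card < R), R := by
        refine Finset.sum_le_sum fun x hx => ?_
        rw [mem_filter] at hx
        rw [← Finset.card_filter]
        refine le_trans (Finset.card_le_card ?_) hx.2.le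
        intro v hv
        rw [mem_filter] at hv
        exact hv.2
    _ ≤ ∑ x ∈ tup t U, R := Finset.sum_le_sum_of_subset (Finset.filter_subset _ _)
    _ = R * U.card ^ t := by rw [Finset.sum_const, smul_eq_mul, card_tup, mul_comm]

lemma ls [Fintype V] (G : SimpleGraph V) (s : ℕ) (hs : 1 ≤ s) (hG : NoBic G s) (t R : ℕ)
    (ht : 1 ≤ t) (hR : 1 ≤ R) (hF : Few G s t R) (U : Finset V) :
    (ee G U U) ^ t ≤ Lam s t R * U.card ^ (2 * t - 1) := by
  by_contra hcon
  push Not at hcon
  obtain ⟨m, rfl⟩ : ∃ m, t = m + 1 := ⟨t - 1, by omega⟩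
  set n := U.card with hn
  set Λ₁ : ℕ := 2 * (4 * s) ^ ((m + 1) ^ 2) with hΛ₁
  have hT0 : 1 ≤ T0 s (m + 1) := Nat.one_le_iff_ne_zero.mpr (by unfold T0; positivity)
  have hn0 : 0 < n := by
    rcases Nat.eq_zero_or_pos n with h | h
    · exfalso
      rw [hn, Finset.card_eq_zero] at h
      rw [h] at hcon
      simp [ee] at hcon
    · exact h
  have hpm : (ee G U U) ^ (m + 1) ≤ n ^ m * ∑ v ∈ U, (nb G v U).card ^ (m + 1) :=
    pow_sum_le_card_mul_sum_pow (fun _ _ => Nat.zero_le _) m
  have h1 : Lam s (m + 1) R * n ^ (m + 1) < ∑ v ∈ U, (nb G v U).card ^ (m + 1) := by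
    have h2 : n ^ m * (Lam s (m + 1) R * n ^ (m + 1)) <
        n ^ m * ∑ v ∈ U, (nb G v U).card ^ (m + 1) := by
      refine lt_of_eq_of_lt ?_ (hcon.trans_le hpm)
      have : 2 * (m + 1) - 1 = m + (m + 1) := by omega
      rw [this, pow_add]
      ring
    exact lt_of_mul_lt_mul_left h2 (Nat.zero_le _)
  have h2 : ∃ v ∈ U, Λ₁ * ((tup (m + 1) (nb G v U)).filter (fun x => (cn G x).card < R)).card +
      T0 s (m + 1) ^ (m + 1) < (nb G v U).card ^ (m + 1) := by
    by_contra hno
    push Not at hno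
    have h3 : ∑ v ∈ U, (nb G v U).card ^ (m + 1) ≤ Λ₁ * (R * n ^ (m + 1)) +
        n * T0 s (m + 1) ^ (m + 1) := by
      calc ∑ v ∈ U, (nb G v U).card ^ (m + 1) ≤ ∑ v ∈ U, (Λ₁ *
            ((tup (m + 1) (nb G v U)).filter (fun x => (cn G x).card < R)).card +
            T0 s (m + 1) ^ (m + 1)) := Finset.sum_le_sum hno
        _ = Λ₁ * ∑ v ∈ U, ((tup (m + 1) (nb G v U)).filter (fun x => (cn G x).card < R)).card +
            n * T0 s (m + 1) ^ (m + 1) := by
            rw [Finset.sum_add_distrib, ← Finset.mul_sum, Finset.sum_const, smul_eq_mul]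
        _ ≤ _ := by
            have := nonrich_sum G (m + 1) R U
            gcongr
    have h4 : n ≤ n ^ (m + 1) := Nat.le_self_pow (by omega) n
    have h5 : Λ₁ * (R * n ^ (m + 1)) + n * T0 s (m + 1) ^ (m + 1) ≤
        Lam s (m + 1) R * n ^ (m + 1) := by
      calc Λ₁ * (R * n ^ (m + 1)) + n * T0 s (m + 1) ^ (m + 1) ≤
          Λ₁ * (R * n ^ (m + 1)) + n ^ (m + 1) * T0 s (m + 1) ^ (m + 1) := by gcongr
        _ = (Λ₁ * R + T0 s (m + 1) ^ (m + 1)) * n ^ (m + 1) := by ring
        _ ≤ Lam s (m + 1) R * n ^ (m + 1) := by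
            refine Nat.mul_le_mul_right _ ?_
            have ha : 1 ≤ Λ₁ * R := Nat.one_le_iff_ne_zero.mpr (by positivity)
            have hb : 1 ≤ T0 s (m + 1) ^ (m + 1) := Nat.one_le_pow _ _ hT0
            have : Lam s (m + 1) R = 4 * (T0 s (m + 1) ^ (m + 1)) * (Λ₁ * R) := by
              rw [Lam, hΛ₁]; ring
            rw [this]
            nlinarith
    omega
  obtain ⟨v, _, hv⟩ := h2
  set X := nb G v U with hX
  have hXT : T0 s (m + 1) < X.card := by
    by_contra hcon2
    push Not at hcon2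
    have := Nat.pow_le_pow_left hcon2 (m + 1)
    omega
  have h4s : (4 * s) ^ (m + 1 + 1) ≤ X.card := by
    refine le_trans ?_ hXT.le
    unfold T0
    calc (4 * s) ^ (m + 1 + 1) ≤ 1 * (4 * s) ^ ((m + 1) ^ 2 + (m + 1) + 1) := by
          rw [one_mul]
          exact Nat.pow_le_pow_right (by omega) (by nlinarith)
      _ ≤ _ := Nat.mul_le_mul_right _ (Nat.one_le_iff_ne_zero.mpr (by positivity))
  have hind := ind_count G s hs hG (m + 1) X h4s
  set IR := ((tup (m + 1) X).filter (fun x => Ind G x ∧ R ≤ (cn G x).card)).card with hIR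
  set NR := ((tup (m + 1) X).filter (fun x => (cn G x).card < R)).card with hNR
  have h3 : ((tup (m + 1) X).filter (Ind G)).card ≤ IR + NR := by
    rw [hIR, hNR]
    refine (Finset.card_le_card ?_).trans (Finset.card_union_le _ _)
    intro x hx
    rw [mem_filter] at hx
    rw [mem_union, mem_filter, mem_filter]
    by_cases h : R ≤ (cn G x).card
    · exact Or.inl ⟨hx.1, hx.2, h⟩
    · exact Or.inr ⟨hx.1, by omega⟩
  have h4 : X.card ^ (m + 1) ≤ Λ₁ * IR := by
    have h5 : 2 * X.card ^ (m + 1) ≤ Λ₁ * IR + Λ₁ * NR := by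
      calc 2 * X.card ^ (m + 1) ≤ 2 * ((4 * s) ^ ((m + 1) ^ 2) *
            ((tup (m + 1) X).filter (Ind G)).card) := Nat.mul_le_mul_left _ hind
        _ = Λ₁ * ((tup (m + 1) X).filter (Ind G)).card := by rw [hΛ₁]; ring
        _ ≤ Λ₁ * (IR + NR) := Nat.mul_le_mul_left _ h3
        _ = _ := by ring
    omega
  have h5 := hF X
  rw [← hIR] at h5
  have hXpos : 0 < X.card ^ (m + 1) := by
    have : 0 < X.card := by omega
    positivity
  have h6 : X.card * X.card ^ (m + 1) ≤ (Λ₁ * (2 ^ (m + 1) * (m + 1) * s)) * X.card ^ (m + 1) := by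
    calc X.card * X.card ^ (m + 1) ≤ X.card * (Λ₁ * IR) := Nat.mul_le_mul_left _ h4
      _ = Λ₁ * (X.card * IR) := by ring
      _ ≤ Λ₁ * (2 ^ (m + 1) * (m + 1) * s * X.card ^ (m + 1)) := Nat.mul_le_mul_left _ h5
      _ = _ := by ring
  have h7 : X.card ≤ Λ₁ * (2 ^ (m + 1) * (m + 1) * s) := Nat.le_of_mul_le_mul_right h6 hXpos
  have h8 : Λ₁ * (2 ^ (m + 1) * (m + 1) * s) ≤ T0 s (m + 1) := by
    unfold T0
    calc Λ₁ * (2 ^ (m + 1) * (m + 1) * s) = 2 ^ (m + 1 + 1) * (m + 1) * s *
          (4 * s) ^ ((m + 1) ^ 2) := by rw [hΛ₁]; ring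
      _ ≤ _ := Nat.mul_le_mul_left _ (Nat.pow_le_pow_right (by omega) (by omega))
  omega

end MP4d84d8
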