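import Mathlib
import Pool.Agent.Lib.MP_4d84d8_co.LS

set_option autoImplicit false

open Finset
open scoped Classical

namespace MP4d84d8

variable {V : Type*}

/-- weight of a set in the product measure -/
noncomputable def wt [Fintype V] (π : V → ℝ) (S : Finset V) : ℝ :=
  (∏ v ∈ S, π v) * ∏ v ∈ univ \ S, (1 - π v)

/-- expectation -/
noncomputable def EE [Fintype V] (π : V → ℝ) (F : Finset V → ℝ) : ℝ := ∑ S : Finset V, wt π S * F S

lemma wt_nonneg [Fintype V] (π : V → ℝ) (h0 : ∀ v, 0 ≤ π v) (h1 : ∀ v, π v ≤ 1) (S : Finset V) :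
    0 ≤ wt π S :=
  mul_nonneg (Finset.prod_nonneg fun v _ => h0 v)
    (Finset.prod_nonneg fun v _ => sub_nonneg.mpr (h1 v))

lemma EE_ind2 [Fintype V] (π : V → ℝ) (T Y : Finset V) (h : Disjoint T Y) :
    EE π (fun S => if T ⊆ S ∧ Disjoint Y S then 1 else 0) =
      (∏ v ∈ T, π v) * ∏ v ∈ Y, (1 - π v) := by
  have h1 := Finset.prod_add (fun v => if v ∈ Y then 0 else π v)
    (fun v => if v ∈ T then 0 else 1 - π v) (univ : Finset V)
  have h2 : ∏ v : V, ((if v ∈ Y then 0 else π v) + (if v ∈ T then 0 else 1 - π v)) =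
      (∏ v ∈ T, π v) * ∏ v ∈ Y, (1 - π v) := by
    have h3 : ∀ v : V, ((if v ∈ Y then 0 else π v) + (if v ∈ T then 0 else 1 - π v)) =
        (if v ∈ T then π v else 1) * (if v ∈ Y then 1 - π v else 1) := by
      intro v
      by_cases hT : v ∈ T
      · have hY : v ∉ Y := Finset.disjoint_left.mp h hT
        simp [hT, hY]
      · by_cases hY : v ∈ Y
        · simp [hT, hY]
        · simp [hT, hY]
    simp_rw [h3]
    rw [Finset.prod_mul_distrib]
    congr 1
    · rw [Finset.prod_ite_mem, Finset.univ_inter]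
    · rw [Finset.prod_ite_mem, Finset.univ_inter]
  rw [h2] at h1
  rw [h1, Finset.powerset_univ]
  unfold EE wt
  refine Finset.sum_congr rfl fun S _ => ?_
  beta_reduce
  by_cases hS : T ⊆ S ∧ Disjoint Y S
  · rw [if_pos hS, mul_one]
    congr 1
    · refine Finset.prod_congr rfl fun v hv => ?_
      rw [if_neg (fun hY => Finset.disjoint_left.mp hS.2 hY hv)]
    · refine Finset.prod_congr rfl fun v hv => ?_
      rw [mem_sdiff] at hv
      rw [if_neg (fun hT => hv.2 (hS.1 hT))]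
  · rw [if_neg hS, mul_zero]
    rw [not_and_or] at hS
    rcases hS with hS | hS
    · rw [Finset.not_subset] at hS
      obtain ⟨v, hvT, hvS⟩ := hS
      rw [Finset.prod_eq_zero (i := v) (s := univ \ S) (by simp [hvS]) (by simp [hvT]), mul_zero]
    · rw [Finset.not_disjoint_iff] at hS
      obtain ⟨v, hvY, hvS⟩ := hS
      rw [Finset.prod_eq_zero (i := v) (s := S) hvS (by simp [hvY]), zero_mul]

lemma EE_ind [Fintype V] (π : V → ℝ) (T : Finset V) :
    EE π (fun S => if T ⊆ S then 1 else 0) = ∏ v ∈ T, π v := by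
  have := EE_ind2 π T ∅ (by simp)
  simpa using this

lemma EE_sum [Fintype V] (π : V → ℝ) {ι : Type*} (I : Finset ι) (F : ι → Finset V → ℝ) :
    EE π (fun S => ∑ i ∈ I, F i S) = ∑ i ∈ I, EE π (F i) := by
  unfold EE
  simp_rw [Finset.mul_sum]
  rw [Finset.sum_comm]

lemma EE_sub [Fintype V] (π : V → ℝ) (F F' : Finset V → ℝ) :
    EE π (fun S => F S - F' S) = EE π F - EE π F' := by
  unfold EE
  rw [← Finset.sum_sub_distrib]
  refine Finset.sum_congr rfl fun S _ => by ring

lemma EE_mul [Fintype V] (π : V → ℝ) (c : ℝ) (F : Finset V → ℝ) :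
    EE π (fun S => c * F S) = c * EE π F := by
  unfold EE
  rw [Finset.mul_sum]
  refine Finset.sum_congr rfl fun S _ => by ring

lemma exists_of_EE_pos [Fintype V] (π : V → ℝ) (h0 : ∀ v, 0 ≤ π v) (h1 : ∀ v, π v ≤ 1)
    (F : Finset V → ℝ) (h : 0 < EE π F) : ∃ S, 0 < F S := by
  by_contra hcon
  push Not at hcon
  have : EE π F ≤ 0 := by
    unfold EE
    exact Finset.sum_nonpos fun S _ => mul_nonpos_of_nonneg_of_nonpos (wt_nonneg π h0 h1 S) (hcon S)
  linarith

lemma EE_one [Fintype V] (π : V → ℝ) : EE π (fun _ => 1) = 1 := by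
  have := EE_ind π ∅
  simpa using this

/-- there is a set where `F` is at least its mean -/
lemma exists_ge_EE [Fintype V] (π : V → ℝ) (h0 : ∀ v, 0 ≤ π v) (h1 : ∀ v, π v ≤ 1)
    (F : Finset V → ℝ) : ∃ S, EE π F ≤ F S := by
  by_contra hcon
  push Not at hcon
  have h2 : EE π (fun S => EE π F - F S) = 0 := by
    rw [EE_sub]
    have : EE π (fun _ => EE π F) = EE π F * EE π (fun _ => 1) := by
      rw [← EE_mul]; simp
    rw [this, EE_one]; ring
  have h3 : ∀ S, wt π S = 0 := by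
    intro S
    have h4 : ∀ S ∈ (univ : Finset (Finset V)), 0 ≤ wt π S * (EE π F - F S) := fun S _ =>
      mul_nonneg (wt_nonneg π h0 h1 S) (by linarith [hcon S])
    have h5 := (Finset.sum_eq_zero_iff_of_nonneg h4).mp h2 S (mem_univ _)
    rcases mul_eq_zero.mp h5 with h | h
    · exact h
    · linarith [hcon S]
  have h4 : EE π (fun _ => 1) = 0 := by
    unfold EE
    simp [h3]
  rw [EE_one] at h4
  exact one_ne_zero h4

lemma sum_insert_le [Fintype V] (π : V → ℝ) (h0 : ∀ v, 0 ≤ π v) (C Y : Finset V) :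
    ∑ u ∈ Y, ∏ v ∈ insert u C, π v ≤ (∏ v ∈ C, π v) * (C.card + ∑ u ∈ Y, π u) := by
  have hC : 0 ≤ ∏ v ∈ C, π v := Finset.prod_nonneg fun v _ => h0 v
  have h1 : ∀ u ∈ Y, ∏ v ∈ insert u C, π v ≤
      (∏ v ∈ C, π v) * ((if u ∈ C then 1 else 0) + π u) := by
    intro u _
    by_cases h : u ∈ C
    · rw [Finset.insert_eq_of_mem h, if_pos h]
      nlinarith [h0 u, mul_nonneg hC (h0 u)]
    · rw [Finset.prod_insert h, if_neg h, zero_add, mul_comm]
  calc ∑ u ∈ Y, ∏ v ∈ insert u C, π v ≤ ∑ u ∈ Y, (∏ v ∈ C, π v) * ((if u ∈ C then 1 else 0) + π u) :=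
        Finset.sum_le_sum h1
    _ = (∏ v ∈ C, π v) * (∑ u ∈ Y, (if u ∈ C then 1 else 0) + ∑ u ∈ Y, π u) := by
        rw [← Finset.mul_sum, Finset.sum_add_distrib]
    _ ≤ _ := by
        refine mul_le_mul_of_nonneg_left ?_ hC
        refine add_le_add_left ?_ _
        rw [← Finset.sum_filter, Finset.sum_const, nsmul_eq_mul, mul_one]
        exact_mod_cast Finset.card_le_card (fun v hv => (mem_filter.mp hv).2)

end MP4d84d8
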