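import Mathlib
import Pool.Agent.Lib.MP_4d84d8_co.Sampling

set_option autoImplicit false

open Finset
open scoped Classical

namespace MP4d84d8

variable {V : Type*}

/-- no 4-cycle inside `W` -/
def C4free (G : SimpleGraph V) (W : Finset V) : Prop :=
  ∀ w ∈ W, ∀ x ∈ W, ∀ y ∈ W, ∀ z ∈ W, w ≠ y → x ≠ z →
    ¬ (G.Adj w x ∧ G.Adj x y ∧ G.Adj y z ∧ G.Adj z w)

/-- the second alternative of the theorem -/
def Good (G : SimpleGraph V) (s : ℕ) : Prop :=
  ∃ W : Finset V, W.Nonempty ∧ C4free G W ∧ s * W.card ≤ ee G W W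

lemma ee_split (G : SimpleGraph V) (A B D : Finset V) :
    ee G A B = ee G (A \ D) B + ee G (A ∩ D) B := by
  unfold ee
  rw [← Finset.sum_union (Finset.disjoint_left.mpr fun a h1 h2 => by
    rw [mem_sdiff] at h1; rw [mem_inter] at h2; exact h1.2 h2.2)]
  congr 1
  ext a
  simp only [mem_union, mem_sdiff, mem_inter]
  tauto

lemma ee_mono (G : SimpleGraph V) {A A' B B' : Finset V} (hA : A ⊆ A') (hB : B ⊆ B') :
    ee G A B ≤ ee G A' B' := by
  unfold ee
  exact (Finset.sum_le_sum fun a _ => Finset.card_le_card (nb_mono G a hB)).trans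
    (Finset.sum_le_sum_of_subset hA)

lemma two_ee_le (G : SimpleGraph V) {A B W : Finset V} (hAB : Disjoint A B) (hA : A ⊆ W)
    (hB : B ⊆ W) : 2 * ee G A B ≤ ee G W W := by
  have h1 : ee G A B + ee G B A ≤ ee G (A ∪ B) W := by
    unfold ee
    rw [Finset.sum_union hAB]
    exact add_le_add (Finset.sum_le_sum fun a _ => Finset.card_le_card (nb_mono G a hB))
      (Finset.sum_le_sum fun a _ => Finset.card_le_card (nb_mono G a hA))
  have h2 : ee G (A ∪ B) W ≤ ee G W W := ee_mono G (Finset.union_subset hA hB) le_rfl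
  rw [ee_comm G B A] at h1
  omega

/-- the heavy vertices lemma -/
lemma key_heavy (G : SimpleGraph V) (d θ : ℝ) (hθ : 1000 ≤ θ) (hd : θ ^ 36 ≤ d)
    (hLS : ∀ U : Finset V, (U.card : ℝ) ≤ θ ^ 2 * d → (ee G U U : ℝ) ≤ d ^ 2 / θ ^ 32)
    (U X : Finset V) (hX : (X.card : ℝ) ≤ 4 * θ * d) :
    (((U.filter (fun y => d / θ ^ 16 < (nb G y X).card)).card : ℕ) : ℝ) ≤ d / θ ^ 16 := by
  have hθ0 : 0 < θ := by linarith
  have hd1 : 1 ≤ d := le_trans (one_le_pow₀ (by linarith)) hd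
  by_contra hcon
  push Not at hcon
  set ZL := U.filter (fun y => d / θ ^ 16 < (nb G y X).card) with hZL
  set m : ℕ := ⌊d / θ ^ 16⌋₊ + 1 with hm
  have hτ0 : 0 < d / θ ^ 16 := by positivity
  have hm1 : d / θ ^ 16 < m := by
    rw [hm]; push_cast; exact Nat.lt_floor_add_one _
  have hm2 : (m : ℝ) ≤ d / θ ^ 16 + 1 := by
    rw [hm]; push_cast
    linarith [Nat.floor_le hτ0.le]
  have hm3 : m ≤ ZL.card := by
    rw [hm]
    exact (Nat.floor_lt hτ0.le).mpr hcon
  obtain ⟨Z', hZ', hZ'c⟩ := Finset.exists_subset_card_eq hm3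
  have hcard : ((X ∪ Z').card : ℝ) ≤ θ ^ 2 * d := by
    have h1 : ((X ∪ Z').card : ℝ) ≤ X.card + Z'.card := by exact_mod_cast Finset.card_union_le _ _
    have h2 : d / θ ^ 16 ≤ d := div_le_self (by linarith) (one_le_pow₀ (by linarith))
    rw [hZ'c] at h1
    nlinarith
  have h1 := hLS (X ∪ Z') hcard
  have h2 : (d / θ ^ 16) * m ≤ (ee G Z' X : ℝ) := by
    unfold ee
    rw [← hZ'c, mul_comm, ← nsmul_eq_mul, ← Finset.sum_const]
    push_cast
    refine Finset.sum_le_sum fun z hz => ?_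
    have := hZ' hz
    rw [hZL, mem_filter] at this
    exact this.2.le
  have h3 : (ee G Z' X : ℝ) ≤ ee G (X ∪ Z') (X ∪ Z') := by
    exact_mod_cast ee_mono G Finset.subset_union_right Finset.subset_union_left
  have h4 : (d / θ ^ 16) * (d / θ ^ 16) < (d / θ ^ 16) * m := mul_lt_mul_of_pos_left hm1 hτ0
  have h5 : (d / θ ^ 16) * (d / θ ^ 16) = d ^ 2 / θ ^ 32 := by
    field_simp
  linarith

/-- the second moment bound -/
lemma key_moment (G : SimpleGraph V) (d θ : ℝ) (hθ : 1000 ≤ θ) (hd : θ ^ 36 ≤ d)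
    (hLS : ∀ U : Finset V, (U.card : ℝ) ≤ θ ^ 2 * d → (ee G U U : ℝ) ≤ d ^ 2 / θ ^ 32)
    (U X : Finset V) (hXU : X ⊆ U) (hX : (X.card : ℝ) ≤ 4 * θ * d) (π : V → ℝ)
    (h0 : ∀ v, 0 ≤ π v) (hπ : ∀ v, π v ≤ 20 * θ ^ 3 / d)
    (hΔ : ∀ v ∈ U, ∑ u ∈ nb G v U, π u ≤ 200 * θ ^ 4) :
    ∑ y ∈ U, π y * ((nb G y X).card : ℝ) ^ 2 ≤ 1120 * d ^ 2 / θ ^ 11 := by
  have hθ0 : 0 < θ := by linarith
  have hd1 : 1 ≤ d := le_trans (one_le_pow₀ (by linarith)) hd
  have hd0 : 0 < d := by linarith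
  set τ := d / θ ^ 16 with hτ
  have hτ0 : 0 < τ := by positivity
  have hheavy := key_heavy G d θ hθ hd hLS U X hX
  have h1 : ∀ y ∈ U, π y * ((nb G y X).card : ℝ) ^ 2 ≤
      τ * (π y * (nb G y X).card) + (if τ < (nb G y X).card then (20 * θ ^ 3 / d) * (X.card : ℝ) ^ 2
        else 0) := by
    intro y _
    have hc : ((nb G y X).card : ℝ) ≤ X.card := by
      exact_mod_cast Finset.card_le_card (nb_subset G y X)
    have hc0 : (0 : ℝ) ≤ (nb G y X).card := Nat.cast_nonneg _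
    by_cases h : τ < (nb G y X).card
    · rw [if_pos h]
      have h2 : 0 ≤ τ * (π y * (nb G y X).card) := mul_nonneg hτ0.le (mul_nonneg (h0 y) hc0)
      have h3 : π y * ((nb G y X).card : ℝ) ^ 2 ≤ (20 * θ ^ 3 / d) * (X.card : ℝ) ^ 2 :=
        mul_le_mul (hπ y) (pow_le_pow_left₀ hc0 hc 2) (by positivity) (by positivity)
      linarith
    · rw [if_neg h, add_zero]
      push Not at h
      have : π y * ((nb G y X).card : ℝ) ^ 2 = (π y * (nb G y X).card) * (nb G y X).card := by ring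
      rw [this, mul_comm τ]
      exact mul_le_mul_of_nonneg_left h (mul_nonneg (h0 y) hc0)
  have h2 : ∑ y ∈ U, π y * (nb G y X).card ≤ X.card * (200 * θ ^ 4) := by
    have h3 : ∑ y ∈ U, π y * ((nb G y X).card : ℝ) = ∑ x ∈ X, ∑ y ∈ nb G x U, π y := by
      have h4 : ∀ y ∈ U, π y * ((nb G y X).card : ℝ) = ∑ x ∈ X, if G.Adj y x then π y else 0 := by
        intro y _
        rw [nb, ← Finset.sum_filter, Finset.sum_const, nsmul_eq_mul, mul_comm]
      rw [Finset.sum_congr rfl h4, Finset.sum_comm]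
      refine Finset.sum_congr rfl fun x _ => ?_
      rw [nb, Finset.sum_filter]
      refine Finset.sum_congr rfl fun y _ => ?_
      simp [G.adj_comm]
    rw [h3]
    calc ∑ x ∈ X, ∑ y ∈ nb G x U, π y ≤ ∑ x ∈ X, 200 * θ ^ 4 :=
          Finset.sum_le_sum fun x hx => hΔ x (hXU hx)
      _ = _ := by rw [Finset.sum_const, nsmul_eq_mul]
  have h3 : ∑ y ∈ U, (if τ < (nb G y X).card then (20 * θ ^ 3 / d) * (X.card : ℝ) ^ 2 else 0) ≤
      τ * ((20 * θ ^ 3 / d) * (X.card : ℝ) ^ 2) := by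
    rw [← Finset.sum_filter, Finset.sum_const, nsmul_eq_mul]
    exact mul_le_mul_of_nonneg_right hheavy (by positivity)
  calc ∑ y ∈ U, π y * ((nb G y X).card : ℝ) ^ 2 ≤ ∑ y ∈ U, (τ * (π y * (nb G y X).card) +
        (if τ < (nb G y X).card then (20 * θ ^ 3 / d) * (X.card : ℝ) ^ 2 else 0)) :=
        Finset.sum_le_sum h1
    _ = τ * ∑ y ∈ U, π y * (nb G y X).card +
        ∑ y ∈ U, (if τ < (nb G y X).card then (20 * θ ^ 3 / d) * (X.card : ℝ) ^ 2 else 0) := by
        rw [Finset.sum_add_distrib, ← Finset.mul_sum]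
    _ ≤ τ * (X.card * (200 * θ ^ 4)) + τ * ((20 * θ ^ 3 / d) * (X.card : ℝ) ^ 2) :=
        add_le_add (mul_le_mul_of_nonneg_left h2 hτ0.le) h3
    _ ≤ τ * ((4 * θ * d) * (200 * θ ^ 4)) + τ * ((20 * θ ^ 3 / d) * (4 * θ * d) ^ 2) := by
        gcongr
    _ = 1120 * d ^ 2 / θ ^ 11 := by
        rw [hτ]
        field_simp
        ring

/-- the vertices adjacent to `w` which are used in the 4-cycles through `w` -/
noncomputable def Xw (G : SimpleGraph V) (A B : Finset V) (w : V) : Finset V :=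
  if w ∈ B then nb G w (A ∪ B) else nb G w A

lemma Xw_sub (G : SimpleGraph V) (A B : Finset V) (w : V) : Xw G A B w ⊆ A ∪ B := by
  unfold Xw
  split_ifs
  · exact nb_subset _ _ _
  · exact (nb_subset _ _ _).trans Finset.subset_union_left

lemma Xw_adj (G : SimpleGraph V) (A B : Finset V) (w x : V) (h : x ∈ Xw G A B w) : G.Adj w x := by
  unfold Xw at h
  split_ifs at h
  · exact (mem_nb.mp h).2
  · exact (mem_nb.mp h).2

/-- number of (A,B) edges inside `S` -/
noncomputable def F1 (G : SimpleGraph V) (A B S : Finset V) : ℝ :=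
  ∑ a ∈ A, ∑ b ∈ nb G a B, if {a, b} ⊆ S then 1 else 0

/-- the loss -/
noncomputable def F2 (G : SimpleGraph V) (A B S : Finset V) : ℝ :=
  ∑ w ∈ A ∪ B, ∑ y ∈ A ∪ B, ∑ x ∈ nb G y (Xw G A B w), ∑ z ∈ nb G y (Xw G A B w),
    if w ≠ y ∧ x ≠ z then ∑ u ∈ nb G w (A ∪ B), (if insert u {w, x, y, z} ⊆ S then 1 else 0) else 0

noncomputable def F3 (A B S : Finset V) : ℝ := ∑ v ∈ A ∪ B, if {v} ⊆ S then 1 else 0

lemma det_good [Fintype V] (G : SimpleGraph V) (s : ℕ) (A B S : Finset V) (hAB : Disjoint A B)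
    (h : 0 < F1 G A B S - F2 G A B S - (s / 2 : ℝ) * F3 A B S) : Good G s := by
  set U := A ∪ B with hU
  set Del : Finset V := (U ∩ S).filter (fun w => ∃ y ∈ U, y ∈ S ∧ ∃ x ∈ nb G y (Xw G A B w),
    x ∈ S ∧ ∃ z ∈ nb G y (Xw G A B w), z ∈ S ∧ w ≠ y ∧ x ≠ z) with hDel
  set W := (U ∩ S) \ Del with hW
  -- the loss bound
  have hloss : (∑ w ∈ Del, ((nb G w (U ∩ S)).card : ℝ)) ≤ F2 G A B S := by
    have hnn : ∀ w ∈ A ∪ B, (0 : ℝ) ≤ ∑ y ∈ A ∪ B, ∑ x ∈ nb G y (Xw G A B w),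
        ∑ z ∈ nb G y (Xw G A B w), if w ≠ y ∧ x ≠ z then ∑ u ∈ nb G w (A ∪ B),
          (if insert u {w, x, y, z} ⊆ S then (1 : ℝ) else 0) else 0 := by
      intro w _
      refine Finset.sum_nonneg fun y _ => Finset.sum_nonneg fun x _ => Finset.sum_nonneg fun z _ => ?_
      split_ifs
      · exact Finset.sum_nonneg fun u _ => by split_ifs <;> norm_num
      · exact le_rfl
    unfold F2
    refine le_trans ?_ (Finset.sum_le_sum_of_subset_of_nonneg (s := Del)
      (fun w hw => (mem_inter.mp (mem_filter.mp hw).1).1) (fun w hw _ => hnn w hw))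
    refine Finset.sum_le_sum fun w hw => ?_
    rw [hDel, mem_filter, mem_inter] at hw
    obtain ⟨⟨hwU, hwS⟩, y, hyU, hyS, x, hx, hxS, z, hz, hzS, hwy, hxz⟩ := hw
    have hterm : ∀ y' ∈ A ∪ B, (0 : ℝ) ≤ ∑ x ∈ nb G y' (Xw G A B w),
        ∑ z ∈ nb G y' (Xw G A B w), if w ≠ y' ∧ x ≠ z then ∑ u ∈ nb G w (A ∪ B),
          (if insert u {w, x, y', z} ⊆ S then (1 : ℝ) else 0) else 0 := by
      intro y _
      refine Finset.sum_nonneg fun x _ => Finset.sum_nonneg fun z _ => ?_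
      split_ifs
      · exact Finset.sum_nonneg fun u _ => by split_ifs <;> norm_num
      · exact le_rfl
    refine le_trans ?_ (Finset.single_le_sum hterm hyU)
    have hterm2 : ∀ x' ∈ nb G y (Xw G A B w), (0 : ℝ) ≤
        ∑ z ∈ nb G y (Xw G A B w), if w ≠ y ∧ x' ≠ z then ∑ u ∈ nb G w (A ∪ B),
          (if insert u {w, x', y, z} ⊆ S then (1 : ℝ) else 0) else 0 := by
      intro x _
      refine Finset.sum_nonneg fun z _ => ?_
      split_ifs
      · exact Finset.sum_nonneg fun u _ => by split_ifs <;> norm_num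
      · exact le_rfl
    refine le_trans ?_ (Finset.single_le_sum hterm2 hx)
    have hterm3 : ∀ z' ∈ nb G y (Xw G A B w), (0 : ℝ) ≤
        if w ≠ y ∧ x ≠ z' then ∑ u ∈ nb G w (A ∪ B),
          (if insert u {w, x, y, z'} ⊆ S then (1 : ℝ) else 0) else 0 := by
      intro z _
      split_ifs
      · exact Finset.sum_nonneg fun u _ => by split_ifs <;> norm_num
      · exact le_rfl
    refine le_trans ?_ (Finset.single_le_sum hterm3 hz)
    rw [if_pos ⟨hwy, hxz⟩, ← Finset.sum_filter, Finset.sum_const, nsmul_eq_mul, mul_one]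
    norm_cast
    refine Finset.card_le_card fun u hu => ?_
    rw [mem_nb, mem_inter] at hu
    rw [mem_filter, mem_nb]
    refine ⟨⟨hu.1.1, hu.2⟩, ?_⟩
    intro v hv
    simp only [mem_insert, mem_singleton] at hv
    rcases hv with rfl | rfl | rfl | rfl | rfl
    · exact hu.1.2
    · exact hwS
    · exact hxS
    · exact hyS
    · exact hzS
  have hF1 : F1 G A B S = ee G (A ∩ S) (B ∩ S) := by
    unfold F1 ee
    push_cast
    have : ∀ a ∈ A, ∑ b ∈ nb G a B, (if {a, b} ⊆ S then (1 : ℝ) else 0) =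
        if a ∈ S then ((nb G a (B ∩ S)).card : ℝ) else 0 := by
      intro a _
      split_ifs with ha
      · rw [← Finset.sum_filter, Finset.sum_const, nsmul_eq_mul, mul_one]
        congr 2
        ext b
        simp only [mem_filter, mem_nb, mem_inter, Finset.insert_subset_iff,
          Finset.singleton_subset_iff, ha, true_and]
        tauto
      · refine Finset.sum_eq_zero fun b _ => ?_
        rw [if_neg]
        intro hh
        exact ha (hh (by simp))
    rw [Finset.sum_congr rfl this, ← Finset.sum_filter]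
    refine Finset.sum_congr ?_ fun _ _ => rfl
    ext a; simp
  have hF3 : F3 A B S = (U ∩ S).card := by
    unfold F3
    rw [← Finset.sum_filter, Finset.sum_const, nsmul_eq_mul, mul_one]
    congr 2
    ext v; simp [hU]
  have hsplit : ee G (A ∩ S) (B ∩ S) ≤ ee G ((A ∩ S) \ Del) ((B ∩ S) \ Del) +
      ∑ w ∈ Del, (nb G w (U ∩ S)).card := by
    have hAU : A ∩ S ⊆ U ∩ S := Finset.inter_subset_inter_right Finset.subset_union_left
    have hBU : B ∩ S ⊆ U ∩ S := Finset.inter_subset_inter_right Finset.subset_union_right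
    rw [ee_split G (A ∩ S) (B ∩ S) Del, ee_comm G ((A ∩ S) \ Del) (B ∩ S),
      ee_split G (B ∩ S) ((A ∩ S) \ Del) Del, ee_comm G ((B ∩ S) \ Del) ((A ∩ S) \ Del), add_assoc]
    refine Nat.add_le_add_left ?_ _
    have h1 : ee G (B ∩ S ∩ Del) ((A ∩ S) \ Del) ≤
        ∑ w ∈ B ∩ S ∩ Del, (nb G w (U ∩ S)).card :=
      Finset.sum_le_sum fun w _ => Finset.card_le_card
        (nb_mono G w (Finset.sdiff_subset.trans hAU))
    have h2 : ee G (A ∩ S ∩ Del) (B ∩ S) ≤ ∑ w ∈ A ∩ S ∩ Del, (nb G w (U ∩ S)).card :=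
      Finset.sum_le_sum fun w _ => Finset.card_le_card (nb_mono G w hBU)
    have hdis : Disjoint (B ∩ S ∩ Del) (A ∩ S ∩ Del) := by
      rw [Finset.disjoint_left]
      intro v hv hv'
      simp only [mem_inter] at hv hv'
      exact Finset.disjoint_left.mp hAB hv'.1.1 hv.1.1
    refine (add_le_add h1 h2).trans ?_
    rw [← Finset.sum_union hdis]
    refine Finset.sum_le_sum_of_subset ?_
    intro v hv
    simp only [mem_union, mem_inter] at hv
    tauto
  have hWsub : W ⊆ U ∩ S := Finset.sdiff_subset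
  have hAW : (A ∩ S) \ Del ⊆ W :=
    Finset.sdiff_subset_sdiff (Finset.inter_subset_inter_right Finset.subset_union_left) le_rfl
  have hBW : (B ∩ S) \ Del ⊆ W :=
    Finset.sdiff_subset_sdiff (Finset.inter_subset_inter_right Finset.subset_union_right) le_rfl
  have hdis2 : Disjoint ((A ∩ S) \ Del) ((B ∩ S) \ Del) :=
    Finset.disjoint_of_subset_left (Finset.sdiff_subset.trans Finset.inter_subset_left)
      (Finset.disjoint_of_subset_right (Finset.sdiff_subset.trans Finset.inter_subset_left) hAB)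
  have h2e := two_ee_le G hdis2 hAW hBW
  have hmain : (s : ℝ) * W.card < ee G W W := by
    have h1 : (ee G (A ∩ S) (B ∩ S) : ℝ) ≤ ee G ((A ∩ S) \ Del) ((B ∩ S) \ Del) +
      ∑ w ∈ Del, ((nb G w (U ∩ S)).card : ℝ) := by exact_mod_cast hsplit
    have h2 : (2 : ℝ) * ee G ((A ∩ S) \ Del) ((B ∩ S) \ Del) ≤ ee G W W := by exact_mod_cast h2e
    have h3 : (W.card : ℝ) ≤ (U ∩ S).card := by exact_mod_cast Finset.card_le_card hWsub
    have h4 : (s : ℝ) * W.card ≤ s * (U ∩ S).card := mul_le_mul_of_nonneg_left h3 (Nat.cast_nonneg _)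
    rw [hF1, hF3] at h
    nlinarith
  refine ⟨W, ?_, ?_, ?_⟩
  · rw [Finset.nonempty_iff_ne_empty]
    intro h0
    rw [h0] at hmain
    simp [ee] at hmain
  · -- C4-freeness
    have hBcase : ∀ w ∈ W, ∀ x ∈ W, ∀ y ∈ W, ∀ z ∈ W, w ≠ y → x ≠ z → w ∈ B →
        ¬ (G.Adj w x ∧ G.Adj x y ∧ G.Adj y z ∧ G.Adj z w) := by
      rintro w hw x hx y hy z hz hwy hxz hwB ⟨h1, h2, h3, h4⟩
      have hwS := hWsub hw
      have hxS := mem_inter.mp (hWsub hx)
      have hyS := mem_inter.mp (hWsub hy)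
      have hzS := mem_inter.mp (hWsub hz)
      rw [hW, mem_sdiff] at hw
      apply hw.2
      rw [hDel, mem_filter]
      refine ⟨hwS, y, hyS.1, hyS.2, x, ?_, hxS.2, z, ?_, hzS.2, hwy, hxz⟩
      · rw [mem_nb, Xw, if_pos hwB, mem_nb]
        exact ⟨⟨hxS.1, h1⟩, h2.symm⟩
      · rw [mem_nb, Xw, if_pos hwB, mem_nb]
        exact ⟨⟨hzS.1, h4.symm⟩, h3⟩
    intro w hw x hx y hy z hz hwy hxz hh
    obtain ⟨h1, h2, h3, h4⟩ := hh
    by_cases hwB : w ∈ B
    · exact hBcase w hw x hx y hy z hz hwy hxz hwB ⟨h1, h2, h3, h4⟩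
    by_cases hxB : x ∈ B
    · exact hBcase x hx y hy z hz w hw hxz hwy.symm hxB ⟨h2, h3, h4, h1⟩
    by_cases hzB : z ∈ B
    · exact hBcase z hz w hw x hx y hy hxz.symm hwy hzB ⟨h4, h1, h2, h3⟩
    have hwS := hWsub hw
    have hxS := mem_inter.mp (hWsub hx)
    have hyS := mem_inter.mp (hWsub hy)
    have hzS := mem_inter.mp (hWsub hz)
    have hxA : x ∈ A := by
      rcases mem_union.mp hxS.1 with h | h
      · exact h
      · exact absurd h hxB
    have hzA : z ∈ A := by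
      rcases mem_union.mp hzS.1 with h | h
      · exact h
      · exact absurd h hzB
    rw [hW, mem_sdiff] at hw
    apply hw.2
    rw [hDel, mem_filter]
    refine ⟨hwS, y, hyS.1, hyS.2, x, ?_, hxS.2, z, ?_, hzS.2, hwy, hxz⟩
    · rw [mem_nb, Xw, if_neg hwB, mem_nb]
      exact ⟨⟨hxA, h1⟩, h2.symm⟩
    · rw [mem_nb, Xw, if_neg hwB, mem_nb]
      exact ⟨⟨hzA, h4.symm⟩, h3⟩
  · exact_mod_cast hmain.le

lemma EE_F1 [Fintype V] (G : SimpleGraph V) (A B : Finset V) (hAB : Disjoint A B) (p r : ℝ)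
    (π : V → ℝ) (hπA : ∀ v ∈ A, π v = p) (hπB : ∀ v ∈ B, π v = r) :
    EE π (F1 G A B) = p * r * ee G A B := by
  have h1 : EE π (F1 G A B) = ∑ a ∈ A, ∑ b ∈ nb G a B, ∏ v ∈ ({a, b} : Finset V), π v := by
    unfold F1
    rw [EE_sum]
    refine Finset.sum_congr rfl fun a _ => ?_
    rw [EE_sum]
    refine Finset.sum_congr rfl fun b _ => ?_
    exact EE_ind π _
  rw [h1]
  have h2 : ∀ a ∈ A, ∑ b ∈ nb G a B, ∏ v ∈ ({a, b} : Finset V), π v = (nb G a B).card * (p * r) := by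
    intro a ha
    rw [← nsmul_eq_mul, ← Finset.sum_const]
    refine Finset.sum_congr rfl fun b hb => ?_
    have hbB := (mem_nb.mp hb).1
    have hab : a ≠ b := fun h => Finset.disjoint_left.mp hAB ha (h ▸ hbB)
    rw [Finset.prod_pair hab, hπA a ha, hπB b hbB]
  rw [Finset.sum_congr rfl h2, ← Finset.sum_mul, ee]
  push_cast
  ring

lemma EE_F3 [Fintype V] (A B : Finset V) (π : V → ℝ) :
    EE π (F3 A B) = ∑ v ∈ A ∪ B, π v := by
  unfold F3
  rw [EE_sum]
  refine Finset.sum_congr rfl fun a _ => ?_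
  rw [EE_ind, Finset.prod_singleton]

lemma EE_F2 [Fintype V] (G : SimpleGraph V) (A B : Finset V)
    (d θ : ℝ) (hθ : 1000 ≤ θ) (hd : θ ^ 36 ≤ d)
    (hLS : ∀ U : Finset V, (U.card : ℝ) ≤ θ ^ 2 * d → (ee G U U : ℝ) ≤ d ^ 2 / θ ^ 32)
    (hX : ∀ w ∈ A ∪ B, ((Xw G A B w).card : ℝ) ≤ 4 * θ * d) (π : V → ℝ)
    (h0 : ∀ v, 0 ≤ π v) (hπ : ∀ v, π v ≤ 20 * θ ^ 3 / d)
    (hΔ : ∀ v ∈ A ∪ B, ∑ u ∈ nb G v (A ∪ B), π u ≤ 200 * θ ^ 4) :
    EE π (F2 G A B) ≤ (91392000 / θ) * ∑ w ∈ A ∪ B, π w := by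
  have hθ0 : 0 < θ := by linarith
  have hd1 : 1 ≤ d := le_trans (one_le_pow₀ (by linarith)) hd
  have hd0 : 0 < d := by linarith
  set P := 20 * θ ^ 3 / d with hP
  have hP0 : 0 < P := by positivity
  have h1 : EE π (F2 G A B) = ∑ w ∈ A ∪ B, ∑ y ∈ A ∪ B, ∑ x ∈ nb G y (Xw G A B w),
      ∑ z ∈ nb G y (Xw G A B w), if w ≠ y ∧ x ≠ z then ∑ u ∈ nb G w (A ∪ B),
        ∏ v ∈ insert u {w, x, y, z}, π v else 0 := by
    unfold F2
    rw [EE_sum]
    refine Finset.sum_congr rfl fun w _ => ?_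
    rw [EE_sum]
    refine Finset.sum_congr rfl fun y _ => ?_
    rw [EE_sum]
    refine Finset.sum_congr rfl fun x _ => ?_
    rw [EE_sum]
    refine Finset.sum_congr rfl fun z _ => ?_
    by_cases h : w ≠ y ∧ x ≠ z
    · simp only [if_pos h]
      rw [EE_sum]
      refine Finset.sum_congr rfl fun u _ => ?_
      exact EE_ind π _
    · simp only [if_neg h]
      unfold EE
      simp
  rw [h1, Finset.mul_sum]
  refine Finset.sum_le_sum fun w hw => ?_
  have h2 : ∀ y ∈ A ∪ B, (∑ x ∈ nb G y (Xw G A B w),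
      ∑ z ∈ nb G y (Xw G A B w), if w ≠ y ∧ x ≠ z then ∑ u ∈ nb G w (A ∪ B),
        ∏ v ∈ insert u {w, x, y, z}, π v else 0) ≤
      (π w * P ^ 2 * (204 * θ ^ 4)) * (π y * ((nb G y (Xw G A B w)).card : ℝ) ^ 2) := by
    intro y hy
    have h3 : ∀ x ∈ nb G y (Xw G A B w), ∀ z ∈ nb G y (Xw G A B w),
        (if w ≠ y ∧ x ≠ z then ∑ u ∈ nb G w (A ∪ B),
        ∏ v ∈ insert u {w, x, y, z}, π v else 0) ≤ π w * π y * P ^ 2 * (204 * θ ^ 4) := by
      intro x hx z hz
      have hwy0 : 0 ≤ π w * π y := mul_nonneg (h0 w) (h0 y)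
      split_ifs with hc
      · obtain ⟨hwy, hxz⟩ := hc
        rw [mem_nb] at hx hz
        have hwx := Xw_adj G A B w x hx.1
        have hwz := Xw_adj G A B w z hz.1
        have hwx' : w ≠ x := hwx.ne
        have hwz' : w ≠ z := hwz.ne
        have hyx' : y ≠ x := hx.2.ne
        have hyz' : y ≠ z := hz.2.ne
        have hprod : ∏ v ∈ ({w, x, y, z} : Finset V), π v = π w * (π x * (π y * π z)) := by
          rw [Finset.prod_insert (by simp [hwx', hwy, hwz']),
            Finset.prod_insert (by simp [hyx'.symm, hxz]), Finset.prod_pair hyz']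
        have hcard : (({w, x, y, z} : Finset V).card : ℝ) ≤ 4 := by
          exact_mod_cast Finset.card_le_four
        refine (sum_insert_le π h0 {w, x, y, z} (nb G w (A ∪ B))).trans ?_
        rw [hprod]
        have h4 : (({w, x, y, z} : Finset V).card : ℝ) + ∑ u ∈ nb G w (A ∪ B), π u ≤ 204 * θ ^ 4 := by
          have := hΔ w hw
          have h5 : (1 : ℝ) ≤ θ ^ 4 := one_le_pow₀ (by linarith)
          linarith
        have h5 : π w * (π x * (π y * π z)) ≤ π w * π y * P ^ 2 := by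
          have : π w * (π x * (π y * π z)) = π w * π y * (π x * π z) := by ring
          rw [this]
          refine mul_le_mul_of_nonneg_left ?_ hwy0
          rw [sq]
          exact mul_le_mul (hπ x) (hπ z) (h0 z) hP0.le
        refine mul_le_mul h5 h4 ?_ (by positivity)
        exact add_nonneg (Nat.cast_nonneg _) (Finset.sum_nonneg fun u _ => h0 u)
      · positivity
    calc (∑ x ∈ nb G y (Xw G A B w), ∑ z ∈ nb G y (Xw G A B w),
          if w ≠ y ∧ x ≠ z then ∑ u ∈ nb G w (A ∪ B),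
          ∏ v ∈ insert u {w, x, y, z}, π v else 0)
        ≤ ∑ x ∈ nb G y (Xw G A B w), ∑ z ∈ nb G y (Xw G A B w), π w * π y * P ^ 2 * (204 * θ ^ 4) :=
          Finset.sum_le_sum fun x hx => Finset.sum_le_sum fun z hz => h3 x hx z hz
      _ = _ := by
          simp only [Finset.sum_const, nsmul_eq_mul]
          ring
  calc _ ≤ ∑ y ∈ A ∪ B, (π w * P ^ 2 * (204 * θ ^ 4)) *
        (π y * ((nb G y (Xw G A B w)).card : ℝ) ^ 2) := Finset.sum_le_sum h2
    _ = (π w * P ^ 2 * (204 * θ ^ 4)) * ∑ y ∈ A ∪ B, (π y * ((nb G y (Xw G A B w)).card : ℝ) ^ 2) := by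
        rw [Finset.mul_sum]
    _ ≤ (π w * P ^ 2 * (204 * θ ^ 4)) * (1120 * d ^ 2 / θ ^ 11) := by
        refine mul_le_mul_of_nonneg_left ?_ ?_
        · exact key_moment G d θ hθ hd hLS (A ∪ B) (Xw G A B w) (Xw_sub G A B w) (hX w hw) π h0 hπ hΔ
        · have := h0 w
          positivity
    _ = 91392000 / θ * π w := by
        rw [hP]
        field_simp
        ring

/-- Case II -/
lemma caseII [Fintype V] (G : SimpleGraph V) (s : ℕ) (A B : Finset V) (hAB : Disjoint A B)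
    (hB : B.Nonempty) (d θ D : ℝ) (hθ : 2 * 10 ^ 9 ≤ θ) (hθs : 6 * (s : ℝ) ≤ θ) (hd : θ ^ 36 ≤ d)
    (hLS : ∀ U : Finset V, (U.card : ℝ) ≤ θ ^ 2 * d → (ee G U U : ℝ) ≤ d ^ 2 / θ ^ 32)
    (hBdeg : ∀ b ∈ B, ((nb G b univ).card : ℝ) ≤ 10 * d)
    (hA1 : ∀ a ∈ A, D ≤ (nb G a B).card) (hA2 : ∀ a ∈ A, ((nb G a B).card : ℝ) ≤ θ * D)
    (hA3 : ∀ a ∈ A, ((nb G a A).card : ℝ) ≤ 4 * θ * d)
    (hD : d / 20 ≤ D) (he : d / θ * B.card ≤ ee G A B) : Good G s := by
  have hθ0 : 0 < θ := by linarith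
  have hθ1 : 1 ≤ θ := by linarith
  have hd1 : 1 ≤ d := le_trans (one_le_pow₀ (by linarith)) hd
  have hd0 : 0 < d := by linarith
  have hD0 : 0 < D := by linarith
  set p := θ ^ 3 / d with hp
  set r := θ ^ 3 / D with hr
  have hp0 : 0 < p := by positivity
  have hr0 : 0 < r := by positivity
  have hrp : r ≤ 20 * θ ^ 3 / d := by
    rw [hr, div_le_div_iff₀ hD0 hd0]
    have : θ ^ 3 * d ≤ θ ^ 3 * (20 * D) := mul_le_mul_of_nonneg_left (by linarith) (by positivity)
    linarith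
  have hpp : p ≤ 20 * θ ^ 3 / d := by
    rw [hp]
    exact div_le_div_of_nonneg_right (by nlinarith [pow_pos hθ0 3]) hd0.le
  have hP1 : 20 * θ ^ 3 / d ≤ 1 := by
    rw [div_le_one hd0]
    calc 20 * θ ^ 3 ≤ θ * θ ^ 3 := by nlinarith [pow_pos hθ0 3]
      _ = θ ^ 4 := by ring
      _ ≤ θ ^ 36 := pow_le_pow_right₀ hθ1 (by norm_num)
      _ ≤ d := hd
  set π : V → ℝ := fun v => if v ∈ A then p else if v ∈ B then r else 0 with hπ
  have hπA : ∀ v ∈ A, π v = p := fun v hv => by simp only [hπ, if_pos hv]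
  have hπB : ∀ v ∈ B, π v = r := fun v hv => by
    have : v ∉ A := fun h => Finset.disjoint_left.mp hAB h hv
    simp only [hπ, if_neg this, if_pos hv]
  have h0 : ∀ v, 0 ≤ π v := by
    intro v
    simp only [hπ]
    split_ifs <;> linarith
  have hπP : ∀ v, π v ≤ 20 * θ ^ 3 / d := by
    intro v
    simp only [hπ]
    split_ifs
    · exact hpp
    · exact hrp
    · positivity
  have h1 : ∀ v, π v ≤ 1 := fun v => (hπP v).trans hP1
  have hBdeg' : ∀ b ∈ B, ∀ Y : Finset V, ((nb G b Y).card : ℝ) ≤ 10 * d := fun b hb Y =>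
    le_trans (by exact_mod_cast Finset.card_le_card (nb_mono G b (Finset.subset_univ Y)))
      (hBdeg b hb)
  have hΔ : ∀ v ∈ A ∪ B, ∑ u ∈ nb G v (A ∪ B), π u ≤ 200 * θ ^ 4 := by
    intro v hv
    by_cases hvB : v ∈ B
    · calc ∑ u ∈ nb G v (A ∪ B), π u ≤ ∑ u ∈ nb G v (A ∪ B), 20 * θ ^ 3 / d :=
            Finset.sum_le_sum fun u _ => hπP u
        _ = (nb G v (A ∪ B)).card * (20 * θ ^ 3 / d) := by rw [Finset.sum_const, nsmul_eq_mul]
        _ ≤ (10 * d) * (20 * θ ^ 3 / d) :=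
            mul_le_mul_of_nonneg_right (hBdeg' v hvB _) (by positivity)
        _ = 200 * θ ^ 3 := by field_simp; norm_num
        _ ≤ 200 * θ ^ 4 := by
            have : θ ^ 3 ≤ θ ^ 4 := pow_le_pow_right₀ hθ1 (by norm_num)
            linarith
    · have hvA : v ∈ A := by
        rcases mem_union.mp hv with h | h
        · exact h
        · exact absurd h hvB
      have h2 : nb G v (A ∪ B) = nb G v A ∪ nb G v B := by
        ext u; simp only [mem_nb, mem_union]; tauto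
      have h3 : Disjoint (nb G v A) (nb G v B) :=
        Finset.disjoint_of_subset_left (nb_subset _ _ _)
          (Finset.disjoint_of_subset_right (nb_subset _ _ _) hAB)
      rw [h2, Finset.sum_union h3]
      have h4 : ∑ u ∈ nb G v A, π u ≤ 4 * θ ^ 4 := by
        calc ∑ u ∈ nb G v A, π u = ∑ u ∈ nb G v A, p :=
              Finset.sum_congr rfl fun u hu => hπA u (mem_nb.mp hu).1
          _ = (nb G v A).card * p := by rw [Finset.sum_const, nsmul_eq_mul]
          _ ≤ (4 * θ * d) * p := mul_le_mul_of_nonneg_right (hA3 v hvA) hp0.le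
          _ = 4 * θ ^ 4 := by rw [hp]; field_simp
      have h5 : ∑ u ∈ nb G v B, π u ≤ θ ^ 4 := by
        calc ∑ u ∈ nb G v B, π u = ∑ u ∈ nb G v B, r :=
              Finset.sum_congr rfl fun u hu => hπB u (mem_nb.mp hu).1
          _ = (nb G v B).card * r := by rw [Finset.sum_const, nsmul_eq_mul]
          _ ≤ (θ * D) * r := mul_le_mul_of_nonneg_right (hA2 v hvA) hr0.le
          _ = θ ^ 4 := by rw [hr]; field_simp
      have h6 : 0 < θ ^ 4 := by positivity
      linarith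
  have hXw : ∀ w ∈ A ∪ B, ((Xw G A B w).card : ℝ) ≤ 4 * θ * d := by
    intro w hw
    by_cases hwB : w ∈ B
    · rw [Xw, if_pos hwB]
      refine (hBdeg' w hwB _).trans ?_
      nlinarith
    · rw [Xw, if_neg hwB]
      have hwA : w ∈ A := by
        rcases mem_union.mp hw with h | h
        · exact h
        · exact absurd h hwB
      exact hA3 w hwA
  have hE2 := EE_F2 G A B d θ (by linarith) hd hLS hXw π h0 hπP hΔ
  have hE1 := EE_F1 G A B hAB p r π hπA hπB
  have hE3 := EE_F3 A B π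
  have hBc : (0 : ℝ) < B.card := by exact_mod_cast Finset.card_pos.mpr hB
  have hsumπ : ∑ v ∈ A ∪ B, π v ≤ 11 * (r * B.card) := by
    rw [Finset.sum_union hAB, Finset.sum_congr rfl hπA, Finset.sum_congr rfl hπB,
      Finset.sum_const, Finset.sum_const, nsmul_eq_mul, nsmul_eq_mul]
    have h2 : D * A.card ≤ 10 * d * B.card := by
      have h3 : D * A.card ≤ (ee G A B : ℝ) := by
        unfold ee
        rw [mul_comm, ← nsmul_eq_mul, ← Finset.sum_const]
        push_cast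
        exact Finset.sum_le_sum hA1
      have h4 : (ee G A B : ℝ) ≤ 10 * d * B.card := by
        rw [ee_comm]
        unfold ee
        rw [mul_comm (10 * d), ← nsmul_eq_mul, ← Finset.sum_const]
        push_cast
        exact Finset.sum_le_sum fun b hb => hBdeg' b hb A
      linarith
    have h5 : (A.card : ℝ) * p ≤ 10 * (r * B.card) := by
      rw [hp, hr]
      have h6 : (A.card : ℝ) ≤ 10 * d * B.card / D := by
        rw [le_div_iff₀ hD0]; linarith
      calc (A.card : ℝ) * (θ ^ 3 / d) ≤ (10 * d * B.card / D) * (θ ^ 3 / d) :=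
            mul_le_mul_of_nonneg_right h6 (by positivity)
        _ = 10 * (θ ^ 3 / D * B.card) := by field_simp
    linarith
  have hpr : θ ^ 2 * (r * B.card) ≤ p * r * ee G A B := by
    calc θ ^ 2 * (r * B.card) = p * r * (d / θ * B.card) := by
          rw [hp]; field_simp
      _ ≤ _ := mul_le_mul_of_nonneg_left he (by positivity)
  have hrB : 0 < r * B.card := by positivity
  have hs0 : (0 : ℝ) ≤ s := Nat.cast_nonneg _
  have hpos : 0 < EE π (fun S => F1 G A B S - F2 G A B S - (s / 2 : ℝ) * F3 A B S) := by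
    rw [EE_sub, EE_sub, EE_mul, hE1, hE3]
    have h2 : (91392000 / θ) * ∑ w ∈ A ∪ B, π w ≤ r * B.card := by
      calc (91392000 / θ) * ∑ w ∈ A ∪ B, π w ≤ (91392000 / θ) * (11 * (r * B.card)) :=
            mul_le_mul_of_nonneg_left hsumπ (by positivity)
        _ = (1005312000 / θ) * (r * B.card) := by ring
        _ ≤ 1 * (r * B.card) := by
            refine mul_le_mul_of_nonneg_right ?_ hrB.le
            rw [div_le_one hθ0]
            linarith
        _ = _ := one_mul _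
    have h3 : (s / 2 : ℝ) * ∑ v ∈ A ∪ B, π v ≤ (s / 2 : ℝ) * (11 * (r * B.card)) :=
      mul_le_mul_of_nonneg_left hsumπ (by positivity)
    have h4 : (1 + (s / 2 : ℝ) * 11) * (r * B.card) < θ ^ 2 * (r * B.card) := by
      refine mul_lt_mul_of_pos_right ?_ hrB
      nlinarith
    nlinarith
  obtain ⟨S, hS⟩ := exists_of_EE_pos π h0 h1 _ hpos
  exact det_good G s A B S hAB hS

end MP4d84d8
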