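import Mathlib
import Pool.Agent.Lib.MP_4d84d8_co.CaseII

set_option autoImplicit false

open Finset
open scoped Classical

namespace MP4d84d8

variable {V : Type*}

/-- orientation with small outdegree -/
lemma exists_up (G : SimpleGraph V) (d : ℝ) (hd : 0 ≤ d)
    (h : ∀ U : Finset V, (ee G U U : ℝ) ≤ d * U.card) (n : ℕ) : ∀ U : Finset V, U.card = n →
    ∃ up : V → Finset V, (∀ v, ((up v).card : ℝ) ≤ d) ∧ (∀ v, ∀ u ∈ up v, G.Adj v u) ∧
      ∀ u ∈ U, ∀ v ∈ U, G.Adj u v → v ∈ up u ∨ u ∈ up v := by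
  induction n with
  | zero =>
    intro U hU
    rw [Finset.card_eq_zero] at hU
    exact ⟨fun _ => ∅, fun v => by simpa using hd, by simp, by simp [hU]⟩
  | succ n ih =>
    intro U hU
    have hne : U.Nonempty := by rw [← Finset.card_pos]; omega
    have h1 : ∃ v ∈ U, ((nb G v U).card : ℝ) ≤ d := by
      by_contra hcon
      push Not at hcon
      have h2 : d * U.card < (ee G U U : ℝ) := by
        unfold ee
        rw [mul_comm, ← nsmul_eq_mul, ← Finset.sum_const]
        push_cast
        exact Finset.sum_lt_sum_of_nonempty hne hcon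
      linarith [h U]
    obtain ⟨v0, hv0, hv0d⟩ := h1
    obtain ⟨up, hu1, hu2, hu3⟩ := ih (U.erase v0) (by rw [Finset.card_erase_of_mem hv0]; omega)
    refine ⟨Function.update up v0 (nb G v0 U), ?_, ?_, ?_⟩
    · intro v
      by_cases hv : v = v0
      · subst hv; simpa using hv0d
      · rw [Function.update_of_ne hv]; exact hu1 v
    · intro v u hu
      by_cases hv : v = v0
      · subst hv
        rw [Function.update_self] at hu
        exact (mem_nb.mp hu).2
      · rw [Function.update_of_ne hv] at hu; exact hu2 v u hu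
    · intro u hu v hv huv
      by_cases hu0 : u = v0
      · subst hu0
        left
        rw [Function.update_self, mem_nb]
        exact ⟨hv, huv⟩
      · by_cases hv0' : v = v0
        · subst hv0'
          right
          rw [Function.update_self, mem_nb]
          exact ⟨hu, huv.symm⟩
        · rw [Function.update_of_ne hu0, Function.update_of_ne hv0']
          exact hu3 u (mem_erase.mpr ⟨hu0, hu⟩) v (mem_erase.mpr ⟨hv0', hv⟩) huv

lemma indep_subset (B' : Finset V) (R : V → V → Prop) (hsym : ∀ x y, R x y → R y x)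
    (hirr : ∀ x, ¬ R x x) (Δ : ℝ) (h : ∀ b ∈ B', ((B'.filter (R b)).card : ℝ) ≤ Δ) :
    ∃ B'' ⊆ B', (∀ x ∈ B'', ∀ y ∈ B'', ¬ R x y) ∧ (B'.card : ℝ) ≤ B''.card * (1 + Δ) := by
  obtain ⟨Pr, hPr⟩ : ∃ Pr : Finset V → Prop, ∀ C, Pr C ↔ ∀ x ∈ C, ∀ y ∈ C, ¬ R x y :=
    ⟨_, fun C => Iff.rfl⟩
  set P := B'.powerset.filter Pr with hP
  have hPne : P.Nonempty := ⟨∅, by rw [hP, mem_filter, hPr]; simp⟩
  obtain ⟨B'', hB'', hmax⟩ := Finset.exists_max_image P Finset.card hPne
  rw [hP, mem_filter, mem_powerset, hPr] at hB''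
  refine ⟨B'', hB''.1, hB''.2, ?_⟩
  have hsub : B' ⊆ B''.biUnion (fun x => insert x (B'.filter (R x))) := by
    intro b hb
    rw [mem_biUnion]
    by_cases hbB : b ∈ B''
    · exact ⟨b, hbB, mem_insert_self _ _⟩
    · have hno : insert b B'' ∉ P := by
        intro hmem
        have := hmax _ hmem
        rw [Finset.card_insert_of_notMem hbB] at this
        omega
      rw [hP, mem_filter, mem_powerset, hPr, not_and] at hno
      have h1 := hno (Finset.insert_subset hb hB''.1)
      push Not at h1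
      obtain ⟨x, hx, y, hy, hxy⟩ := h1
      rw [mem_insert] at hx hy
      rcases hx with rfl | hx
      · rcases hy with rfl | hy
        · exact absurd hxy (hirr _)
        · exact ⟨y, hy, mem_insert_of_mem (mem_filter.mpr ⟨hb, hsym _ _ hxy⟩)⟩
      · rcases hy with rfl | hy
        · exact ⟨x, hx, mem_insert_of_mem (mem_filter.mpr ⟨hb, hxy⟩)⟩
        · exact absurd hxy (hB''.2 x hx y hy)
  calc (B'.card : ℝ) ≤ (B''.biUnion (fun x => insert x (B'.filter (R x)))).card := by
        exact_mod_cast Finset.card_le_card hsub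
    _ ≤ ∑ x ∈ B'', ((insert x (B'.filter (R x))).card : ℝ) := by
        exact_mod_cast Finset.card_biUnion_le
    _ ≤ ∑ x ∈ B'', (1 + Δ) := by
        refine Finset.sum_le_sum fun x hx => ?_
        have h1 : ((insert x (B'.filter (R x))).card : ℝ) ≤ (B'.filter (R x)).card + 1 := by
          exact_mod_cast Finset.card_insert_le _ _
        linarith [h x (hB''.1 hx)]
    _ = _ := by rw [Finset.sum_const, nsmul_eq_mul]

lemma success [Fintype V] (G : SimpleGraph V) (k : ℕ) (hk : 1 ≤ k) (d : ℝ) (hd : 1 ≤ d)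
    (up : V → Finset V) (hup1 : ∀ v, ((up v).card : ℝ) ≤ d) (hup0 : ∀ v, ∀ u ∈ up v, G.Adj v u)
    (hup2 : ∀ u v, G.Adj u v → v ∈ up u ∨ u ∈ up v)
    (A B Bs : Finset V) (hAB : Disjoint A B) (hBs : Bs ⊆ B) (hBne : Bs.Nonempty)
    (T : V → Finset V) (K' : ℝ) (hK' : 0 ≤ K')
    (hT1 : ∀ b ∈ Bs, T b ⊆ nb G b A) (hT2 : ∀ b ∈ Bs, (T b).card = k)
    (hT3 : ∀ b ∈ Bs, ∀ x ∈ T b, ∀ y ∈ T b, ¬ G.Adj x y)
    (hT4 : ∀ b ∈ Bs, ∀ x ∈ T b, ∀ y ∈ T b, x ≠ y → ((nb G x (nb G y B)).card : ℝ) ≤ K')
    (hBdeg : ∀ b ∈ B, ((nb G b univ).card : ℝ) ≤ 10 * d)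
    (hsize : A.card * (2 * (400 * d * k) ^ k * (10 * d + k ^ 2 * K' + 1)) ≤ Bs.card) : Good G k := by
  have hd0 : 0 < d := by linarith
  have hk0 : (0 : ℝ) < k := by exact_mod_cast hk
  have hk1 : (1 : ℝ) ≤ k := by exact_mod_cast hk
  set p : ℝ := 1 / (400 * d * k) with hp
  have hp0 : 0 < p := by positivity
  have hp1 : p ≤ 1 := by
    rw [hp, div_le_one (by positivity)]
    nlinarith
  set Y : V → Finset V := fun b => (nb G b A \ T b) ∪ (T b).biUnion up with hY
  have hYc : ∀ b ∈ Bs, ((Y b).card : ℝ) ≤ 10 * d + k * d := by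
    intro b hb
    have h1 : ((Y b).card : ℝ) ≤ (nb G b A \ T b).card + ((T b).biUnion up).card := by
      exact_mod_cast Finset.card_union_le _ _
    have h2 : ((nb G b A \ T b).card : ℝ) ≤ (nb G b univ).card := by
      exact_mod_cast Finset.card_le_card (Finset.sdiff_subset.trans
        (nb_mono G b (Finset.subset_univ A)))
    have h3 : (((T b).biUnion up).card : ℝ) ≤ k * d := by
      calc (((T b).biUnion up).card : ℝ) ≤ ∑ a ∈ T b, ((up a).card : ℝ) := by
            exact_mod_cast Finset.card_biUnion_le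
        _ ≤ ∑ a ∈ T b, d := Finset.sum_le_sum fun a _ => hup1 a
        _ = k * d := by rw [Finset.sum_const, nsmul_eq_mul, hT2 b hb]
    linarith [hBdeg b (hBs hb)]
  have hYdis : ∀ b ∈ Bs, Disjoint (T b) (Y b) := by
    intro b hb
    rw [Finset.disjoint_left]
    intro v hv hvY
    simp only [hY, mem_union, mem_sdiff, mem_biUnion] at hvY
    rcases hvY with h | ⟨a, ha, hva⟩
    · exact h.2 hv
    · exact hT3 b hb a ha v hv (hup0 a v hva)
  set F : Finset V → ℝ := fun S => ∑ b ∈ Bs, if T b ⊆ S ∧ Disjoint (Y b) S then 1 else 0 with hF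
  have hEF : Bs.card * (p ^ k / 2) ≤ EE (fun _ => p) F := by
    rw [hF, EE_sum]
    calc (Bs.card : ℝ) * (p ^ k / 2) = ∑ b ∈ Bs, p ^ k / 2 := by
          rw [Finset.sum_const, nsmul_eq_mul]
      _ ≤ _ := by
          refine Finset.sum_le_sum fun b hb => ?_
          rw [EE_ind2 _ _ _ (hYdis b hb), Finset.prod_const, Finset.prod_const, hT2 b hb]
          have h1 : (1 / 2 : ℝ) ≤ (1 - p) ^ (Y b).card := by
            have h2 := one_add_mul_le_pow (a := -p) (by linarith) (Y b).card
            have h3 : ((Y b).card : ℝ) * p ≤ 1 / 2 := by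
              calc ((Y b).card : ℝ) * p ≤ (10 * d + k * d) * p :=
                    mul_le_mul_of_nonneg_right (hYc b hb) hp0.le
                _ ≤ 1 / 2 := by
                    rw [hp, mul_one_div, div_le_iff₀ (by positivity)]
                    nlinarith [mul_pos hd0 hk0]
            have h4 : (1 + -p) ^ (Y b).card = (1 - p) ^ (Y b).card := by ring
            linarith
          have h5 : 0 < p ^ k := by positivity
          nlinarith
  obtain ⟨S, hS⟩ := exists_ge_EE (fun _ : V => p) (fun _ => hp0.le) (fun _ => hp1) F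
  set B' := Bs.filter (fun b => T b ⊆ S ∧ Disjoint (Y b) S) with hB'
  have hB'c : (B'.card : ℝ) = F S := by
    rw [hF, hB']
    simp only
    rw [Finset.sum_boole]
  have hB'1 : Bs.card * (p ^ k / 2) ≤ (B'.card : ℝ) := by rw [hB'c]; exact hEF.trans hS
  set A'' := (A ∩ S).filter (fun a => Disjoint (up a) S) with hA''
  have hA''ind : ∀ a ∈ A'', ∀ a' ∈ A'', ¬ G.Adj a a' := by
    intro a ha a' ha' hadj
    rw [hA'', mem_filter, mem_inter] at ha ha'
    rcases hup2 a a' hadj with h | h
    · exact Finset.disjoint_left.mp ha.2 h ha'.1.2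
    · exact Finset.disjoint_left.mp ha'.2 h ha.1.2
  have hnbT : ∀ b ∈ B', nb G b A'' = T b := by
    intro b hb
    rw [hB', mem_filter] at hb
    obtain ⟨hbs, hTS, hYS⟩ := hb
    ext a
    rw [mem_nb]
    constructor
    · rintro ⟨ha, hba⟩
      rw [hA'', mem_filter, mem_inter] at ha
      by_contra hnot
      refine Finset.disjoint_left.mp hYS ?_ ha.1.2
      simp only [hY, mem_union, mem_sdiff, mem_nb]
      exact Or.inl ⟨⟨ha.1.1, hba⟩, hnot⟩
    · intro ha
      have h1 := mem_nb.mp (hT1 b hbs ha)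
      refine ⟨?_, h1.2⟩
      rw [hA'', mem_filter, mem_inter]
      refine ⟨⟨h1.1, hTS ha⟩, ?_⟩
      refine Finset.disjoint_of_subset_left ?_ hYS
      intro u hu
      simp only [hY, mem_union, mem_biUnion]
      exact Or.inr ⟨a, ha, hu⟩
  -- conflicts
  set Rc : V → V → Prop := fun b b' => G.Adj b b' ∨ (b ≠ b' ∧ ∃ x y, x ≠ y ∧ x ∈ T b ∧ y ∈ T b ∧
    x ∈ T b' ∧ y ∈ T b') with hRc
  have hB'sub : B' ⊆ Bs := Finset.filter_subset _ _
  have hconf : ∀ b ∈ B', ((B'.filter (Rc b)).card : ℝ) ≤ 10 * d + k ^ 2 * K' := by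
    intro b hb
    have hbs := hB'sub hb
    have hsub : B'.filter (Rc b) ⊆ nb G b univ ∪
        (((T b) ×ˢ (T b)).filter (fun q => q.1 ≠ q.2)).biUnion
          (fun q => nb G q.1 (nb G q.2 B)) := by
      intro b' hb'
      rw [mem_filter] at hb'
      obtain ⟨hb'1, hb'2⟩ := hb'
      rw [mem_union]
      rcases hb'2 with h | ⟨_, x, y, hxy, hx, hy, hx', hy'⟩
      · left; rw [mem_nb]; exact ⟨mem_univ _, h⟩
      · right
        rw [mem_biUnion]
        refine ⟨(x, y), ?_, ?_⟩
        · rw [mem_filter, mem_product]; exact ⟨⟨hx, hy⟩, hxy⟩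
        · have hb's := hB'sub hb'1
          have h1 := mem_nb.mp (hT1 b' hb's hx')
          have h2 := mem_nb.mp (hT1 b' hb's hy')
          rw [mem_nb, mem_nb]
          exact ⟨⟨hBs hb's, h2.2.symm⟩, h1.2.symm⟩
    calc ((B'.filter (Rc b)).card : ℝ) ≤ ((nb G b univ ∪
        (((T b) ×ˢ (T b)).filter (fun q => q.1 ≠ q.2)).biUnion
          (fun q => nb G q.1 (nb G q.2 B))).card : ℝ) := by
          exact_mod_cast Finset.card_le_card hsub
      _ ≤ (nb G b univ).card + ((((T b) ×ˢ (T b)).filter (fun q => q.1 ≠ q.2)).biUnion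
          (fun q => nb G q.1 (nb G q.2 B))).card := by
          exact_mod_cast Finset.card_union_le _ _
      _ ≤ 10 * d + k ^ 2 * K' := by
          refine add_le_add (hBdeg b (hBs hbs)) ?_
          calc (((((T b) ×ˢ (T b)).filter (fun q => q.1 ≠ q.2)).biUnion
              (fun q => nb G q.1 (nb G q.2 B))).card : ℝ) ≤
              ∑ q ∈ ((T b) ×ˢ (T b)).filter (fun q => q.1 ≠ q.2),
                ((nb G q.1 (nb G q.2 B)).card : ℝ) := by
                exact_mod_cast Finset.card_biUnion_le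
            _ ≤ ∑ q ∈ ((T b) ×ˢ (T b)).filter (fun q => q.1 ≠ q.2), K' := by
                refine Finset.sum_le_sum fun q hq => ?_
                rw [mem_filter, mem_product] at hq
                exact hT4 b hbs q.1 hq.1.1 q.2 hq.1.2 hq.2
            _ = (((T b) ×ˢ (T b)).filter (fun q => q.1 ≠ q.2)).card * K' := by
                rw [Finset.sum_const, nsmul_eq_mul]
            _ ≤ k ^ 2 * K' := by
                refine mul_le_mul_of_nonneg_right ?_ hK'
                have h1 : (((T b) ×ˢ (T b)).filter (fun q => q.1 ≠ q.2)).card ≤ k ^ 2 := by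
                  refine (Finset.card_filter_le _ _).trans ?_
                  rw [Finset.card_product, hT2 b hbs, sq]
                exact_mod_cast h1
  obtain ⟨B'', hB''sub, hB''ind, hB''c⟩ := indep_subset B' Rc
    (by
      rintro x y (h | ⟨h1, u, v, h2, h3, h4, h5, h6⟩)
      · exact Or.inl h.symm
      · exact Or.inr ⟨h1.symm, u, v, h2, h5, h6, h3, h4⟩)
    (by
      rintro x (h | ⟨h1, _⟩)
      · exact G.loopless.irrefl _ h
      · exact h1 rfl) (10 * d + k ^ 2 * K') (fun b hb => by convert hconf b hb)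
  set Δ1 : ℝ := 1 + (10 * d + k ^ 2 * K') with hΔ1
  have hΔ1pos : 0 < Δ1 := by positivity
  have hM : (A.card : ℝ) * (2 * (400 * d * k) ^ k * Δ1) ≤ Bs.card := by
    rw [hΔ1]
    calc (A.card : ℝ) * (2 * (400 * d * k) ^ k * (1 + (10 * d + k ^ 2 * K'))) =
        A.card * (2 * (400 * d * k) ^ k * (10 * d + k ^ 2 * K' + 1)) := by ring
      _ ≤ _ := hsize
  have hpk : p ^ k * (400 * d * k) ^ k = 1 := by
    rw [← mul_pow, hp, one_div, inv_mul_cancel₀ (by positivity), one_pow]
  have hAB'' : (A.card : ℝ) ≤ B''.card := by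
    have h1 : (A.card : ℝ) * Δ1 ≤ B''.card * Δ1 := by
      calc (A.card : ℝ) * Δ1 = (A.card * (2 * (400 * d * k) ^ k * Δ1)) * (p ^ k / 2) := by
            calc (A.card : ℝ) * Δ1 = A.card * Δ1 * (p ^ k * (400 * d * k) ^ k) := by
                  rw [hpk, mul_one]
              _ = _ := by ring
        _ ≤ Bs.card * (p ^ k / 2) := mul_le_mul_of_nonneg_right hM (by positivity)
        _ ≤ B'.card := hB'1
        _ ≤ B''.card * Δ1 := hB''c
    exact le_of_mul_le_mul_right h1 hΔ1pos
  have hB''ne : B''.Nonempty := by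
    rw [← Finset.card_pos]
    have h1 : (0 : ℝ) < Bs.card := by exact_mod_cast Finset.card_pos.mpr hBne
    have h2 : (0 : ℝ) < B'.card := lt_of_lt_of_le (by positivity) hB'1
    have h3 : (0 : ℝ) < B''.card * Δ1 := h2.trans_le hB''c
    have h4 : (0 : ℝ) < B''.card := by
      by_contra hcon
      push Not at hcon
      nlinarith
    exact_mod_cast h4
  have hnbB : ∀ b ∈ B'', nb G b A'' = T b := fun b hb => hnbT b (hB''sub hb)
  have hdis : Disjoint B'' A'' := by
    refine Finset.disjoint_of_subset_left (hB''sub.trans (hB'sub.trans hBs)) ?_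
    refine Finset.disjoint_of_subset_right ((Finset.filter_subset _ _).trans
      Finset.inter_subset_left) hAB.symm
  refine ⟨A'' ∪ B'', hB''ne.mono Finset.subset_union_right, ?_, ?_⟩
  · -- C4-free
    have hBB : ∀ b ∈ B'', ∀ b' ∈ B'', ¬ G.Adj b b' := fun b hb b' hb' h =>
      hB''ind b hb b' hb' (Or.inl h)
    have key : ∀ w ∈ B'', ∀ x ∈ A'' ∪ B'', ∀ y ∈ A'' ∪ B'', ∀ z ∈ A'' ∪ B'', w ≠ y → x ≠ z →
        ¬ (G.Adj w x ∧ G.Adj x y ∧ G.Adj y z ∧ G.Adj z w) := by
      rintro w hw x hx y hy z hz hwy hxz ⟨h1, h2, h3, h4⟩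
      have hxA : x ∈ A'' := by
        rcases mem_union.mp hx with h | h
        · exact h
        · exact absurd h1 (hBB w hw x h)
      have hzA : z ∈ A'' := by
        rcases mem_union.mp hz with h | h
        · exact h
        · exact absurd h4.symm (hBB w hw z h)
      have hyB : y ∈ B'' := by
        rcases mem_union.mp hy with h | h
        · exact absurd h2 (hA''ind x hxA y h)
        · exact h
      refine hB''ind w hw y hyB (Or.inr ⟨hwy, x, z, hxz, ?_, ?_, ?_, ?_⟩)
      · rw [← hnbB w hw, mem_nb]; exact ⟨hxA, h1⟩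
      · rw [← hnbB w hw, mem_nb]; exact ⟨hzA, h4.symm⟩
      · rw [← hnbB y hyB, mem_nb]; exact ⟨hxA, h2.symm⟩
      · rw [← hnbB y hyB, mem_nb]; exact ⟨hzA, h3⟩
    rintro w hw x hx y hy z hz hwy hxz ⟨h1, h2, h3, h4⟩
    rcases mem_union.mp hw with hwA | hwB
    · have hxB : x ∈ B'' := by
        rcases mem_union.mp hx with h | h
        · exact absurd h1 (hA''ind w hwA x h)
        · exact h
      exact key x hxB y hy z hz w hw hxz hwy.symm ⟨h2, h3, h4, h1⟩
    · exact key w hwB x hx y hy z hz hwy hxz ⟨h1, h2, h3, h4⟩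
  · have h1 := two_ee_le G hdis (Finset.subset_union_right (s₁ := A'') (s₂ := B''))
      (Finset.subset_union_left (s₁ := A'') (s₂ := B''))
    have h2 : ee G B'' A'' = B''.card * k := by
      unfold ee
      rw [← smul_eq_mul, ← Finset.sum_const]
      refine Finset.sum_congr rfl fun b hb => ?_
      rw [hnbB b hb]
      exact hT2 b (hB'sub (hB''sub hb))
    have h3 : (A'' ∪ B'').card ≤ A''.card + B''.card := Finset.card_union_le _ _
    have h4 : A''.card ≤ A.card := Finset.card_le_card ((Finset.filter_subset _ _).trans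
      Finset.inter_subset_left)
    have h5 : A.card ≤ B''.card := by exact_mod_cast hAB''
    calc k * (A'' ∪ B'').card ≤ k * (2 * B''.card) := Nat.mul_le_mul_left _ (by omega)
      _ = 2 * ee G B'' A'' := by rw [h2]; ring
      _ ≤ _ := h1

end MP4d84d8
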