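import Mathlib
import Pool.Agent.Lib.MP_4d84d8_co.Success

set_option autoImplicit false

open Finset
open scoped Classical

namespace MP4d84d8

variable {V : Type*}

/-- union bound for tuples -/
lemma exists_tuple (X : Finset V) (k : ℕ) (Rl : V → V → Prop)
    (h : k ^ 2 * ((X ×ˢ X).filter (fun q => Rl q.1 q.2)).card < X.card ^ 2) :
    ∃ x : Fin k → V, (∀ i, x i ∈ X) ∧ ∀ i j, i ≠ j → ¬ Rl (x i) (x j) := by
  by_contra hcon
  push Not at hcon
  have hXpos : 0 < X.card := by
    by_contra h0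
    have : X.card = 0 := by omega
    rw [this] at h
    simp at h
  have hsub : tup k X ⊆ ((univ : Finset (Fin k × Fin k)).filter (fun ij => ij.1 ≠ ij.2)).biUnion
      (fun ij => (tup k X).filter (fun x => Rl (x ij.1) (x ij.2))) := by
    intro x hx
    obtain ⟨i, j, hij, hR⟩ := hcon x (fun i => mem_tup.mp hx i)
    rw [mem_biUnion]
    exact ⟨(i, j), by simp [hij], mem_filter.mpr ⟨hx, hR⟩⟩
  have h1 : X.card ^ 2 * X.card ^ k ≤
      k ^ 2 * (X.card ^ k * ((X ×ˢ X).filter (fun q => Rl q.1 q.2)).card) := by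
    calc X.card ^ 2 * X.card ^ k = X.card ^ 2 * (tup k X).card := by rw [card_tup]
      _ ≤ X.card ^ 2 * ∑ ij ∈ (univ : Finset (Fin k × Fin k)).filter (fun ij => ij.1 ≠ ij.2),
            ((tup k X).filter (fun x => Rl (x ij.1) (x ij.2))).card :=
          Nat.mul_le_mul_left _ ((Finset.card_le_card hsub).trans Finset.card_biUnion_le)
      _ = ∑ ij ∈ (univ : Finset (Fin k × Fin k)).filter (fun ij => ij.1 ≠ ij.2),
            X.card ^ 2 * ((tup k X).filter (fun x => Rl (x ij.1) (x ij.2))).card := by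
          rw [Finset.mul_sum]
      _ = ∑ ij ∈ (univ : Finset (Fin k × Fin k)).filter (fun ij => ij.1 ≠ ij.2),
            X.card ^ k * ((X ×ˢ X).filter (fun q => Rl q.1 q.2)).card := by
          refine Finset.sum_congr rfl fun ij hij => ?_
          exact card_pair_eq X ij.1 ij.2 (mem_filter.mp hij).2 Rl
      _ ≤ _ := by
          rw [Finset.sum_const, smul_eq_mul]
          refine Nat.mul_le_mul_right _ ?_
          refine (Finset.card_filter_le _ _).trans ?_
          rw [Finset.card_univ, Fintype.card_prod, Fintype.card_fin, sq]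
  have h2 : X.card ^ k * (k ^ 2 * ((X ×ˢ X).filter (fun q => Rl q.1 q.2)).card) <
      X.card ^ k * X.card ^ 2 := Nat.mul_lt_mul_of_pos_left h (by positivity)
  have h3 : X.card ^ 2 * X.card ^ k ≤
      X.card ^ k * (k ^ 2 * ((X ×ˢ X).filter (fun q => Rl q.1 q.2)).card) := by
    refine h1.trans (le_of_eq (by ring))
  have h4 : X.card ^ 2 * X.card ^ k = X.card ^ k * X.card ^ 2 := by ring
  omega

/-- high pairs at `b` -/
noncomputable def Hi (G : SimpleGraph V) (A B : Finset V) (K' : ℝ) (b : V) : Finset (V × V) :=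
  ((nb G b A) ×ˢ (nb G b A)).filter (fun q => K' ≤ ((nb G q.2 (nb G q.1 B)).card : ℝ))

lemma codeg_comm (G : SimpleGraph V) (B : Finset V) (x y : V) :
    (nb G x (nb G y B)) = (nb G y (nb G x B)) := by
  ext z; simp only [mem_nb]; tauto

lemma stage [Fintype V] (G : SimpleGraph V) (k : ℕ) (hk : 1 ≤ k) (d θ q K K' : ℝ)
    (hθ : 1000 ≤ θ) (hd : θ ^ 36 ≤ d) (hq : 1 ≤ q)
    (hqk : 16 * q ^ 2 * k ^ 2 ≤ θ ^ 32) (hqk' : 8 * q * k ^ 2 ≤ θ ^ 36)
    (hLS : ∀ U : Finset V, (U.card : ℝ) ≤ θ ^ 2 * d → (ee G U U : ℝ) ≤ d ^ 2 / θ ^ 32)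
    (hnG : ¬ Good G k)
    (up : V → Finset V) (hup1 : ∀ v, ((up v).card : ℝ) ≤ d) (hup0 : ∀ v, ∀ u ∈ up v, G.Adj v u)
    (hup2 : ∀ u v, G.Adj u v → v ∈ up u ∨ u ∈ up v)
    (A B : Finset V) (hAB : Disjoint A B)
    (hBdeg : ∀ b ∈ B, ((nb G b univ).card : ℝ) ≤ 10 * d)
    (hK'0 : 0 ≤ K')
    (hK : ∀ a ∈ A, K ≤ ((nb G a B).card : ℝ)) (he : d / q * B.card ≤ ee G A B)
    (hKK' : 800 * d * q * ((400 * d * k) ^ k * (10 * d + k ^ 2 * K' + 1)) ≤ K) :
    B.card * (d ^ 2 / (320 * q ^ 3 * k ^ 2)) ≤ ∑ b ∈ B, ((Hi G A B K' b).card : ℝ) := by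
  rcases B.eq_empty_or_nonempty with hBe | hBne
  · subst hBe; simp
  have hθ0 : 0 < θ := by linarith
  have hd1 : 1 ≤ d := le_trans (one_le_pow₀ (by linarith)) hd
  have hd0 : 0 < d := by linarith
  have hq0 : 0 < q := by linarith
  have hk0 : (0 : ℝ) < k := by exact_mod_cast hk
  have hBc : (0 : ℝ) < B.card := by exact_mod_cast Finset.card_pos.mpr hBne
  have hBdeg' : ∀ b ∈ B, ∀ Y : Finset V, ((nb G b Y).card : ℝ) ≤ 10 * d := fun b hb Y =>
    le_trans (by exact_mod_cast Finset.card_le_card (nb_mono G b (Finset.subset_univ Y)))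
      (hBdeg b hb)
  have hee : (ee G A B : ℝ) = ∑ b ∈ B, ((nb G b A).card : ℝ) := by
    rw [ee_comm]; unfold ee; push_cast; rfl
  set Bg := B.filter (fun b => d / (2 * q) ≤ ((nb G b A).card : ℝ)) with hBg
  have hBgc : B.card ≤ 20 * q * Bg.card := by
    have h1 : (ee G A B : ℝ) ≤ 10 * d * Bg.card + d / (2 * q) * B.card := by
      rw [hee]
      calc ∑ b ∈ B, ((nb G b A).card : ℝ) ≤ ∑ b ∈ B, ((if d / (2 * q) ≤ ((nb G b A).card : ℝ)
            then 10 * d else 0) + d / (2 * q)) := by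
            refine Finset.sum_le_sum fun b hb => ?_
            split_ifs with h
            · have := hBdeg' b hb A
              have : 0 < d / (2 * q) := by positivity
              linarith
            · linarith
        _ = _ := by
            rw [Finset.sum_add_distrib, ← Finset.sum_filter, Finset.sum_const, Finset.sum_const,
              nsmul_eq_mul, nsmul_eq_mul]
            ring
    have h2 : d / q * B.card = d / (2 * q) * B.card + d / (2 * q) * B.card := by
      field_simp; ring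
    have h3 : d / (2 * q) * B.card ≤ 10 * d * Bg.card := by linarith
    have h4 : (2 * q / d) * (d / (2 * q) * B.card) ≤ (2 * q / d) * (10 * d * Bg.card) :=
      mul_le_mul_of_nonneg_left h3 (by positivity)
    have h5 : (2 * q / d) * (d / (2 * q) * B.card) = B.card := by field_simp
    have h6 : (2 * q / d) * (10 * d * Bg.card) = 20 * q * Bg.card := by field_simp; ring
    linarith
  -- good sets
  obtain ⟨Pr, hPr⟩ : ∃ Pr : V → Prop, ∀ b, Pr b ↔ ∃ T : Finset V, T ⊆ nb G b A ∧ T.card = k ∧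
      (∀ x ∈ T, ∀ y ∈ T, ¬ G.Adj x y) ∧
      (∀ x ∈ T, ∀ y ∈ T, x ≠ y → ((nb G x (nb G y B)).card : ℝ) ≤ K') := ⟨_, fun b => Iff.rfl⟩
  set Bs := Bg.filter Pr with hBs
  have hBgB : Bg ⊆ B := Finset.filter_subset _ _
  have hBsBg : Bs ⊆ Bg := Finset.filter_subset _ _
  have hfew : (2 : ℝ) * Bs.card < Bg.card := by
    by_contra hcon
    push Not at hcon
    apply hnG
    have hex : ∀ b : V, ∃ T : Finset V, b ∈ Bs → (T ⊆ nb G b A ∧ T.card = k ∧
      (∀ x ∈ T, ∀ y ∈ T, ¬ G.Adj x y) ∧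
      (∀ x ∈ T, ∀ y ∈ T, x ≠ y → ((nb G x (nb G y B)).card : ℝ) ≤ K')) := by
      intro b
      by_cases hb : b ∈ Bs
      · obtain ⟨T, hT⟩ := (hPr b).mp (mem_filter.mp hb).2
        exact ⟨T, fun _ => hT⟩
      · exact ⟨∅, fun h => absurd h hb⟩
    choose T hT using hex
    have hBs2 : B.card ≤ 40 * q * Bs.card := by nlinarith
    have hBsne : Bs.Nonempty := by
      rw [← Finset.card_pos]
      have : (0 : ℝ) < Bs.card := by
        by_contra h0
        push Not at h0
        nlinarith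
      exact_mod_cast this
    refine success G k hk d hd1 up hup1 hup0 hup2 A B Bs hAB (hBsBg.trans hBgB) hBsne T K' hK'0
      (fun b hb => (hT b hb).1) (fun b hb => (hT b hb).2.1) (fun b hb => (hT b hb).2.2.1)
      (fun b hb => (hT b hb).2.2.2) hBdeg ?_
    have h1 : K * A.card ≤ 10 * d * B.card := by
      have h2 : K * A.card ≤ (ee G A B : ℝ) := by
        unfold ee
        rw [mul_comm, ← nsmul_eq_mul, ← Finset.sum_const]
        push_cast
        exact Finset.sum_le_sum hK
      have h3 : (ee G A B : ℝ) ≤ 10 * d * B.card := by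
        rw [hee, mul_comm (10 * d), ← nsmul_eq_mul, ← Finset.sum_const]
        exact Finset.sum_le_sum fun b hb => hBdeg' b hb A
      linarith
    set M := (400 * d * k) ^ k * (10 * d + k ^ 2 * K' + 1) with hM
    have hM0 : 0 < M := by positivity
    have h2 : 800 * d * q * M * A.card ≤ 10 * d * (40 * q * Bs.card) := by
      calc 800 * d * q * M * A.card ≤ K * A.card :=
            mul_le_mul_of_nonneg_right hKK' (Nat.cast_nonneg _)
        _ ≤ 10 * d * B.card := h1
        _ ≤ _ := mul_le_mul_of_nonneg_left hBs2 (by positivity)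
    have h3 : (400 * d * q) * (A.card * (2 * M)) ≤ (400 * d * q) * Bs.card := by linarith
    have h4 := le_of_mul_le_mul_left h3 (by positivity)
    calc (A.card : ℝ) * (2 * (400 * d * k) ^ k * (10 * d + k ^ 2 * K' + 1)) = A.card * (2 * M) := by
          rw [hM]; ring
      _ ≤ _ := h4
  -- many high pairs
  have hhigh : ∀ b ∈ Bg \ Bs, d ^ 2 / (8 * q ^ 2 * k ^ 2) ≤ ((Hi G A B K' b).card : ℝ) := by
    intro b hb
    rw [mem_sdiff] at hb
    have hbB := hBgB hb.1
    have hn : d / (2 * q) ≤ ((nb G b A).card : ℝ) := (mem_filter.mp hb.1).2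
    have hnoT : ¬ Pr b := fun h => hb.2 (mem_filter.mpr ⟨hb.1, h⟩)
    rw [hPr] at hnoT
    set X := nb G b A with hX
    set Rl : V → V → Prop := fun x y => x = y ∨ G.Adj x y ∨ K' ≤ ((nb G y (nb G x B)).card : ℝ)
      with hRl
    have hmany : ¬ (k ^ 2 * ((X ×ˢ X).filter (fun q => Rl q.1 q.2)).card < X.card ^ 2) := by
      intro hlt
      obtain ⟨x, hx1, hx2⟩ := exists_tuple X k Rl (by convert hlt)
      apply hnoT
      have hinj : Function.Injective x := by
        intro i j hij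
        by_contra hne
        exact hx2 i j hne (Or.inl hij)
      refine ⟨(univ : Finset (Fin k)).image x, ?_, ?_, ?_, ?_⟩
      · intro v hv
        rw [mem_image] at hv
        obtain ⟨i, _, rfl⟩ := hv
        exact hx1 i
      · rw [Finset.card_image_of_injective _ hinj, Finset.card_univ, Fintype.card_fin]
      · intro u hu v hv huv
        rw [mem_image] at hu hv
        obtain ⟨i, _, rfl⟩ := hu
        obtain ⟨j, _, rfl⟩ := hv
        by_cases hij : i = j
        · subst hij; exact G.loopless.irrefl _ huv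
        · exact hx2 i j hij (Or.inr (Or.inl huv))
      · intro u hu v hv huv
        rw [mem_image] at hu hv
        obtain ⟨i, _, rfl⟩ := hu
        obtain ⟨j, _, rfl⟩ := hv
        have hij : i ≠ j := fun h => huv (by rw [h])
        by_contra hcon
        push Not at hcon
        refine hx2 i j hij (Or.inr (Or.inr ?_))
        rw [codeg_comm]
        exact hcon.le
    push Not at hmany
    have hpairs : ((X ×ˢ X).filter (fun q => Rl q.1 q.2)).card ≤
        X.card + ee G X X + (Hi G A B K' b).card := by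
      have hsub : (X ×ˢ X).filter (fun q => Rl q.1 q.2) ⊆
          ((X ×ˢ X).filter (fun q => q.1 = q.2) ∪ (X ×ˢ X).filter (fun q => G.Adj q.1 q.2)) ∪
            Hi G A B K' b := by
        intro q hq
        rw [mem_filter] at hq
        rw [mem_union, mem_union, mem_filter, mem_filter, Hi, mem_filter]
        rcases hq.2 with h | h | h
        · exact Or.inl (Or.inl ⟨hq.1, h⟩)
        · exact Or.inl (Or.inr ⟨hq.1, h⟩)
        · exact Or.inr ⟨hq.1, h⟩
      refine (Finset.card_le_card hsub).trans ((Finset.card_union_le _ _).trans ?_)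
      refine Nat.add_le_add_right ((Finset.card_union_le _ _).trans ?_) _
      refine Nat.add_le_add ?_ ?_
      · have : (X ×ˢ X).filter (fun q => q.1 = q.2) ⊆ X.image (fun v => (v, v)) := by
          rintro ⟨u, v⟩ hq
          rw [mem_filter, mem_product] at hq
          rw [mem_image]
          refine ⟨u, hq.1.1, ?_⟩
          simp only [Prod.mk.injEq, true_and]
          exact hq.2
        exact (Finset.card_le_card this).trans Finset.card_image_le
      · rw [Finset.card_filter, Finset.sum_product]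
        unfold ee nb
        refine Finset.sum_le_sum fun u _ => ?_
        rw [Finset.card_filter]
    have hXc : (X.card : ℝ) ≤ 10 * d := hBdeg' b hbB A
    have heeX : (ee G X X : ℝ) ≤ d ^ 2 / θ ^ 32 := by
      refine hLS X (hXc.trans ?_)
      have : (10 : ℝ) ≤ θ ^ 2 := by nlinarith
      exact mul_le_mul_of_nonneg_right this hd0.le
    have h1 : (X.card : ℝ) ^ 2 ≤ k ^ 2 * (X.card + ee G X X + (Hi G A B K' b).card) := by
      have : X.card ^ 2 ≤ k ^ 2 * (X.card + ee G X X + (Hi G A B K' b).card) :=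
        hmany.trans (Nat.mul_le_mul_left _ hpairs)
      exact_mod_cast this
    -- X.card ≥ 4k^2 and (X.card)^2/(4k^2) ≥ d^2/θ^32
    have hXpos : 0 < (X.card : ℝ) := lt_of_lt_of_le (by positivity) hn
    have h2 : 4 * (k : ℝ) ^ 2 ≤ X.card := by
      refine le_trans ?_ hn
      rw [le_div_iff₀ (by positivity)]
      calc 4 * (k : ℝ) ^ 2 * (2 * q) = 8 * q * k ^ 2 := by ring
        _ ≤ θ ^ 36 := hqk'
        _ ≤ d := hd
    have h3 : (k : ℝ) ^ 2 * X.card ≤ (X.card : ℝ) ^ 2 / 4 := by nlinarith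
    have h4 : (k : ℝ) ^ 2 * (d ^ 2 / θ ^ 32) ≤ (X.card : ℝ) ^ 2 / 4 := by
      have h5 : (d / (2 * q)) ^ 2 ≤ (X.card : ℝ) ^ 2 := pow_le_pow_left₀ (by positivity) hn 2
      refine le_trans ?_ (div_le_div_of_nonneg_right h5 (by norm_num))
      rw [div_pow, div_div, ← mul_div_assoc, div_le_div_iff₀ (by positivity) (by positivity)]
      calc (k : ℝ) ^ 2 * d ^ 2 * ((2 * q) ^ 2 * 4) = d ^ 2 * (16 * q ^ 2 * k ^ 2) := by ring
        _ ≤ d ^ 2 * θ ^ 32 := mul_le_mul_of_nonneg_left hqk (by positivity)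
    have h5 : (k : ℝ) ^ 2 * ee G X X ≤ (k : ℝ) ^ 2 * (d ^ 2 / θ ^ 32) :=
      mul_le_mul_of_nonneg_left heeX (by positivity)
    have h6 : (X.card : ℝ) ^ 2 / 2 ≤ k ^ 2 * (Hi G A B K' b).card := by nlinarith
    have h7 : (d / (2 * q)) ^ 2 ≤ (X.card : ℝ) ^ 2 := pow_le_pow_left₀ (by positivity) hn 2
    have h8 : (d / (2 * q)) ^ 2 / 2 ≤ k ^ 2 * (Hi G A B K' b).card := by linarith
    have h9 : d ^ 2 / (8 * q ^ 2 * k ^ 2) = ((d / (2 * q)) ^ 2 / 2) / k ^ 2 := by
      field_simp; ring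
    rw [h9, div_le_iff₀ (by positivity)]
    linarith
  calc (B.card : ℝ) * (d ^ 2 / (320 * q ^ 3 * k ^ 2)) ≤
        (20 * q * Bg.card) * (d ^ 2 / (320 * q ^ 3 * k ^ 2)) :=
        mul_le_mul_of_nonneg_right hBgc (by positivity)
    _ = (Bg.card / 2) * (d ^ 2 / (8 * q ^ 2 * k ^ 2)) := by field_simp; ring
    _ ≤ ((Bg \ Bs).card) * (d ^ 2 / (8 * q ^ 2 * k ^ 2)) := by
        refine mul_le_mul_of_nonneg_right ?_ (by positivity)
        have h1 : (Bg \ Bs).card + Bs.card = Bg.card := Finset.card_sdiff_add_card_eq_card hBsBg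
        have h2 : ((Bg \ Bs).card : ℝ) + Bs.card = Bg.card := by exact_mod_cast h1
        linarith
    _ = ∑ b ∈ Bg \ Bs, d ^ 2 / (8 * q ^ 2 * k ^ 2) := by rw [Finset.sum_const, nsmul_eq_mul]
    _ ≤ ∑ b ∈ Bg \ Bs, ((Hi G A B K' b).card : ℝ) := Finset.sum_le_sum hhigh
    _ ≤ ∑ b ∈ B, ((Hi G A B K' b).card : ℝ) :=
        Finset.sum_le_sum_of_subset_of_nonneg (Finset.sdiff_subset.trans hBgB)
          (fun _ _ _ => Nat.cast_nonneg _)

end MP4d84d8
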