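import Mathlib
import Pool.Agent.Lib.MP_4d84d8_co.Stage

set_option autoImplicit false

open Finset
open scoped Classical

namespace MP4d84d8

variable {V : Type*}

/-- common neighbours inside `B` -/
noncomputable def cB (G : SimpleGraph V) {j : ℕ} (x : Fin j → V) (B : Finset V) : Finset V :=
  B.filter (fun c => ∀ i, G.Adj (x i) c)

/-- rich tuples in the neighbourhood of `b` -/
noncomputable def Rt (G : SimpleGraph V) (R j : ℕ) (A B : Finset V) (b : V) : Finset (Fin j → V) :=
  (tup j (nb G b A)).filter (fun x => R ≤ (cB G x B).card)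

noncomputable def Phi (G : SimpleGraph V) (R j : ℕ) (A B : Finset V) : ℕ :=
  ∑ b ∈ B, (Rt G R j A B b).card

/-- the vertices with high codegree with `a` -/
noncomputable def Aa (G : SimpleGraph V) (A B : Finset V) (K' : ℝ) (a : V) : Finset V :=
  A.filter (fun a' => K' ≤ ((nb G a' (nb G a B)).card : ℝ))

lemma sum_swap (G : SimpleGraph V) {M : Type*} [AddCommMonoid M] (A B : Finset V) (f : V → V → M) :
    ∑ a ∈ A, ∑ b ∈ nb G a B, f a b = ∑ b ∈ B, ∑ a ∈ nb G b A, f a b := by
  unfold nb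
  simp_rw [Finset.sum_filter]
  rw [Finset.sum_comm]
  refine Finset.sum_congr rfl fun b _ => Finset.sum_congr rfl fun a _ => ?_
  simp [G.adj_comm]

lemma hi_sum (G : SimpleGraph V) (A B : Finset V) (K' : ℝ) :
    ∑ b ∈ B, (Hi G A B K' b).card = ∑ a ∈ A, ee G (Aa G A B K' a) (nb G a B) := by
  have h1 : ∀ a ∈ A, ee G (Aa G A B K' a) (nb G a B) =
      ∑ b ∈ nb G a B, (nb G b (Aa G A B K' a)).card := by
    intro a _
    rw [ee_comm]; rfl
  rw [Finset.sum_congr rfl h1, sum_swap]
  refine Finset.sum_congr rfl fun b _ => ?_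
  rw [Hi, Finset.card_filter, Finset.sum_product]
  refine Finset.sum_congr rfl fun a _ => ?_
  rw [← Finset.card_filter]
  congr 1
  ext a'
  simp only [mem_filter, mem_nb, Aa]
  tauto

lemma phi_rec (G : SimpleGraph V) (R j : ℕ) (A B Ag : Finset V) (hAg : Ag ⊆ A) (K' : ℝ) :
    ∑ a ∈ Ag, Phi G R j (Aa G A B K' a) (nb G a B) ≤ Phi G R (j + 1) A B := by
  unfold Phi
  rw [sum_swap]
  refine Finset.sum_le_sum fun b hb => ?_
  have h1 : (Rt G R (j + 1) A B b).card =
      ∑ a ∈ nb G b A, ((Rt G R (j + 1) A B b).filter (fun x => x 0 = a)).card := by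
    refine Finset.card_eq_sum_card_fiberwise (f := fun x : Fin (j + 1) → V => x 0) ?_
    intro x hx
    rw [Finset.mem_coe, Rt, mem_filter, mem_tup] at hx
    exact hx.1 0
  rw [h1]
  refine (Finset.sum_le_sum fun a ha => ?_).trans
    (Finset.sum_le_sum_of_subset (nb_mono G b hAg))
  have haA : a ∈ nb G b A := nb_mono G b hAg ha
  have hba : G.Adj b a := (mem_nb.mp haA).2
  refine Finset.card_le_card_of_injOn (fun y => (Fin.cons a y : Fin (j + 1) → V)) ?_ ?_
  · intro y hy
    rw [Finset.mem_coe, Rt, mem_filter, mem_tup] at hy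
    rw [Finset.mem_coe, mem_filter, Rt, mem_filter, mem_tup]
    obtain ⟨hy1, hy2⟩ := hy
    refine ⟨⟨?_, ?_⟩, by simp⟩
    · intro i
      refine Fin.cases ?_ ?_ i
      · simpa using haA
      · intro i
        simp only [Fin.cons_succ]
        have := hy1 i
        rw [mem_nb, Aa, mem_filter] at this
        rw [mem_nb]
        exact ⟨this.1.1, this.2⟩
    · refine hy2.trans (Finset.card_le_card ?_)
      intro c hc
      rw [cB, mem_filter, mem_nb] at hc
      rw [cB, mem_filter]
      refine ⟨hc.1.1, fun i => ?_⟩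
      refine Fin.cases ?_ ?_ i
      · simpa using hc.1.2
      · intro i
        simp only [Fin.cons_succ]
        exact hc.2 i
  · intro y _ y' _ h
    exact (Fin.cons_right_injective (α := fun _ => V) a) h

/-- the sequences of parameters -/
noncomputable def gq (k : ℕ) (q : ℝ) : ℝ := 6400 * k ^ 2 * q ^ 3

noncomputable def Pq (k : ℕ) : ℕ → ℝ → ℝ
  | 0, q => q
  | j + 1, q => Pq k j (gq k q) * gq k q

noncomputable def Kq (θ d : ℝ) (k j : ℕ) : ℝ := (θ * d) ^ ((k + 3) * j + 1)

lemma gq_ge (k : ℕ) (hk : 1 ≤ k) (q : ℝ) (hq : 1 ≤ q) : q ≤ gq k q := by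
  unfold gq
  have hk1 : (1 : ℝ) ≤ k := by exact_mod_cast hk
  have h1 : (1 : ℝ) ≤ k ^ 2 := one_le_pow₀ hk1
  have h2 : q ≤ q ^ 3 := by nlinarith [mul_pos (by linarith : (0 : ℝ) < q) (by linarith : (0 : ℝ) < q)]
  have h3 : 0 < q ^ 3 := by positivity
  nlinarith

lemma Pq_ge (k : ℕ) (hk : 1 ≤ k) (j : ℕ) : ∀ q : ℝ, 1 ≤ q → q ≤ Pq k j q := by
  induction j with
  | zero => intro q _; exact le_rfl
  | succ j ih =>
    intro q hq
    have h1 := gq_ge k hk q hq
    have h2 := ih (gq k q) (hq.trans h1)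
    have h3 : Pq k (j + 1) q = Pq k j (gq k q) * gq k q := rfl
    rw [h3]
    nlinarith

lemma rec_main [Fintype V] (G : SimpleGraph V) (k : ℕ) (hk : 1 ≤ k) (d θ : ℝ) (R : ℕ)
    (hθ : 1000 ≤ θ) (hθk : 400 * (k : ℝ) ≤ θ) (hθk2 : 11 + (k : ℝ) ^ 2 ≤ θ) (hd : θ ^ 36 ≤ d)
    (hR : (R : ℝ) ≤ θ)
    (hLS : ∀ U : Finset V, (U.card : ℝ) ≤ θ ^ 2 * d → (ee G U U : ℝ) ≤ d ^ 2 / θ ^ 32)
    (hnG : ¬ Good G k)
    (up : V → Finset V) (hup1 : ∀ v, ((up v).card : ℝ) ≤ d) (hup0 : ∀ v, ∀ u ∈ up v, G.Adj v u)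
    (hup2 : ∀ u v, G.Adj u v → v ∈ up u ∨ u ∈ up v) (j : ℕ) :
    ∀ q : ℝ, 1 ≤ q → Pq k j q ≤ θ → ∀ A B : Finset V, Disjoint A B →
      (∀ b ∈ B, ((nb G b univ).card : ℝ) ≤ 10 * d) →
      (∀ a ∈ A, Kq θ d k j ≤ ((nb G a B).card : ℝ)) → d / q * B.card ≤ ee G A B →
      d ^ (j + 1) * B.card ≤ Phi G R (j + 1) A B * Pq k j q := by
  have hθ0 : 0 < θ := by linarith
  have hθ1 : 1 ≤ θ := by linarith
  have hd1 : 1 ≤ d := le_trans (one_le_pow₀ (by linarith)) hd
  have hd0 : 0 < d := by linarith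
  have hk0 : (0 : ℝ) < k := by exact_mod_cast hk
  have hk1 : (1 : ℝ) ≤ k := by exact_mod_cast hk
  induction j with
  | zero =>
    intro q hq _ A B hAB hBdeg hK he
    have h1 : (ee G A B : ℝ) ≤ Phi G R (0 + 1) A B := by
      rw [ee_comm]
      unfold ee Phi
      norm_cast
      refine Finset.sum_le_sum fun b hb => ?_
      refine Finset.card_le_card_of_injOn (fun a => (fun _ : Fin (0 + 1) => a)) ?_ ?_
      · intro a ha
        rw [Finset.mem_coe] at ha
        rw [Finset.mem_coe, Rt, mem_filter, mem_tup]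
        refine ⟨fun _ => ha, ?_⟩
        have h2 := hK a (mem_nb.mp ha).1
        have h3 : (R : ℝ) ≤ (nb G a B).card := by
          refine le_trans ?_ h2
          unfold Kq
          rw [mul_zero, zero_add, pow_one]
          nlinarith
        have h4 : R ≤ (nb G a B).card := by exact_mod_cast h3
        refine h4.trans (Finset.card_le_card ?_)
        intro c hc
        rw [mem_nb] at hc
        rw [cB, mem_filter]
        exact ⟨hc.1, fun _ => hc.2⟩
      · intro a _ a' _ h
        exact congrFun h 0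
    have hq0 : 0 < q := by linarith
    have h2 : d ^ (0 + 1) * B.card = (d / q * B.card) * q := by field_simp; ring
    rw [h2]
    exact mul_le_mul_of_nonneg_right (he.trans h1) hq0.le
  | succ j ih =>
    intro q hq hP A B hAB hBdeg hK he
    have hq0 : 0 < q := by linarith
    set q' := gq k q with hq'
    have hqq' : q ≤ q' := gq_ge k hk q hq
    have hq'1 : 1 ≤ q' := hq.trans hqq'
    have hq'0 : 0 < q' := by linarith
    have hPeq : Pq k (j + 1) q = Pq k j q' * q' := rfl
    have hPj : q' ≤ Pq k j q' := Pq_ge k hk j q' hq'1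
    have hPj0 : 0 < Pq k j q' := by linarith
    have hPθ : Pq k j q' ≤ θ := by
      rw [hPeq] at hP
      refine le_trans ?_ hP
      exact le_mul_of_one_le_right hPj0.le hq'1
    have hq'θ : q' ≤ θ := hPj.trans hPθ
    have hqθ : q ≤ θ := hqq'.trans hq'θ
    have hkθ : (k : ℝ) ≤ θ := by linarith
    set K' := Kq θ d k j with hK'
    have hθd : θ ≤ θ * d := le_mul_of_one_le_right hθ0.le hd1
    have hK'd : d ≤ K' := by
      rw [hK']; unfold Kq
      calc d ≤ θ * d := le_mul_of_one_le_left hd0.le hθ1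
        _ = (θ * d) ^ 1 := (pow_one _).symm
        _ ≤ _ := pow_le_pow_right₀ (by linarith) (by omega)
    have hK'0 : 0 < K' := by linarith
    have hKK' : 800 * d * q * ((400 * d * k) ^ k * (10 * d + k ^ 2 * K' + 1)) ≤
        Kq θ d k (j + 1) := by
      have h1 : Kq θ d k (j + 1) = (θ * d) ^ 3 * ((θ * d) ^ k * K') := by
        rw [hK']; unfold Kq
        rw [← pow_add, ← pow_add]
        congr 1
        ring
      rw [h1]
      have h2 : 10 * d + k ^ 2 * K' + 1 ≤ θ * K' := by nlinarith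
      have h3 : (400 * d * k) ^ k ≤ (θ * d) ^ k := by
        refine pow_le_pow_left₀ (by positivity) ?_ k
        nlinarith
      have h4 : (400 * d * k) ^ k * (10 * d + k ^ 2 * K' + 1) ≤ (θ * d) ^ k * (θ * K') :=
        mul_le_mul h3 h2 (by positivity) (by positivity)
      have h5 : 800 * d * q ≤ θ ^ 2 * d := by nlinarith
      calc 800 * d * q * ((400 * d * k) ^ k * (10 * d + k ^ 2 * K' + 1)) ≤
            (θ ^ 2 * d) * ((θ * d) ^ k * (θ * K')) :=
            mul_le_mul h5 h4 (by positivity) (by positivity)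
        _ = (θ ^ 3 * d) * ((θ * d) ^ k * K') := by ring
        _ ≤ (θ * d) ^ 3 * ((θ * d) ^ k * K') := by
            refine mul_le_mul_of_nonneg_right ?_ (by positivity)
            rw [mul_pow]
            refine mul_le_mul_of_nonneg_left ?_ (by positivity)
            calc d = d ^ 1 := (pow_one d).symm
              _ ≤ d ^ 3 := pow_le_pow_right₀ hd1 (by norm_num)
    have hst := stage G k hk d θ q (Kq θ d k (j + 1)) K' hθ hd hq
      (by
        have h1 : q ^ 2 ≤ θ ^ 2 := pow_le_pow_left₀ hq0.le hqθ 2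
        have h2 : (k : ℝ) ^ 2 ≤ θ ^ 2 := pow_le_pow_left₀ hk0.le hkθ 2
        calc 16 * q ^ 2 * k ^ 2 ≤ θ * θ ^ 2 * θ ^ 2 := by
              refine mul_le_mul (mul_le_mul (by linarith) h1 (by positivity) (by positivity)) h2
                (by positivity) (by positivity)
          _ = θ ^ 5 := by ring
          _ ≤ θ ^ 32 := pow_le_pow_right₀ hθ1 (by norm_num))
      (by
        have h2 : (k : ℝ) ^ 2 ≤ θ ^ 2 := pow_le_pow_left₀ hk0.le hkθ 2
        calc 8 * q * k ^ 2 ≤ θ * θ * θ ^ 2 := by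
              refine mul_le_mul (mul_le_mul (by linarith) hqθ (by positivity) (by positivity)) h2
                (by positivity) (by positivity)
          _ = θ ^ 4 := by ring
          _ ≤ θ ^ 36 := pow_le_pow_right₀ hθ1 (by norm_num))
      hLS hnG up hup1 hup0 hup2 A B hAB hBdeg hK'0.le hK he hKK'
    -- good vertices
    set Ag := A.filter (fun a => d / q' * (nb G a B).card ≤ (ee G (Aa G A B K' a) (nb G a B) : ℝ))
      with hAg
    have hAgA : Ag ⊆ A := Finset.filter_subset _ _
    have hsum1 : (∑ b ∈ B, ((Hi G A B K' b).card : ℝ)) =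
        ∑ a ∈ A, (ee G (Aa G A B K' a) (nb G a B) : ℝ) := by
      exact_mod_cast hi_sum G A B K'
    have hBdeg' : ∀ b ∈ B, ∀ Y : Finset V, ((nb G b Y).card : ℝ) ≤ 10 * d := fun b hb Y =>
      le_trans (by exact_mod_cast Finset.card_le_card (nb_mono G b (Finset.subset_univ Y)))
        (hBdeg b hb)
    have hee : (ee G A B : ℝ) ≤ 10 * d * B.card := by
      rw [ee_comm]
      unfold ee
      rw [mul_comm (10 * d), ← nsmul_eq_mul, ← Finset.sum_const]
      push_cast
      exact Finset.sum_le_sum fun b hb => hBdeg' b hb A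
    have hval : d ^ 2 / (320 * q ^ 3 * k ^ 2) = 20 * d * (d / q') := by
      rw [hq']; unfold gq; field_simp; norm_num
    rw [hsum1, hval] at hst
    have hsum2 : ∑ a ∈ A, (ee G (Aa G A B K' a) (nb G a B) : ℝ) ≤
        ∑ a ∈ Ag, (ee G (Aa G A B K' a) (nb G a B) : ℝ) + d / q' * ee G A B := by
      rw [← Finset.sum_filter_add_sum_filter_not A
        (fun a => d / q' * (nb G a B).card ≤ (ee G (Aa G A B K' a) (nb G a B) : ℝ))]
      refine add_le_add le_rfl ?_
      calc ∑ a ∈ A.filter (fun a => ¬ (d / q' * (nb G a B).card ≤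
            (ee G (Aa G A B K' a) (nb G a B) : ℝ))), (ee G (Aa G A B K' a) (nb G a B) : ℝ)
          ≤ ∑ a ∈ A.filter (fun a => ¬ (d / q' * (nb G a B).card ≤
            (ee G (Aa G A B K' a) (nb G a B) : ℝ))), d / q' * (nb G a B).card := by
            refine Finset.sum_le_sum fun a ha => ?_
            have := (mem_filter.mp ha).2
            push Not at this
            exact this.le
        _ ≤ ∑ a ∈ A, d / q' * (nb G a B).card :=
            Finset.sum_le_sum_of_subset_of_nonneg (Finset.filter_subset _ _)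
              (fun _ _ _ => by positivity)
        _ = d / q' * ee G A B := by
            rw [← Finset.mul_sum]; unfold ee; push_cast; rfl
    have hsum3 : 10 * d * (d / q') * B.card ≤
        ∑ a ∈ Ag, (ee G (Aa G A B K' a) (nb G a B) : ℝ) := by
      have h1 : d / q' * ee G A B ≤ d / q' * (10 * d * B.card) :=
        mul_le_mul_of_nonneg_left hee (by positivity)
      nlinarith
    have hsum4 : d / q' * B.card ≤ ∑ a ∈ Ag, ((nb G a B).card : ℝ) := by
      have h1 : ∑ a ∈ Ag, (ee G (Aa G A B K' a) (nb G a B) : ℝ) ≤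
          ∑ a ∈ Ag, 10 * d * ((nb G a B).card : ℝ) := by
        refine Finset.sum_le_sum fun a _ => ?_
        rw [ee_comm]
        unfold ee
        rw [mul_comm (10 * d), ← nsmul_eq_mul, ← Finset.sum_const]
        push_cast
        exact Finset.sum_le_sum fun b hb => hBdeg' b (mem_nb.mp hb).1 _
      rw [← Finset.mul_sum] at h1
      have h2 : (10 * d) * (d / q' * B.card) ≤ (10 * d) * ∑ a ∈ Ag, ((nb G a B).card : ℝ) := by
        linarith
      exact le_of_mul_le_mul_left h2 (by positivity)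
    -- induction hypothesis on the good ones
    have hih : ∀ a ∈ Ag, d ^ (j + 1) * ((nb G a B).card : ℝ) ≤
        Phi G R (j + 1) (Aa G A B K' a) (nb G a B) * Pq k j q' := by
      intro a ha
      refine ih q' hq'1 hPθ (Aa G A B K' a) (nb G a B) ?_ ?_ ?_ (mem_filter.mp ha).2
      · exact Finset.disjoint_of_subset_left (Finset.filter_subset _ _)
          (Finset.disjoint_of_subset_right (nb_subset _ _ _) hAB)
      · exact fun b hb => hBdeg b (mem_nb.mp hb).1
      · intro a' ha'
        exact (mem_filter.mp ha').2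
    have hphi : (∑ a ∈ Ag, (Phi G R (j + 1) (Aa G A B K' a) (nb G a B) : ℝ)) ≤
        Phi G R (j + 1 + 1) A B := by
      exact_mod_cast phi_rec G R (j + 1) A B Ag hAgA K'
    rw [hPeq]
    calc d ^ (j + 1 + 1) * B.card = d ^ (j + 1) * (d / q' * B.card) * q' := by
          field_simp
          ring
      _ ≤ d ^ (j + 1) * (∑ a ∈ Ag, ((nb G a B).card : ℝ)) * q' := by
          refine mul_le_mul_of_nonneg_right ?_ hq'0.le
          exact mul_le_mul_of_nonneg_left hsum4 (by positivity)
      _ = (∑ a ∈ Ag, d ^ (j + 1) * ((nb G a B).card : ℝ)) * q' := by rw [Finset.mul_sum]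
      _ ≤ (∑ a ∈ Ag, Phi G R (j + 1) (Aa G A B K' a) (nb G a B) * Pq k j q') * q' :=
          mul_le_mul_of_nonneg_right (Finset.sum_le_sum hih) hq'0.le
      _ = (∑ a ∈ Ag, (Phi G R (j + 1) (Aa G A B K' a) (nb G a B) : ℝ)) * (Pq k j q' * q') := by
          rw [← Finset.sum_mul]; ring
      _ ≤ _ := mul_le_mul_of_nonneg_right hphi (by positivity)

end MP4d84d8
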