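import Mathlib
import Pool.Agent.Lib.MP_4d84d8_co.Rec

set_option autoImplicit false

open Finset
open scoped Classical

namespace MP4d84d8

variable {V : Type*}

lemma nonind_count (G : SimpleGraph V) (t : ℕ) (X : Finset V) :
    X.card ^ 2 * ((tup t X).filter (fun x => ¬ Ind G x)).card ≤
      t ^ 2 * (X.card ^ t * (X.card + ee G X X)) := by
  obtain ⟨Rl, hRl⟩ : ∃ Rl : V → V → Prop, ∀ x y, Rl x y ↔ (x = y ∨ G.Adj x y) :=
    ⟨_, fun _ _ => Iff.rfl⟩
  have hpairs : ((X ×ˢ X).filter (fun q => Rl q.1 q.2)).card ≤ X.card + ee G X X := by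
    have hsub : (X ×ˢ X).filter (fun q => Rl q.1 q.2) ⊆
        (X ×ˢ X).filter (fun q => q.1 = q.2) ∪ (X ×ˢ X).filter (fun q => G.Adj q.1 q.2) := by
      intro q hq
      rw [mem_filter, hRl] at hq
      rw [mem_union, mem_filter, mem_filter]
      rcases hq.2 with h | h
      · exact Or.inl ⟨hq.1, h⟩
      · exact Or.inr ⟨hq.1, h⟩
    refine (Finset.card_le_card hsub).trans ((Finset.card_union_le _ _).trans ?_)
    refine Nat.add_le_add ?_ ?_
    · have : (X ×ˢ X).filter (fun q => q.1 = q.2) ⊆ X.image (fun v => (v, v)) := by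
        rintro ⟨u, v⟩ hq
        rw [mem_filter, mem_product] at hq
        rw [mem_image]
        refine ⟨u, hq.1.1, ?_⟩
        simp only [Prod.mk.injEq, true_and]
        exact hq.2
      exact (Finset.card_le_card this).trans Finset.card_image_le
    · rw [Finset.card_filter, Finset.sum_product]
      unfold ee nb
      refine Finset.sum_le_sum fun u _ => ?_
      rw [Finset.card_filter]
  have hsub : (tup t X).filter (fun x => ¬ Ind G x) ⊆
      ((univ : Finset (Fin t × Fin t)).filter (fun ij => ij.1 ≠ ij.2)).biUnion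
        (fun ij => (tup t X).filter (fun x => Rl (x ij.1) (x ij.2))) := by
    intro x hx
    rw [mem_filter] at hx
    obtain ⟨hx1, hx2⟩ := hx
    unfold Ind at hx2
    push Not at hx2
    obtain ⟨i, j, hij, h⟩ := hx2
    rw [mem_biUnion]
    refine ⟨(i, j), by simp [hij], mem_filter.mpr ⟨hx1, ?_⟩⟩
    rw [hRl]
    by_cases hh : x i = x j
    · exact Or.inl hh
    · exact Or.inr (h hh)
  calc X.card ^ 2 * ((tup t X).filter (fun x => ¬ Ind G x)).card
      ≤ X.card ^ 2 * ∑ ij ∈ (univ : Finset (Fin t × Fin t)).filter (fun ij => ij.1 ≠ ij.2),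
            ((tup t X).filter (fun x => Rl (x ij.1) (x ij.2))).card :=
          Nat.mul_le_mul_left _ ((Finset.card_le_card hsub).trans Finset.card_biUnion_le)
    _ = ∑ ij ∈ (univ : Finset (Fin t × Fin t)).filter (fun ij => ij.1 ≠ ij.2),
            X.card ^ 2 * ((tup t X).filter (fun x => Rl (x ij.1) (x ij.2))).card := by
          rw [Finset.mul_sum]
    _ = ∑ ij ∈ (univ : Finset (Fin t × Fin t)).filter (fun ij => ij.1 ≠ ij.2),
            X.card ^ t * ((X ×ˢ X).filter (fun q => Rl q.1 q.2)).card := by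
          refine Finset.sum_congr rfl fun ij hij => ?_
          exact card_pair_eq X ij.1 ij.2 (mem_filter.mp hij).2 Rl
    _ ≤ ∑ ij ∈ (univ : Finset (Fin t × Fin t)).filter (fun ij => ij.1 ≠ ij.2),
            X.card ^ t * (X.card + ee G X X) :=
          Finset.sum_le_sum fun ij _ => Nat.mul_le_mul_left _ hpairs
    _ ≤ _ := by
          rw [Finset.sum_const, smul_eq_mul]
          refine Nat.mul_le_mul_right _ ?_
          refine (Finset.card_filter_le _ _).trans ?_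
          rw [Finset.card_univ, Fintype.card_prod, Fintype.card_fin, sq]

lemma caseIII [Fintype V] (G : SimpleGraph V) (k : ℕ) (hk : 1 ≤ k) (t R : ℕ) (ht : 1 ≤ t)
    (d θ : ℝ)
    (hθ : 1000 ≤ θ) (hθk : 400 * (k : ℝ) ≤ θ) (hθk2 : 11 + (k : ℝ) ^ 2 ≤ θ) (hd : θ ^ 36 ≤ d)
    (hR : (R : ℝ) ≤ θ)
    (hLS : ∀ U : Finset V, (U.card : ℝ) ≤ θ ^ 2 * d → (ee G U U : ℝ) ≤ d ^ 2 / θ ^ 32)
    (hF : Few G k t R)
    (hnG : ¬ Good G k)
    (up : V → Finset V) (hup1 : ∀ v, ((up v).card : ℝ) ≤ d) (hup0 : ∀ v, ∀ u ∈ up v, G.Adj v u)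
    (hup2 : ∀ u v, G.Adj u v → v ∈ up u ∨ u ∈ up v)
    (hP : Pq k (t - 1) 34 ≤ θ) (hc : 4 * (10 ^ t * (2 ^ t * t * k + t ^ 2) : ℝ) ≤ θ)
    (A B : Finset V) (hAB : Disjoint A B) (hB : B.Nonempty)
    (hBdeg : ∀ b ∈ B, ((nb G b univ).card : ℝ) ≤ 10 * d)
    (hK : ∀ a ∈ A, Kq θ d k (t - 1) ≤ ((nb G a B).card : ℝ)) (he : d / 34 * B.card ≤ ee G A B) :
    False := by
  have hθ0 : 0 < θ := by linarith
  have hθ1 : 1 ≤ θ := by linarith
  have hd1 : 1 ≤ d := le_trans (one_le_pow₀ (by linarith)) hd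
  have hd0 : 0 < d := by linarith
  set P := Pq k (t - 1) 34 with hPdef
  have hP1 : 1 ≤ P := le_trans (by norm_num) (Pq_ge k hk (t - 1) 34 (by norm_num))
  have hP0 : 0 < P := by linarith
  have hrec := rec_main G k hk d θ R hθ hθk hθk2 hd hR hLS hnG up hup1 hup0 hup2 (t - 1) 34
    (by norm_num) hP A B hAB hBdeg hK he
  rw [Nat.sub_add_cancel ht] at hrec
  have hex : ∃ b ∈ B, d ^ t ≤ ((Rt G R t A B b).card : ℝ) * P := by
    by_contra hcon
    push Not at hcon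
    have h1 := Finset.sum_lt_sum_of_nonempty hB hcon
    rw [← Finset.sum_mul, Finset.sum_const, nsmul_eq_mul] at h1
    have h2 : (Phi G R t A B : ℝ) = ∑ b ∈ B, ((Rt G R t A B b).card : ℝ) := by
      unfold Phi; push_cast; rfl
    rw [h2] at hrec
    linarith
  obtain ⟨b, hb, hbr⟩ := hex
  set X := nb G b A with hX
  set ρ := (Rt G R t A B b).card with hρ
  have hnc : (X.card : ℝ) ≤ 10 * d :=
    le_trans (by exact_mod_cast Finset.card_le_card (nb_mono G b (Finset.subset_univ A)))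
      (hBdeg b hb)
  set IR := ((tup t X).filter (fun x => Ind G x ∧ R ≤ (cn G x).card)).card with hIR
  set NI := ((tup t X).filter (fun x => ¬ Ind G x)).card with hNI
  have h1 : ρ ≤ IR + NI := by
    rw [hρ, hIR, hNI]
    refine (Finset.card_le_card ?_).trans (Finset.card_union_le _ _)
    intro x hx
    rw [Rt, mem_filter] at hx
    rw [mem_union, mem_filter, mem_filter]
    by_cases h : Ind G x
    · left
      refine ⟨hx.1, h, hx.2.trans (Finset.card_le_card ?_)⟩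
      intro c hc
      rw [cB, mem_filter] at hc
      simp only [cn, mem_filter, mem_univ, true_and]
      exact hc.2
    · exact Or.inr ⟨hx.1, h⟩
  have h2 : X.card * IR ≤ 2 ^ t * t * k * X.card ^ t := hF X
  have h3 : X.card ^ 2 * NI ≤ t ^ 2 * (X.card ^ t * (X.card + ee G X X)) := nonind_count G t X
  have hρn : ρ ≤ X.card ^ t := by
    rw [hρ, ← card_tup]
    exact Finset.card_filter_le _ _
  have heeX : (ee G X X : ℝ) ≤ d ^ 2 / θ ^ 32 := by
    refine hLS X (hnc.trans ?_)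
    have : (10 : ℝ) ≤ θ ^ 2 := by nlinarith
    exact mul_le_mul_of_nonneg_right this hd0.le
  set n : ℝ := (X.card : ℝ) with hn
  have hn0 : 0 ≤ n := Nat.cast_nonneg _
  have h1' : (ρ : ℝ) ≤ IR + NI := by exact_mod_cast h1
  have h2' : n * IR ≤ 2 ^ t * t * k * n ^ t := by rw [hn]; exact_mod_cast h2
  have h3' : n ^ 2 * NI ≤ t ^ 2 * (n ^ t * (n + ee G X X)) := by rw [hn]; exact_mod_cast h3
  have hρn' : (ρ : ℝ) ≤ n ^ t := by rw [hn]; exact_mod_cast hρn
  have hnt : n ^ t ≤ 10 ^ t * d ^ t := by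
    rw [← mul_pow]
    exact pow_le_pow_left₀ hn0 hnc t
  have hdt0 : 0 < d ^ t := by positivity
  -- lower bound for n
  have hnP : d ≤ n * P := by
    have h4 : d ^ t ≤ (n * P) ^ t := by
      rw [mul_pow]
      calc d ^ t ≤ ρ * P := hbr
        _ ≤ n ^ t * P := mul_le_mul_of_nonneg_right hρn' hP0.le
        _ ≤ n ^ t * P ^ t := mul_le_mul_of_nonneg_left (le_self_pow₀ hP1 (by omega)) (by positivity)
    exact le_of_pow_le_pow_left₀ (by omega) (by positivity) h4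
  have hnpos : 0 < n := by
    by_contra h0
    push Not at h0
    have : n = 0 := le_antisymm h0 hn0
    rw [this, zero_mul] at hnP
    linarith
  have h4 : n ^ 2 * ρ ≤ n ^ t * ((2 ^ t * t * k + t ^ 2) * n + t ^ 2 * (d ^ 2 / θ ^ 32)) := by
    have h5 : n ^ 2 * ρ ≤ n * (n * IR) + n ^ 2 * NI := by nlinarith [sq_nonneg n]
    have h6 : n * (n * IR) ≤ n * (2 ^ t * t * k * n ^ t) := mul_le_mul_of_nonneg_left h2' hn0
    have h7 : (t : ℝ) ^ 2 * (n ^ t * (n + ee G X X)) ≤ t ^ 2 * (n ^ t * (n + d ^ 2 / θ ^ 32)) := by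
      gcongr
    nlinarith
  have h5 : n ^ 2 ≤ 10 ^ t * P * ((2 ^ t * t * k + t ^ 2) * n + t ^ 2 * (d ^ 2 / θ ^ 32)) := by
    have h6 : d ^ t * n ^ 2 ≤ d ^ t * (10 ^ t * P * ((2 ^ t * t * k + t ^ 2) * n +
        t ^ 2 * (d ^ 2 / θ ^ 32))) := by
      calc d ^ t * n ^ 2 ≤ (ρ * P) * n ^ 2 := mul_le_mul_of_nonneg_right hbr (by positivity)
        _ = P * (n ^ 2 * ρ) := by ring
        _ ≤ P * (n ^ t * ((2 ^ t * t * k + t ^ 2) * n + t ^ 2 * (d ^ 2 / θ ^ 32))) :=
            mul_le_mul_of_nonneg_left h4 hP0.le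
        _ ≤ P * ((10 ^ t * d ^ t) * ((2 ^ t * t * k + t ^ 2) * n + t ^ 2 * (d ^ 2 / θ ^ 32))) := by
            gcongr
        _ = _ := by ring
    exact le_of_mul_le_mul_left h6 hdt0
  set c0 : ℝ := 10 ^ t * (2 ^ t * t * k + t ^ 2) with hc0
  have hc1 : 10 ^ t * (t : ℝ) ^ 2 ≤ c0 := by
    rw [hc0]
    refine mul_le_mul_of_nonneg_left ?_ (by positivity)
    have : (0 : ℝ) ≤ 2 ^ t * t * k := by positivity
    linarith
  have hθ36 : θ ^ 2 ≤ n := by
    have h6 : θ ^ 36 ≤ n * θ := by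
      calc θ ^ 36 ≤ d := hd
        _ ≤ n * P := hnP
        _ ≤ n * θ := mul_le_mul_of_nonneg_left hP hn0
    have h7 : θ ^ 35 * θ ≤ n * θ := by
      calc θ ^ 35 * θ = θ ^ 36 := by ring
        _ ≤ _ := h6
    have h8 := le_of_mul_le_mul_right h7 hθ0
    exact le_trans (pow_le_pow_right₀ hθ1 (by norm_num)) h8
  have h6 : c0 * P * n ≤ n ^ 2 / 4 := by
    have h7 : c0 * P ≤ θ / 4 * θ := mul_le_mul (by linarith) hP hP0.le (by positivity)
    have h8 : c0 * P ≤ n / 4 := by nlinarith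
    calc c0 * P * n ≤ n / 4 * n := mul_le_mul_of_nonneg_right h8 hn0
      _ = n ^ 2 / 4 := by ring
  have h7 : 10 ^ t * (t : ℝ) ^ 2 * P * (d ^ 2 / θ ^ 32) ≤ n ^ 2 / 4 := by
    have h8 : 10 ^ t * (t : ℝ) ^ 2 * P ≤ θ / 4 * θ :=
      mul_le_mul (by linarith) hP hP0.le (by positivity)
    have h9 : d ^ 2 ≤ n ^ 2 * θ ^ 2 := by
      rw [← mul_pow]
      refine pow_le_pow_left₀ hd0.le (hnP.trans (mul_le_mul_of_nonneg_left hP hn0)) 2
    calc 10 ^ t * (t : ℝ) ^ 2 * P * (d ^ 2 / θ ^ 32) ≤ (θ / 4 * θ) * (n ^ 2 * θ ^ 2 / θ ^ 32) := by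
          gcongr
      _ = n ^ 2 / 4 * (1 / θ ^ 28) := by field_simp
      _ ≤ n ^ 2 / 4 * 1 := by
          refine mul_le_mul_of_nonneg_left ?_ (by positivity)
          rw [div_le_one (by positivity)]
          exact one_le_pow₀ hθ1
      _ = _ := mul_one _
  have h8 : 10 ^ t * P * ((2 ^ t * t * k + t ^ 2) * n + t ^ 2 * (d ^ 2 / θ ^ 32)) =
      c0 * P * n + 10 ^ t * (t : ℝ) ^ 2 * P * (d ^ 2 / θ ^ 32) := by
    rw [hc0]; ring
  have h9 : 0 < n ^ 2 := by positivity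
  linarith

end MP4d84d8
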