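import Mathlib
import Pool.Agent.Lib.MP_4d84d8_co.CaseIII

set_option autoImplicit false

open Finset
open scoped Classical

namespace MP4d84d8

variable {V : Type*}

lemma ls_real (G : SimpleGraph V) (s t R : ℕ) (ht : 1 ≤ t)
    (hls : ∀ U : Finset V, (ee G U U) ^ t ≤ Lam s t R * U.card ^ (2 * t - 1))
    (d θ : ℝ) (hθ : 1000 ≤ θ) (hd : θ ^ (36 * t) = d) (hΛ : (Lam s t R : ℝ) ≤ θ)
    (U : Finset V) (hU : (U.card : ℝ) ≤ θ ^ 2 * d) : (ee G U U : ℝ) ≤ d ^ 2 / θ ^ 32 := by
  have hθ0 : 0 < θ := by linarith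
  have hθ1 : 1 ≤ θ := by linarith
  have hd0 : 0 < d := by rw [← hd]; positivity
  obtain ⟨m, rfl⟩ : ∃ m, t = m + 1 := ⟨t - 1, by omega⟩
  have h1 := hls U
  have h2 : (ee G U U : ℝ) ^ (m + 1) ≤ Lam s (m + 1) R * (U.card : ℝ) ^ (2 * m + 1) := by
    have : 2 * (m + 1) - 1 = 2 * m + 1 := by omega
    rw [this] at h1
    exact_mod_cast h1
  have h3 : (ee G U U : ℝ) ^ (m + 1) ≤ (d ^ 2 / θ ^ 32) ^ (m + 1) := by
    rw [div_pow, le_div_iff₀ (by positivity)]
    calc (ee G U U : ℝ) ^ (m + 1) * (θ ^ 32) ^ (m + 1) ≤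
          (Lam s (m + 1) R * (U.card : ℝ) ^ (2 * m + 1)) * (θ ^ 32) ^ (m + 1) :=
          mul_le_mul_of_nonneg_right h2 (by positivity)
      _ ≤ (θ * (θ ^ 2 * d) ^ (2 * m + 1)) * (θ ^ 32) ^ (m + 1) := by gcongr
      _ = θ ^ (36 * m + 35) * d ^ (2 * m + 1) := by
          rw [mul_pow, ← pow_mul, ← pow_mul]
          have : θ * (θ ^ (2 * (2 * m + 1)) * d ^ (2 * m + 1)) * θ ^ (32 * (m + 1)) =
            (θ ^ 1 * θ ^ (2 * (2 * m + 1)) * θ ^ (32 * (m + 1))) * d ^ (2 * m + 1) := by ring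
          rw [this, ← pow_add, ← pow_add]
          congr 2
          ring
      _ ≤ θ ^ (36 * (m + 1)) * d ^ (2 * m + 1) := by
          refine mul_le_mul_of_nonneg_right ?_ (by positivity)
          exact pow_le_pow_right₀ hθ1 (by omega)
      _ = (d ^ 2) ^ (m + 1) := by
          rw [hd, ← pow_mul]
          have : 2 * (m + 1) = (2 * m + 1) + 1 := by ring
          rw [this, pow_succ]; ring
  exact le_of_pow_le_pow_left₀ (by omega) (by positivity) h3

lemma ee_sum_nb (G : SimpleGraph V) (A B : Finset V) :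
    (ee G A B : ℝ) = ∑ a ∈ A, ((nb G a B).card : ℝ) := by
  unfold ee; push_cast; rfl

lemma ee_ge_of (G : SimpleGraph V) (A B : Finset V) (c : ℝ)
    (h : ∀ a ∈ A, c ≤ ((nb G a B).card : ℝ)) : c * A.card ≤ ee G A B := by
  rw [ee_sum_nb, mul_comm, ← nsmul_eq_mul, ← Finset.sum_const]
  exact Finset.sum_le_sum h

lemma ee_le_of (G : SimpleGraph V) (A B : Finset V) (c : ℝ)
    (h : ∀ a ∈ A, ((nb G a B).card : ℝ) ≤ c) : (ee G A B : ℝ) ≤ c * A.card := by
  rw [ee_sum_nb, mul_comm, ← nsmul_eq_mul, ← Finset.sum_const]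
  exact Finset.sum_le_sum h

lemma bipart [Fintype V] (G : SimpleGraph V) (d : ℝ) (_hd : 0 < d)
    (hmad : ∀ U : Finset V, (ee G U U : ℝ) ≤ d * U.card)
    (htot : (ee G univ univ : ℝ) = d * Fintype.card V) :
    ∃ A B : Finset V, Disjoint A B ∧ (∀ b ∈ B, ((nb G b univ).card : ℝ) ≤ 10 * d) ∧
      9 / 80 * (d * Fintype.card V) ≤ (ee G A B : ℝ) := by
  set N : ℝ := (Fintype.card V : ℝ) with hN
  set L : Finset V := univ.filter (fun b => ((nb G b univ).card : ℝ) ≤ 10 * d) with hL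
  have h1 : (ee G univ univ : ℕ) = ee G (univ \ L) univ + ee G L univ := by
    have := ee_split G univ univ L
    rwa [Finset.univ_inter] at this
  have h2 : ee G (univ \ L) univ = ee G (univ \ L) (univ \ L) + ee G (univ \ L) L := by
    rw [ee_comm G (univ \ L) univ, ee_split G univ (univ \ L) L, Finset.univ_inter,
      ee_comm G L (univ \ L)]
  have h3 : ee G (univ \ L) L ≤ ee G L univ := by
    rw [ee_comm]
    exact ee_mono G le_rfl (Finset.subset_univ _)
  have h4 : 10 * d * (univ \ L).card ≤ (ee G (univ \ L) univ : ℝ) := by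
    refine ee_ge_of G _ _ _ fun a ha => ?_
    rw [mem_sdiff, hL, mem_filter, not_and] at ha
    have := ha.2 (mem_univ _)
    push Not at this
    exact this.le
  have h5 : (ee G (univ \ L) univ : ℝ) ≤ ee G univ univ := by
    exact_mod_cast ee_mono G (Finset.subset_univ _) le_rfl
  have h6 : d * (univ \ L).card ≤ d * N / 10 := by
    rw [htot] at h5; linarith
  have h7 := hmad (univ \ L)
  have h8 : 9 / 20 * (d * N) ≤ (ee G L univ : ℝ) := by
    have h1' : (ee G univ univ : ℝ) = ee G (univ \ L) univ + ee G L univ := by exact_mod_cast h1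
    have h2' : (ee G (univ \ L) univ : ℝ) = ee G (univ \ L) (univ \ L) + ee G (univ \ L) L := by
      exact_mod_cast h2
    have h3' : (ee G (univ \ L) L : ℝ) ≤ ee G L univ := by exact_mod_cast h3
    linarith
  set F : Finset V → ℝ := fun S => ∑ b ∈ L, ∑ a ∈ nb G b univ,
    if ({b} : Finset V) ⊆ S ∧ Disjoint {a} S then 1 else 0 with hF
  obtain ⟨S, hS⟩ := exists_ge_EE (fun _ : V => (1 / 2 : ℝ)) (fun _ => by norm_num)
    (fun _ => by norm_num) F
  have hE : EE (fun _ : V => (1 / 2 : ℝ)) F = 1 / 4 * ee G L univ := by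
    rw [hF, EE_sum, ee_sum_nb, Finset.mul_sum]
    refine Finset.sum_congr rfl fun b _ => ?_
    rw [EE_sum]
    have : ∀ a ∈ nb G b univ, EE (fun _ : V => (1 / 2 : ℝ))
        (fun S => if ({b} : Finset V) ⊆ S ∧ Disjoint {a} S then 1 else 0) = 1 / 4 := by
      intro a ha
      have hab : b ≠ a := (mem_nb.mp ha).2.ne
      rw [EE_ind2 _ _ _ (by simpa using hab)]
      simp; norm_num
    rw [Finset.sum_congr rfl this, Finset.sum_const, nsmul_eq_mul]
    ring
  have hFS : F S = ee G (L ∩ S) (univ \ S) := by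
    rw [ee_sum_nb]
    simp only [hF]
    have : ∀ b ∈ L, (∑ a ∈ nb G b univ, if ({b} : Finset V) ⊆ S ∧ Disjoint {a} S then (1 : ℝ)
        else 0) = if b ∈ S then ((nb G b (univ \ S)).card : ℝ) else 0 := by
      intro b _
      split_ifs with hb
      · rw [← Finset.sum_filter, Finset.sum_const, nsmul_eq_mul, mul_one]
        congr 2
        ext a
        simp only [mem_filter, mem_nb, mem_univ, true_and, mem_sdiff,
          Finset.singleton_subset_iff, hb, Finset.disjoint_singleton_left]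
        tauto
      · refine Finset.sum_eq_zero fun a _ => ?_
        rw [if_neg]
        intro hh
        exact hb (Finset.singleton_subset_iff.mp hh.1)
    rw [Finset.sum_congr rfl this, ← Finset.sum_filter]
    refine Finset.sum_congr ?_ fun _ _ => rfl
    ext a; simp
  refine ⟨univ \ S, L ∩ S, ?_, ?_, ?_⟩
  · rw [Finset.disjoint_left]
    intro v hv hv'
    rw [mem_sdiff] at hv
    rw [mem_inter] at hv'
    exact hv.2 hv'.2
  · intro b hb
    rw [mem_inter, hL, mem_filter] at hb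
    exact hb.1.2
  · rw [ee_comm, ← hFS]
    rw [hE] at hS
    linarith

lemma exists_scale (c θ x : ℝ) (J : ℕ) (h1 : c ≤ x) (h2 : x < θ ^ J * c) :
    ∃ j < J, θ ^ j * c ≤ x ∧ x < θ ^ (j + 1) * c := by
  induction J with
  | zero =>
    rw [pow_zero, one_mul] at h2
    linarith
  | succ J ih =>
    by_cases h : x < θ ^ J * c
    · obtain ⟨j, hj, h3⟩ := ih h
      exact ⟨j, by omega, h3⟩
    · push Not at h
      exact ⟨J, by omega, h, h2⟩

lemma mainG [Fintype V] [Nonempty V] (G : SimpleGraph V) (s t R : ℕ) (hs : 1 ≤ s) (ht : 1 ≤ t)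
    (hR1 : 1 ≤ R) (hG : NoBic G s) (hF : Few G s t R) (d θ : ℝ)
    (hd : θ ^ (36 * t) = d)
    (p1 : 2 * 10 ^ 9 ≤ θ) (p2 : 400 * (s : ℝ) ≤ θ) (p2' : 11 + (s : ℝ) ^ 2 ≤ θ)
    (p3 : (R : ℝ) ≤ θ) (p3' : (Lam s t R : ℝ) ≤ θ) (p4 : Pq s (t - 1) 34 ≤ θ)
    (p5 : 4 * (10 ^ t * (2 ^ t * t * s + t ^ 2) : ℝ) ≤ θ)
    (p6 : 45 * (((36 * t + 1) * ((s + 3) * t) : ℕ) : ℝ) ≤ θ)
    (hmad : ∀ U : Finset V, (ee G U U : ℝ) ≤ d * U.card)
    (htot : (ee G univ univ : ℝ) = d * Fintype.card V) : Good G s := by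
  by_contra hnG
  have hθ0 : 0 < θ := by linarith
  have hθ1 : 1 ≤ θ := by linarith
  have hθ1000 : 1000 ≤ θ := by linarith
  have hd0 : 0 < d := by rw [← hd]; positivity
  have hd36 : θ ^ 36 ≤ d := by
    rw [← hd]; exact pow_le_pow_right₀ hθ1 (by omega)
  have hd1 : 1 ≤ d := le_trans (one_le_pow₀ hθ1) hd36
  have hLS := ls_real G s t R ht (ls G s hs hG t R ht hR1 hF) d θ hθ1000 hd p3'
  obtain ⟨up, hup1, hup0, hup2'⟩ := exists_up G d hd0.le hmad (Fintype.card V) univ
    Finset.card_univ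
  have hup2 : ∀ u v, G.Adj u v → v ∈ up u ∨ u ∈ up v := fun u v h =>
    hup2' u (mem_univ _) v (mem_univ _) h
  obtain ⟨A, B, hAB, hBdeg, hAe⟩ := bipart G d hd0 hmad htot
  set N : ℝ := (Fintype.card V : ℝ) with hN
  have hN0 : 0 < N := by rw [hN]; exact_mod_cast Fintype.card_pos
  have hdN : 0 < d * N := by positivity
  have hBN : (B.card : ℝ) ≤ N := by rw [hN]; exact_mod_cast Finset.card_le_univ B
  have hAN : (A.card : ℝ) ≤ N := by rw [hN]; exact_mod_cast Finset.card_le_univ A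
  have hBne : B.Nonempty := by
    rw [Finset.nonempty_iff_ne_empty]
    intro h0
    rw [h0] at hAe
    have : ee G A ∅ = 0 := by simp [ee, nb]
    rw [this] at hAe
    push_cast at hAe
    linarith
  set J : ℕ := (36 * t + 1) * ((s + 3) * t) with hJ
  have hJ1 : 1 ≤ J := by rw [hJ]; exact Nat.one_le_iff_ne_zero.mpr (by positivity)
  set M : ℝ := θ ^ J * (d / 20) with hM
  have hKM : Kq θ d s (t - 1) ≤ M := by
    have h1 : θ * d = θ ^ (36 * t + 1) := by rw [← hd]; ring
    have h2 : Kq θ d s (t - 1) ≤ θ ^ J := by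
      unfold Kq
      rw [h1, ← pow_mul]
      refine pow_le_pow_right₀ hθ1 ?_
      rw [hJ]
      refine Nat.mul_le_mul_left _ ?_
      obtain ⟨m, rfl⟩ : ∃ m, t = m + 1 := ⟨t - 1, by omega⟩
      simp only [Nat.add_sub_cancel]
      nlinarith
    have h3 : (1 : ℝ) ≤ d / 20 := by
      rw [le_div_iff₀ (by norm_num)]
      have : θ ^ 1 ≤ θ ^ 36 := pow_le_pow_right₀ hθ1 (by norm_num)
      rw [pow_one] at this
      linarith
    rw [hM]
    have h4 : 0 < θ ^ J := by positivity
    nlinarith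
  -- Case III
  by_cases hIII : 3 / 100 * (d * N) ≤ (ee G (A.filter (fun a => M ≤ ((nb G a B).card : ℝ))) B : ℝ)
  · refine caseIII G s hs t R ht d θ hθ1000 p2 p2' hd36 p3 hLS hF hnG up hup1 hup0 hup2 p4 p5
      (A.filter (fun a => M ≤ ((nb G a B).card : ℝ))) B
      (Finset.disjoint_of_subset_left (Finset.filter_subset _ _) hAB) hBne hBdeg
      (fun a ha => hKM.trans (mem_filter.mp ha).2) ?_
    refine le_trans ?_ hIII
    have h1 : d * B.card ≤ d * N := mul_le_mul_of_nonneg_left hBN hd0.le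
    have h2 : d / 34 * B.card = (d * B.card) / 34 := by ring
    rw [h2]
    linarith
  push Not at hIII
  -- Case II
  set C : ℕ → Finset V := fun j => A.filter (fun a => θ ^ j * (d / 20) ≤ ((nb G a B).card : ℝ) ∧
    ((nb G a B).card : ℝ) < θ ^ (j + 1) * (d / 20)) with hC
  have hsum : (ee G A B : ℝ) ≤ (ee G (A.filter (fun a => M ≤ ((nb G a B).card : ℝ))) B : ℝ) +
      d / 20 * N + ∑ j ∈ Finset.range J, (ee G (C j) B : ℝ) := by
    have h1 : ∀ a ∈ A, ((nb G a B).card : ℝ) ≤ (if M ≤ ((nb G a B).card : ℝ) then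
        ((nb G a B).card : ℝ) else 0) + d / 20 + ∑ j ∈ Finset.range J,
        (if θ ^ j * (d / 20) ≤ ((nb G a B).card : ℝ) ∧
          ((nb G a B).card : ℝ) < θ ^ (j + 1) * (d / 20) then ((nb G a B).card : ℝ) else 0) := by
      intro a _
      have hnn : ∀ j ∈ Finset.range J, (0 : ℝ) ≤ (if θ ^ j * (d / 20) ≤ ((nb G a B).card : ℝ) ∧
          ((nb G a B).card : ℝ) < θ ^ (j + 1) * (d / 20) then ((nb G a B).card : ℝ) else 0) := by
        intro j _; split_ifs <;> positivity
      have hnn' := Finset.sum_nonneg hnn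
      by_cases hM1 : M ≤ ((nb G a B).card : ℝ)
      · rw [if_pos hM1]
        linarith
      · rw [if_neg hM1]
        push Not at hM1
        by_cases hlow : d / 20 ≤ ((nb G a B).card : ℝ)
        · obtain ⟨j, hj, h3, h4⟩ := exists_scale (d / 20) θ _ J hlow hM1
          have h5 := Finset.single_le_sum hnn (Finset.mem_range.mpr hj)
          rw [if_pos ⟨h3, h4⟩] at h5
          have : 0 < d / 20 := by positivity
          linarith
        · push Not at hlow
          linarith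
    rw [ee_sum_nb, ee_sum_nb]
    simp_rw [ee_sum_nb]
    calc ∑ a ∈ A, ((nb G a B).card : ℝ) ≤ ∑ a ∈ A, ((if M ≤ ((nb G a B).card : ℝ) then
        ((nb G a B).card : ℝ) else 0) + d / 20 + ∑ j ∈ Finset.range J,
        (if θ ^ j * (d / 20) ≤ ((nb G a B).card : ℝ) ∧
          ((nb G a B).card : ℝ) < θ ^ (j + 1) * (d / 20) then ((nb G a B).card : ℝ) else 0)) :=
          Finset.sum_le_sum h1
      _ = ∑ a ∈ A.filter (fun a => M ≤ ((nb G a B).card : ℝ)), ((nb G a B).card : ℝ) +
          d / 20 * A.card + ∑ j ∈ Finset.range J, ∑ a ∈ C j, ((nb G a B).card : ℝ) := by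
          rw [Finset.sum_add_distrib, Finset.sum_add_distrib, Finset.sum_comm, Finset.sum_filter,
            Finset.sum_const, nsmul_eq_mul, mul_comm (A.card : ℝ)]
          congr 1
          refine Finset.sum_congr rfl fun j _ => ?_
          rw [hC, Finset.sum_filter]
      _ ≤ _ := by
          have : d / 20 * A.card ≤ d / 20 * N := mul_le_mul_of_nonneg_left hAN (by positivity)
          linarith
  have hex : ∃ j ∈ Finset.range J, 3 / 100 * (d * N) / J ≤ (ee G (C j) B : ℝ) := by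
    by_contra hcon
    push Not at hcon
    have hne : (Finset.range J).Nonempty := Finset.nonempty_range_iff.mpr (by omega)
    have h1 := Finset.sum_lt_sum_of_nonempty hne hcon
    rw [Finset.sum_const, Finset.card_range, nsmul_eq_mul] at h1
    have hJ0 : (J : ℝ) ≠ 0 := by exact_mod_cast (by omega : J ≠ 0)
    have h2 : (J : ℝ) * (3 / 100 * (d * N) / J) = 3 / 100 * (d * N) := by field_simp
    rw [h2] at h1
    linarith
  obtain ⟨j, _, hj⟩ := hex
  set D : ℝ := θ ^ j * (d / 20) with hD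
  have hD1 : d / 20 ≤ D := by
    rw [hD]
    have : 1 ≤ θ ^ j := one_le_pow₀ hθ1
    have : 0 < d / 20 := by positivity
    nlinarith
  have hD0 : 0 < D := lt_of_lt_of_le (by positivity) hD1
  have hCA : C j ⊆ A := Finset.filter_subset _ _
  have hC1 : ∀ a ∈ C j, D ≤ ((nb G a B).card : ℝ) := fun a ha => (mem_filter.mp ha).2.1
  have hC2 : ∀ a ∈ C j, ((nb G a B).card : ℝ) ≤ θ * D := by
    intro a ha
    have := (mem_filter.mp ha).2.2.le
    refine this.trans (le_of_eq ?_)
    rw [hD]; ring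
  set C' := (C j).filter (fun a => ((nb G a (C j)).card : ℝ) ≤ 4 * θ * d) with hC'
  have hC'C : C' ⊆ C j := Finset.filter_subset _ _
  have hbad : 4 * θ * (C j \ C').card ≤ (C j).card := by
    have h1 : 4 * θ * d * (C j \ C').card ≤ (ee G (C j \ C') (C j) : ℝ) := by
      refine ee_ge_of G _ _ _ fun a ha => ?_
      obtain ⟨ha1, ha2⟩ := mem_sdiff.mp ha
      by_contra hcon
      push Not at hcon
      exact ha2 (mem_filter.mpr ⟨ha1, hcon.le⟩)
    have h2 : (ee G (C j \ C') (C j) : ℝ) ≤ ee G (C j) (C j) := by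
      exact_mod_cast ee_mono G Finset.sdiff_subset le_rfl
    have h3 := hmad (C j)
    have h4 : d * (4 * θ * (C j \ C').card) ≤ d * (C j).card := by linarith
    exact le_of_mul_le_mul_left h4 hd0
  have hC'e : 3 / 4 * (ee G (C j) B : ℝ) ≤ ee G C' B := by
    have h1 : (ee G (C j) B : ℝ) = ee G (C j \ C') B + ee G C' B := by
      have := ee_split G (C j) B C'
      rw [Finset.inter_eq_right.mpr hC'C] at this
      exact_mod_cast this
    have h2 : (ee G (C j \ C') B : ℝ) ≤ θ * D * (C j \ C').card :=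
      ee_le_of G _ _ _ fun a ha => hC2 a (mem_sdiff.mp ha).1
    have h3 : D * (C j).card ≤ (ee G (C j) B : ℝ) := ee_ge_of G _ _ _ hC1
    have h4 : D * (4 * θ * (C j \ C').card) ≤ D * (C j).card :=
      mul_le_mul_of_nonneg_left hbad hD0.le
    linarith
  refine hnG (caseII G s C' B (Finset.disjoint_of_subset_left (hC'C.trans hCA) hAB) hBne d θ D
    p1 (by linarith [Nat.cast_nonneg (α := ℝ) s]) hd36 hLS hBdeg (fun a ha => hC1 a (hC'C ha))
    (fun a ha => hC2 a (hC'C ha)) ?_ hD1 ?_)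
  · intro a ha
    refine le_trans ?_ (mem_filter.mp ha).2
    exact_mod_cast Finset.card_le_card (nb_mono G a hC'C)
  · have hJ0 : (0 : ℝ) < J := by exact_mod_cast hJ1
    have h1 : d / θ * B.card ≤ 3 / 4 * (3 / 100 * (d * N) / J) := by
      have h2 : d / θ * B.card ≤ d / θ * N := mul_le_mul_of_nonneg_left hBN (by positivity)
      refine h2.trans ?_
      have h3 : 3 / 4 * (3 / 100 * (d * N) / J) = (9 / 400 * (d * N)) / J := by ring
      have h4 : d / θ * N = (d * N) / θ := by ring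
      rw [h3, h4, div_le_div_iff₀ hθ0 hJ0]
      nlinarith
    linarith

end MP4d84d8
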