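import Mathlib
import Pool.Agent.Lib.MP_4d84d8_co.MainG

set_option autoImplicit false

open Finset
open scoped Classical

namespace MP4d84d8

/-- polynomially bounded -/
def PB (f : ℕ → ℝ) : Prop := ∃ e : ℕ, ∀ s : ℕ, 2 ≤ s → |f s| ≤ (s : ℝ) ^ e

lemma PB.const (c : ℝ) : PB (fun _ => c) := by
  obtain ⟨e, he⟩ := pow_unbounded_of_one_lt |c| (by norm_num : (1 : ℝ) < 2)
  refine ⟨e, fun s hs => ?_⟩
  have h2 : (2 : ℝ) ≤ s := by exact_mod_cast hs
  exact he.le.trans (pow_le_pow_left₀ (by norm_num) h2 e)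

lemma PB.id : PB (fun s => (s : ℝ)) :=
  ⟨1, fun s _ => by simp⟩

lemma PB.add {f g : ℕ → ℝ} (hf : PB f) (hg : PB g) : PB (fun s => f s + g s) := by
  obtain ⟨a, ha⟩ := hf
  obtain ⟨b, hb⟩ := hg
  refine ⟨max a b + 1, fun s hs => ?_⟩
  have h2 : (2 : ℝ) ≤ s := by exact_mod_cast hs
  have h1 : (1 : ℝ) ≤ s := by linarith
  calc |f s + g s| ≤ |f s| + |g s| := abs_add_le _ _
    _ ≤ (s : ℝ) ^ a + (s : ℝ) ^ b := add_le_add (ha s hs) (hb s hs)
    _ ≤ (s : ℝ) ^ (max a b) + (s : ℝ) ^ (max a b) :=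
        add_le_add (pow_le_pow_right₀ h1 (le_max_left _ _)) (pow_le_pow_right₀ h1 (le_max_right _ _))
    _ = 2 * (s : ℝ) ^ (max a b) := by ring
    _ ≤ s * (s : ℝ) ^ (max a b) := mul_le_mul_of_nonneg_right h2 (by positivity)
    _ = (s : ℝ) ^ (max a b + 1) := by ring

lemma PB.mul {f g : ℕ → ℝ} (hf : PB f) (hg : PB g) : PB (fun s => f s * g s) := by
  obtain ⟨a, ha⟩ := hf
  obtain ⟨b, hb⟩ := hg
  refine ⟨a + b, fun s hs => ?_⟩
  rw [abs_mul, pow_add]
  exact mul_le_mul (ha s hs) (hb s hs) (abs_nonneg _) (by positivity)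

lemma PB.pow {f : ℕ → ℝ} (hf : PB f) (n : ℕ) : PB (fun s => f s ^ n) := by
  induction n with
  | zero => simpa using PB.const 1
  | succ n ih =>
    have := ih.mul hf
    simpa [pow_succ] using this

lemma PB.Pq {q : ℕ → ℝ} (hq : PB q) (j : ℕ) : PB (fun s => MP4d84d8.Pq s j (q s)) := by
  induction j generalizing q with
  | zero => exact hq
  | succ j ih =>
    have h1 : PB (fun s => gq s (q s)) := by
      unfold gq
      exact ((PB.const 6400).mul (PB.id.pow 2)).mul (hq.pow 3)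
    exact (ih h1).mul h1

/-- total requirement on `θ` -/
noncomputable def Req (t h s : ℕ) : ℝ :=
  2 * 10 ^ 9 + 400 * (s : ℝ) + (11 + (s : ℝ) ^ 2) + (Rth s t h : ℝ) + (Lam s t (Rth s t h) : ℝ) +
    MP4d84d8.Pq s (t - 1) 34 + 4 * (10 ^ t * (2 ^ t * t * s + t ^ 2) : ℝ) +
    45 * (((36 * t + 1) * ((s + 3) * t) : ℕ) : ℝ)

lemma PB.req (t h : ℕ) : PB (Req t h) := by
  have hR : PB (fun s => (Rth s t h : ℝ)) := by
    unfold Rth
    push_cast
    exact (((PB.const 2).mul PB.id).pow t).mul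
      ((((PB.const _).mul (((PB.const 4).mul PB.id).pow (h + 1))).add (PB.const _)).add
        ((PB.const 2).mul PB.id))
  have hL : PB (fun s => (Lam s t (Rth s t h) : ℝ)) := by
    unfold Lam T0
    push_cast
    exact ((PB.const 2).mul (((((PB.const _).mul PB.id)).mul
      (((PB.const 4).mul PB.id).pow _)).pow t)).mul
      (((PB.const 4).mul (((PB.const 4).mul PB.id).pow _)).mul hR)
  unfold Req
  push_cast
  exact ((((((((PB.const _).add ((PB.const 400).mul PB.id)).add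
    ((PB.const 11).add (PB.id.pow 2))).add hR).add hL).add ((PB.const 34).Pq (t - 1))).add
    ((PB.const 4).mul ((PB.const _).mul (((PB.const _).mul PB.id).add (PB.const _))))).add
    ((PB.const 45).mul ((PB.const _).mul ((PB.id.add (PB.const 3)).mul (PB.const _)))))

lemma core_max {W : Type*} [Fintype W] (H : SimpleGraph W) (c : W → Bool)
    (hc : ∀ u v, H.Adj u v → c u ≠ c v) (hex : ∃ w, c w = true) :
    ∃ C : ℕ, ∀ s : ℕ, 2 ≤ s → ∀ (V : Type) [Fintype V] [Nonempty V] (G : SimpleGraph V),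
      ¬ Nonempty (H ↪g G) → NoBic G s → ∀ d : ℝ, (s : ℝ) ^ C ≤ d →
      (∀ U : Finset V, (ee G U U : ℝ) ≤ d * U.card) →
      (ee G univ univ : ℝ) = d * Fintype.card V → Good G s := by
  set t := Fintype.card {w // c w = true} with ht
  set h := Fintype.card {w // c w = false} with hh
  have ht1 : 1 ≤ t := by
    obtain ⟨w, hw⟩ := hex
    exact Fintype.card_pos_iff.mpr ⟨⟨w, hw⟩⟩
  obtain ⟨e, he⟩ := PB.req t h
  refine ⟨e * (36 * t), ?_⟩
  intro s hs V _ _ G hfree hG d hd hmad htot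
  have hs1 : 1 ≤ s := by omega
  have hs2 : (2 : ℝ) ≤ s := by exact_mod_cast hs
  have hd0 : 0 < d := lt_of_lt_of_le (by positivity) hd
  set θ : ℝ := d ^ (((36 * t : ℕ) : ℝ)⁻¹) with hθ
  have hθd : θ ^ (36 * t) = d := Real.rpow_inv_natCast_pow hd0.le (by omega)
  have hθ0 : 0 < θ := Real.rpow_pos_of_pos hd0 _
  have hreq : Req t h s ≤ θ := by
    have h1 : Req t h s ≤ (s : ℝ) ^ e := (le_abs_self _).trans (he s hs)
    have h2 : (s : ℝ) ^ e ≤ θ := by
      have h3 : ((s : ℝ) ^ e) ^ (36 * t) ≤ θ ^ (36 * t) := by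
        rw [hθd, ← pow_mul]; exact hd
      exact le_of_pow_le_pow_left₀ (by omega) hθ0.le h3
    exact h1.trans h2
  have hs0 : (0 : ℝ) ≤ s := by linarith
  have a1 : (0 : ℝ) ≤ 400 * (s : ℝ) := by positivity
  have a2 : (0 : ℝ) ≤ 11 + (s : ℝ) ^ 2 := by positivity
  have a3 : (0 : ℝ) ≤ (Rth s t h : ℝ) := Nat.cast_nonneg _
  have a4 : (0 : ℝ) ≤ (Lam s t (Rth s t h) : ℝ) := Nat.cast_nonneg _
  have a5 : (0 : ℝ) ≤ MP4d84d8.Pq s (t - 1) 34 :=
    le_trans (by norm_num) (Pq_ge s hs1 (t - 1) 34 (by norm_num))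
  have a6 : (0 : ℝ) ≤ 4 * (10 ^ t * (2 ^ t * t * s + t ^ 2) : ℝ) := by positivity
  have a7 : (0 : ℝ) ≤ 45 * (((36 * t + 1) * ((s + 3) * t) : ℕ) : ℝ) := by positivity
  unfold Req at hreq
  have hF := few_of_free G s hs1 hG H c hc ht.symm hh.symm hfree
  have hR1 : 1 ≤ Rth s t h := by
    unfold Rth
    refine Nat.one_le_iff_ne_zero.mpr ?_
    positivity
  refine mainG G s t (Rth s t h) hs1 ht1 hR1 hG hF d θ hθd ?_ ?_ ?_ ?_ ?_ ?_ ?_ ?_ hmad htot
  all_goals linarith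

/-- transfer along an induced embedding -/
lemma ee_map {V' V : Type*} {G' : SimpleGraph V'} {G : SimpleGraph V} (φ : G' ↪g G)
    (A B : Finset V') :
    ee G (A.map φ.toEmbedding) (B.map φ.toEmbedding) = ee G' A B := by
  unfold ee
  rw [Finset.sum_map]
  refine Finset.sum_congr rfl fun a _ => ?_
  have : nb G (φ.toEmbedding a) (B.map φ.toEmbedding) = (nb G' a B).map φ.toEmbedding := by
    ext v
    simp only [mem_nb, mem_map]
    constructor
    · rintro ⟨⟨b, hb, rfl⟩, h⟩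
      exact ⟨b, ⟨hb, φ.map_rel_iff.mp h⟩, rfl⟩
    · rintro ⟨b, ⟨hb, h⟩, rfl⟩
      exact ⟨⟨b, hb, rfl⟩, φ.map_rel_iff.mpr h⟩
  rw [this, Finset.card_map]

lemma nobic_of {V' V : Type*} {G' : SimpleGraph V'} {G : SimpleGraph V} (φ : G' ↪g G) (s : ℕ)
    (h : NoBic G s) : NoBic G' s := by
  rintro ⟨A, B, hA, hB, hAB⟩
  refine h ⟨A.map φ.toEmbedding, B.map φ.toEmbedding, by simpa using hA, by simpa using hB, ?_⟩
  intro a ha b hb
  rw [mem_map] at ha hb
  obtain ⟨a, ha, rfl⟩ := ha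
  obtain ⟨b, hb, rfl⟩ := hb
  exact φ.map_rel_iff.mpr (hAB a ha b hb)

lemma good_of {V' V : Type*} {G' : SimpleGraph V'} {G : SimpleGraph V} (φ : G' ↪g G) (s : ℕ)
    (h : Good G' s) : Good G s := by
  obtain ⟨W, hW, hC, hs⟩ := h
  refine ⟨W.map φ.toEmbedding, by simpa using hW, ?_, ?_⟩
  · intro w hw x hx y hy z hz hwy hxz hh
    rw [mem_map] at hw hx hy hz
    obtain ⟨w, hw, rfl⟩ := hw
    obtain ⟨x, hx, rfl⟩ := hx
    obtain ⟨y, hy, rfl⟩ := hy
    obtain ⟨z, hz, rfl⟩ := hz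
    refine hC w hw x hx y hy z hz (fun h => hwy (by rw [h])) (fun h => hxz (by rw [h])) ?_
    exact ⟨φ.map_rel_iff.mp hh.1, φ.map_rel_iff.mp hh.2.1, φ.map_rel_iff.mp hh.2.2.1,
      φ.map_rel_iff.mp hh.2.2.2⟩
  · rw [ee_map, Finset.card_map]
    exact hs

lemma core {W : Type*} [Fintype W] (H : SimpleGraph W) (c : W → Bool)
    (hc : ∀ u v, H.Adj u v → c u ≠ c v) (hex : ∃ w, c w = true) :
    ∃ C : ℕ, ∀ s : ℕ, 2 ≤ s → ∀ (V : Type) [Fintype V] [Nonempty V] (G : SimpleGraph V),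
      ¬ Nonempty (H ↪g G) → NoBic G s → (s : ℝ) ^ C * Fintype.card V ≤ ee G univ univ →
      Good G s := by
  obtain ⟨C, hC⟩ := core_max H c hc hex
  refine ⟨C, ?_⟩
  intro s hs V _ _ G hfree hG hd
  -- maximise the average degree
  set P := (univ : Finset (Finset V)).filter (fun U => U.Nonempty) with hP
  have hPne : P.Nonempty := ⟨univ, by simp [hP]⟩
  obtain ⟨U, hU, hmax⟩ := Finset.exists_max_image P
    (fun U => (ee G U U : ℝ) / U.card) hPne
  rw [hP, mem_filter] at hU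
  have hUne := hU.2
  set d : ℝ := (ee G U U : ℝ) / U.card with hdd
  have hUc : (0 : ℝ) < U.card := by exact_mod_cast Finset.card_pos.mpr hUne
  have hd1 : (s : ℝ) ^ C ≤ d := by
    have h1 := hmax univ (by simp [hP])
    refine le_trans ?_ h1
    rw [le_div_iff₀ (by simpa using Fintype.card_pos)]
    simpa using hd
  let φ : G.induce (U : Set V) ↪g G := SimpleGraph.Embedding.induce (U : Set V)
  have : Nonempty (U : Set V) := by
    obtain ⟨u, hu⟩ := hUne
    exact ⟨⟨u, hu⟩⟩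
  refine good_of φ s (hC s hs (U : Set V) (G.induce (U : Set V)) ?_ (nobic_of φ s hG) d hd1 ?_ ?_)
  · rintro ⟨ψ⟩
    exact hfree ⟨φ.comp ψ⟩
  · intro X
    rcases X.eq_empty_or_nonempty with h0 | hX
    · subst h0; simp [ee]
    · have h1 := hmax (X.map φ.toEmbedding) (by simpa [hP] using hX)
      simp only [ee_map, Finset.card_map] at h1
      have hXc : (0 : ℝ) < X.card := by exact_mod_cast Finset.card_pos.mpr hX
      rwa [div_le_iff₀ hXc] at h1
  · have h1 : (univ : Finset (U : Set V)).map φ.toEmbedding = U := by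
      ext v
      simp only [mem_map, mem_univ, true_and]
      constructor
      · rintro ⟨a, rfl⟩
        exact a.2
      · intro hv
        exact ⟨⟨v, hv⟩, rfl⟩
    have h2 : ee (G.induce (U : Set V)) univ univ = ee G U U := by
      rw [← ee_map φ, h1]
    rw [h2, hdd]
    have h3 : Fintype.card (U : Set V) = U.card := by simp
    rw [h3]
    field_simp

end MP4d84d8
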